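import Pool.Agent.Lib.MP_453ac3_co.UB.Main

/-! Definitions and statements for the upper bound with constant slack. -/

namespace Pool.Agent.Lib.MP_453ac3_co.UB

open Finset

namespace Inst

variable {β : Type} [DecidableEq β] (I : Inst β)

/-- The instance read backwards. -/
def rev : Inst β := ⟨I.σ⁻¹, I.c, I.fx, fun b => !I.o0 b⟩

/-- A free equator block that shares a colour with its free successor. -/
def Cand (g : β) : Prop :=
  6 ≤ (I.c g).val ∧ g ∉ I.fx ∧ I.σ g ∉ I.fx ∧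
    ∃ l, AdjJ.cont (I.c g) l ∧ AdjJ.cont (I.c (I.σ g)) l

instance (g : β) : Decidable (I.Cand g) := by unfold Cand; infer_instance

/-- Excess of loops over demands between the poles. -/
def ex [Fintype β] (s : β → Dc) : ℤ := I.y s (tc 0) + I.y s (tc 1) + I.y s (tc 2)

end Inst

def HullStmt : Prop :=
  ∀ (S ι : Type) [Fintype S] [Fintype ι] (A : Set S) (Y : S → ι → ℤ) (T : ι → ℤ) (ε : ℕ),
    (∀ s ∈ A, ∀ s' ∈ A, ∃ u ∈ A, ∀ i, Y s i + Y s' i ≤ 2 * Y u i + 2 * ε) →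
    (∀ lam : ι → ℤ, (∀ i, 0 ≤ lam i) → ∃ s ∈ A, ∑ i, lam i * T i ≤ ∑ i, lam i * Y s i) →
    ∃ s ∈ A, ∀ i, T i ≤ Y s i + (Fintype.card ι + 1) * (2 * ε + 1)

def BalStmt : Prop :=
  ∀ (β : Type) [DecidableEq β] [Fintype β] (I : Inst β) (u : ℕ) (s : β → Dc),
    (∀ l, -(u : ℤ) ≤ I.y s (tc l)) → 0 ≤ I.ex s →
    ∃ s' : β → Dc, (∀ b, (s' b).1 = (s b).1) ∧ I.ex s' = I.ex s ∧ (∀ l, 0 ≤ I.y s' (tc l)) ∧
      ∀ i, I.y s i - 3 * u ≤ I.y s' i

def AllocStmt : Prop :=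
  ∀ (β : Type) [DecidableEq β] [Fintype β] (I : Inst β) (X : Bool) (r : ℕ) (s : β → Dc),
    (∀ l, 0 ≤ I.y s (tc l)) → (r : ℤ) ≤ I.ex s →
    ∃ s' : β → Dc, (∀ b, (s' b).1 = (s b).1) ∧ I.ex s' = I.ex s - r ∧ (∀ l, 0 ≤ I.y s' (tc l)) ∧
      (∀ i : Fin 9, i.val < 6 → I.y s i ≤ I.y s' i) ∧
      ∑ l, I.y s' (spk X l) = ∑ l, I.y s (spk X l) + r

def Fin2Stmt : Prop :=
  ∀ (β : Type) [DecidableEq β] [Fintype β] (I : Inst β) (m e : ℕ), I.Ok m e →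
    ∀ s, I.Fix s → (∀ l, 0 ≤ I.y s (tc l)) →
      (∀ t, six (fun i => max (m - I.y s i) 0) ≤ I.z s t) → ∃ s', I.Good m s'

def RevStmt : Prop :=
  ∀ (β : Type) [DecidableEq β] [Fintype β] (I : Inst β) (m e : ℕ),
    (I.Ok m e → I.rev.Ok m e) ∧ ∀ s, I.rev.Good m s → ∃ s', I.Good m s'

def CountStmt : Prop :=
  ∀ (β : Type) [DecidableEq β] [Fintype β] (I : Inst β) (m e : ℕ), I.Ok m e → ∀ X a,
    e ≤ m + 9 + (univ.filter fun b => I.IsAdj X a b).card + (univ.filter fun g => I.Cand g).card +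
      (univ.filter fun g => I.rev.Cand g).card

/-- constant slack suffices -/
def SlackStmt : Prop :=
  ∀ (β : Type) [DecidableEq β] [Fintype β] (I : Inst β) (m e : ℕ), I.Ok m e →
    m + 10 ^ 14 ≤ e → ∃ s, I.Good m s

end Pool.Agent.Lib.MP_453ac3_co.UB
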