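import Pool.Agent.Lib.MP_453ac3_co.Eff.CSt

/-! Redecoration of single junctions and the final repair. -/

namespace Pool.Agent.Lib.MP_453ac3_co.UB

open Finset

namespace FixJ

open AdjJ BasJ

theorem tc_ne : ∀ (l : Fin 3) (X : Bool) (k : Fin 3), tc l ≠ spk X k := by decide

/-- The change of supply when a demand between the poles changes its colour. -/
def dl (l l2 : Fin 3) (i : Fin 9) : ℤ := dem 0 1 0 l2 i - dem 0 1 0 l i

theorem f1 : ∀ P Q p k l, dem P Q p k (tc l) < 0 → ∀ l2 i,
    dem P Q p l2 i = dem P Q p k i + dl l l2 i := by decide +kernel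

theorem f2 : ∀ l l2 i, -1 ≤ dl l l2 i := by decide +kernel

theorem f3 : ∀ l l2 j, dl l l2 (tc j) = (if j = l then 1 else 0) - (if j = l2 then 1 else 0) := by
  decide +kernel

/-- The change of supply when a loop is allocated to a pole. -/
def da (X : Bool) (l : Fin 3) (i : Fin 9) : ℤ :=
  (if i = spk X l then 1 else 0) - (if i = tc l then 1 else 0)

theorem f4 : ∀ X P Q p k l, 0 < dem P Q p k (tc l) → ∃ p2, ∀ i,
    dem P Q p2 k i = dem P Q p k i + da X l i := by decide +kernel

theorem f5 : ∀ X c p k l, 0 < lo c p k (tc l) → ∃ p2 k2, ∀ i,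
    lo c p2 k2 i = lo c p k i + da X l i := by decide +kernel

theorem f6 : ∀ X l j, da X l (tc j) = -(if j = l then 1 else 0) := by decide +kernel

theorem f7 : ∀ X l (i : Fin 9), i.val < 6 → 0 ≤ da X l i := by decide +kernel

theorem f8 : ∀ X l, ∑ j, da X l (spk X j) = 1 := by decide +kernel

variable {β : Type} [DecidableEq β] [Fintype β]

/-- Redecoration of one junction. -/
theorem upd (I : Inst β) (s : β → Dc) (b : β) (p k : Fin 3) (d : Fin 9 → ℤ)
    (h : ∀ i, I.sup b ((s b).1, p, k) (s (I.σ b)) i = I.sup b (s b) (s (I.σ b)) i + d i) :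
    ∃ s' : β → Dc, (∀ u, (s' u).1 = (s u).1) ∧ ∀ i, I.y s' i = I.y s i + d i := by
  have e0 : ∀ u, (Function.update s b ((s b).1, p, k) u).1 = (s u).1 := fun u => by
    by_cases c : u = b
    · rw [c, Function.update_self]
    · rw [Function.update_of_ne c]
  refine ⟨_, e0, fun i => ?_⟩
  have e1 : ∀ u x, I.sup u x (Function.update s b ((s b).1, p, k) (I.σ u)) i =
      I.sup u x (s (I.σ u)) i := fun u x => by simp only [sup_eq, e0]
  have key : ∑ u, (I.sup u (Function.update s b ((s b).1, p, k) u) (s (I.σ u)) i -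
      I.sup u (s u) (s (I.σ u)) i) = d i := by
    rw [Fintype.sum_eq_single b fun u hu => by rw [Function.update_of_ne hu, sub_self],
      Function.update_self, h, add_sub_cancel_left]
  rw [sum_sub_distrib] at key
  unfold Inst.y
  simp only [e1]
  omega

theorem step1 (I : Inst β) (s : β → Dc) {l : Fin 3} (h : I.y s (tc l) < 0) (l2 : Fin 3) :
    ∃ s' : β → Dc, (∀ u, (s' u).1 = (s u).1) ∧ ∀ i, I.y s' i = I.y s i + dl l l2 i := by
  obtain ⟨b, hb⟩ : ∃ b, I.sup b (s b) (s (I.σ b)) (tc l) < 0 := by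
    by_contra c
    push Not at c
    exact absurd (sum_nonneg fun b _ => c b) (not_le.2 h)
  refine upd I s b (s b).2.1 l2 _ fun i => ?_
  simp only [sup_eq] at hb ⊢
  split_ifs at hb ⊢
  · exact absurd (d2 _ _ _ _).1 (not_le.2 hb)
  · exact f1 _ _ _ _ l hb l2 i

theorem step2 (I : Inst β) (s : β → Dc) {l : Fin 3} (h : 0 < I.y s (tc l)) (X : Bool) :
    ∃ s' : β → Dc, (∀ u, (s' u).1 = (s u).1) ∧ ∀ i, I.y s' i = I.y s i + da X l i := by
  obtain ⟨b, hb⟩ : ∃ b, 0 < I.sup b (s b) (s (I.σ b)) (tc l) := by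
    by_contra c
    push Not at c
    exact absurd (sum_nonpos fun b _ => c b) (not_le.2 h)
  by_cases c : I.σ b = b ∧ b ∉ I.fx
  · rw [sup_eq, if_pos c] at hb
    obtain ⟨p, k, e⟩ := f5 X _ _ _ l hb
    exact upd I s b p k _ fun i => by rw [sup_eq, sup_eq, if_pos c, if_pos c]; exact e i
  · rw [sup_eq, if_neg c] at hb
    obtain ⟨p, e⟩ := f4 X _ _ _ _ l hb
    exact upd I s b p (s b).2.2 _ fun i => by rw [sup_eq, sup_eq, if_neg c, if_neg c]; exact e i

/-- Flipping a ready adjuster. -/
theorem flip2 (I : Inst β) {s : β → Dc} (hs : I.Fix s) {X lab : Bool} {a j k : Fin 3} {b : β}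
    (hj : a ≠ j) (hk : a ≠ k) (t1 : tok (tc a) lab = AdjJ.hub k) (t2 : tok (tc a) (!lab) = AdjJ.hub j)
    (hb : I.IsAdj X a b) (s1 : (s b).1 = true) (s2 : (s (I.σ b)).1 = lab)
    (s3 : (s (I.σ (I.σ b))).1 = true) :
    ∃ s', I.Fix s' ∧
      (∀ i, I.y s' i = I.y s i - (if i = spk X k then 1 else 0) +
        (if i = spk X j then 1 else 0)) ∧ ∀ t, I.z s t ≤ I.z s' t + 1 := by
  obtain ⟨b1, b2, b3, b4, b5⟩ := hb
  have g6 : 6 ≤ (I.c (I.σ b)).val := b3 ▸ tc_ge a
  have lo : ∀ u, (I.c u).val < 6 → u ≠ I.σ b := fun u hu e => absurd (e ▸ hu) (not_lt.2 g6)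
  have n1 : b ≠ I.σ b := lo b b1
  have n2 : I.σ (I.σ b) ≠ I.σ b := lo _ (b5 ▸ AdjJ.spk_lt X a)
  set s' := Function.update s (I.σ b) (!lab, (s (I.σ b)).2) with hs'
  have e0 : s' (I.σ b) = (!lab, (s (I.σ b)).2) := Function.update_self ..
  have e1 : ∀ u, u ≠ I.σ b → s' u = s u := fun u hu => Function.update_of_ne hu ..
  have n3 : ∀ u, u ≠ b → I.σ u ≠ I.σ b := fun u hu e => hu (I.σ.injective e)
  refine ⟨s', fun u hu => ?_, fun i => ?_, fun t => ?_⟩
  · rw [e1 u fun e => b4 (e ▸ hu)]
    exact hs u hu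
  · have key : ∑ u, (I.sup u (s' u) (s' (I.σ u)) i - I.sup u (s u) (s (I.σ u)) i) =
        (if i = spk X j then 1 else 0) - if i = spk X k then 1 else 0 := by
      rw [Fintype.sum_eq_add b (I.σ b) n1 fun u hu => by
        rw [e1 u hu.2, e1 _ (n3 u hu.1), sub_self]]
      unfold Inst.sup
      rw [if_neg fun c => n1 c.1.symm, if_neg fun c => n1 c.1.symm, if_neg fun c => n2 c.1,
        if_neg fun c => n2 c.1, e0, e1 b n1, e1 _ n2, s1, s2, s3, b3, b5, tok_spoke _ a b1 b2]
      simp only [Bool.not_not, Bool.not_true, t1, t2, dem_zero a j hj, dem_zero a k hk, dem_pole]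
      ring
    rw [sum_sub_distrib] at key
    unfold Inst.y
    omega
  · have key : ∑ u, (I.rdy u (s u) (s (I.σ u)) (s (I.σ (I.σ u))) t -
        I.rdy u (s' u) (s' (I.σ u)) (s' (I.σ (I.σ u))) t) ≤ 1 := by
      rw [Fintype.sum_eq_single b fun u hu => ?_]
      · unfold Inst.rdy
        split_ifs <;> norm_num
      · by_cases c : I.IsAdj t.1 t.2.1 u
        · rw [e1 u (lo u c.1), e1 _ (n3 u hu), e1 _ (lo _ (c.2.2.2.2 ▸ AdjJ.spk_lt _ _)), sub_self]
        · unfold Inst.rdy
          rw [if_neg fun d => c d.1, if_neg fun d => c d.1, sub_self]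
    rw [sum_sub_distrib] at key
    unfold Inst.z
    omega

end FixJ

open FixJ in
theorem bal : BalStmt := by
  intro β _ _ I u
  have main : ∀ (n : ℕ) (s : β → Dc), max (-I.y s (tc 0)) 0 + max (-I.y s (tc 1)) 0 +
      max (-I.y s (tc 2)) 0 = n → 0 ≤ I.ex s → ∃ s' : β → Dc, (∀ b, (s' b).1 = (s b).1) ∧
      I.ex s' = I.ex s ∧ (∀ l, 0 ≤ I.y s' (tc l)) ∧ ∀ i, I.y s i - n ≤ I.y s' i := by
    intro n
    induction n with
    | zero =>
      intro s hd _
      refine ⟨s, fun _ => rfl, rfl, fun l => ?_, fun i => by simp⟩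
      have : l = 0 ∨ l = 1 ∨ l = 2 := by omega
      rcases this with rfl | rfl | rfl <;> omega
    | succ n ih =>
      intro s hd he
      obtain ⟨l, hl⟩ : ∃ l, I.y s (tc l) < 0 := by
        by_contra c
        push Not at c
        have c0 := c 0
        have c1 := c 1
        have c2 := c 2
        omega
      obtain ⟨l2, hl2⟩ : ∃ l2, 0 < I.y s (tc l2) := by
        by_contra c
        push Not at c
        have c0 := c 0
        have c1 := c 1
        have c2 := c 2
        unfold Inst.ex at he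
        have : l = 0 ∨ l = 1 ∨ l = 2 := by omega
        rcases this with rfl | rfl | rfl <;> omega
      obtain ⟨s1, a1, a2⟩ := step1 I s hl l2
      have b0 := a2 (tc 0)
      have b1 := a2 (tc 1)
      have b2 := a2 (tc 2)
      rw [f3] at b0 b1 b2
      have k : (max (-I.y s1 (tc 0)) 0 + max (-I.y s1 (tc 1)) 0 + max (-I.y s1 (tc 2)) 0 = n) ∧
          I.ex s1 = I.ex s := by
        unfold Inst.ex
        have h1 : l = 0 ∨ l = 1 ∨ l = 2 := by omega
        have h2 : l2 = 0 ∨ l2 = 1 ∨ l2 = 2 := by omega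
        rcases h1 with rfl | rfl | rfl <;> rcases h2 with rfl | rfl | rfl <;>
          simp only [Fin.reduceEq, if_true, if_false] at b0 b1 b2 <;> omega
      obtain ⟨s', c1, c2, c3, c4⟩ := ih s1 k.1 (k.2 ▸ he)
      refine ⟨s', fun b => (c1 b).trans (a1 b), c2.trans k.2, c3, fun i => ?_⟩
      have d1 := c4 i
      have d2 := a2 i
      have d3 := f2 l l2 i
      omega
  intro s hu he
  have u0 := hu 0
  have u1 := hu 1
  have u2 := hu 2
  obtain ⟨s', c1, c2, c3, c4⟩ := main (max (-I.y s (tc 0)) 0 + max (-I.y s (tc 1)) 0 +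
    max (-I.y s (tc 2)) 0).toNat s (by omega) he
  exact ⟨s', c1, c2, c3, fun i => by have := c4 i; omega⟩

open FixJ in
theorem alloc : AllocStmt := by
  intro β _ _ I X r
  induction r with
  | zero => exact fun s h _ => ⟨s, fun _ => rfl, by simp, h, fun _ _ => le_rfl, by simp⟩
  | succ r ih =>
    intro s h he
    obtain ⟨l, hl⟩ : ∃ l, 0 < I.y s (tc l) := by
      by_contra c
      push Not at c
      have c0 := c 0
      have c1 := c 1
      have c2 := c 2
      unfold Inst.ex at he
      omega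
    obtain ⟨s1, a1, a2⟩ := step2 I s hl X
    have k : I.ex s1 = I.ex s - 1 := by
      unfold Inst.ex
      rw [a2, a2, a2, f6, f6, f6]
      have h1 : l = 0 ∨ l = 1 ∨ l = 2 := by omega
      rcases h1 with rfl | rfl | rfl <;> simp only [Fin.reduceEq, if_true, if_false] <;> omega
    obtain ⟨s', c1, c2, c3, c4, c5⟩ := ih s1 (fun j => by
      have := h j
      rw [a2, f6]
      split_ifs with c
      · rw [c]
        omega
      · omega) (by omega)
    refine ⟨s', fun b => (c1 b).trans (a1 b), by omega, c3, fun i hi => ?_, ?_⟩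
    · have d1 := c4 i hi
      have d2 := a2 i
      have d3 := f7 X l i hi
      omega
    · rw [c5, sum_congr rfl fun j _ => a2 (spk X j), sum_add_distrib, f8]
      push_cast
      ring

open AdjJ FixJ in
theorem fin2 : Fin2Stmt := by
  intro β _ _ I m e hI
  have h := bas
  have main : ∀ (n : ℕ) (s : β → Dc), I.Fix s → (∀ l, 0 ≤ I.y s (tc l)) →
      six (fun i => max (m - I.y s i) 0) = n →
      (∀ t, (n : ℤ) ≤ I.z s t) → ∃ s', I.Good m s' := by
    intro n
    induction n with
    | zero =>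
      intro s hs ht hd _
      refine ⟨s, hs, fun i => ?_⟩
      rcases kinds i with ⟨c, -⟩ | ⟨c, l, rfl⟩
      · rw [if_pos c]
        simp only [six] at hd
        have : i = 0 ∨ i = 1 ∨ i = 2 ∨ i = 3 ∨ i = 4 ∨ i = 5 := by omega
        rcases this with rfl | rfl | rfl | rfl | rfl | rfl <;> omega
      · rw [if_neg c]
        exact ht l
    | succ n ih =>
      intro s hs ht hd hz
      have h1 : ∃ X j, I.y s (spk X j) < m := by
        by_contra c
        push Not at c
        have c0 : (m : ℤ) ≤ I.y s 0 := c false 0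
        have c1 : (m : ℤ) ≤ I.y s 1 := c false 1
        have c2 : (m : ℤ) ≤ I.y s 2 := c false 2
        have c3 : (m : ℤ) ≤ I.y s 3 := c true 0
        have c4 : (m : ℤ) ≤ I.y s 4 := c true 1
        have c5 : (m : ℤ) ≤ I.y s 5 := c true 2
        simp only [six] at hd
        omega
      obtain ⟨X, j, hj⟩ := h1
      have h2 : ∃ k, (m : ℤ) < I.y s (spk X k) := by
        by_contra c
        push Not at c
        have k1 := h.three β I m e hI s X
        have k2 : ∑ l, I.y s (spk X l) < ∑ _l : Fin 3, (m : ℤ) :=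
          sum_lt_sum (fun l _ => c l) ⟨j, mem_univ _, hj⟩
        simp only [sum_const, card_univ, Fintype.card_fin, nsmul_eq_mul, Nat.cast_ofNat] at k2
        omega
      obtain ⟨k, hk⟩ := h2
      obtain ⟨a, lab, a1, a2, t1, t2⟩ := third j k fun e => by
        rw [e] at hj
        omega
      have h3 : ∃ b, I.IsAdj X a b ∧ (s b).1 = true ∧ (s (I.σ b)).1 = lab ∧
          (s (I.σ (I.σ b))).1 = true := by
        by_contra c
        have k1 := hz (X, a, lab)
        have k2 : I.z s (X, a, lab) = 0 := sum_eq_zero fun b _ => if_neg fun d => c ⟨b, d⟩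
        omega
      obtain ⟨b, hb, s1, s2, s3⟩ := h3
      obtain ⟨s', u1, u2, u3⟩ := flip2 I hs a1 a2 t1 t2 hb s1 s2 s3
      have k1 := drop (AdjJ.spk_lt X j) hk hj u2
      refine ih s' u1 (fun l => ?_) (by omega) fun t => ?_
      · rw [u2, if_neg (tc_ne l X k), if_neg (tc_ne l X j)]
        simpa using ht l
      have k2 := hz t
      have k3 := u3 t
      omega
  intro s hs ht hz
  have h0 : 0 ≤ six fun i => max (m - I.y s i) 0 := by
    unfold six
    positivity
  exact main _ s hs ht (Int.toNat_of_nonneg h0).symm fun t => (Int.toNat_of_nonneg h0).le.trans (hz t)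

end Pool.Agent.Lib.MP_453ac3_co.UB
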