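import Pool.Agent.Lib.MP_453ac3_co.Eff.CSt

/-! Approximate midpoint closure and the dual condition give a point within a constant error. -/

namespace Pool.Agent.Lib.MP_453ac3_co.UB

open Finset

namespace HullJ

variable {S ι : Type} {A : Set S} {Y : S → ι → ℝ} {e : ℝ}

theorem dyadic (h : ∀ s ∈ A, ∀ s' ∈ A, ∃ u ∈ A, ∀ i, Y s i + Y s' i ≤ 2 * Y u i + 2 * e)
    (he : 0 ≤ e) {s s' : S} (hs : s ∈ A) (hs' : s' ∈ A) {B : ℝ} (hB0 : 0 ≤ B)
    (hB : ∀ i, Y s' i - Y s i ≤ B) (K : ℕ) :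
    ∀ a : ℝ, 0 ≤ a → a ≤ 1 →
      ∃ u ∈ A, ∀ i, (1 - a) * Y s i + a * Y s' i ≤ Y u i + 2 * e + B * (1 / 2) ^ K := by
  induction K with
  | zero =>
    intro a h0 h1
    refine ⟨s, hs, fun i => ?_⟩
    have h2 : a * (Y s' i - Y s i) ≤ a * B := mul_le_mul_of_nonneg_left (hB i) h0
    have h3 : a * B ≤ 1 * B := mul_le_mul_of_nonneg_right h1 hB0
    simp only [pow_zero, mul_one]
    nlinarith
  | succ K ih =>
    intro a h0 h1
    rcases le_total a (1 / 2) with ha | ha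
    · obtain ⟨u0, hu0, h2⟩ := ih (2 * a) (by linarith) (by linarith)
      obtain ⟨u, hu, h3⟩ := h s hs u0 hu0
      refine ⟨u, hu, fun i => ?_⟩
      have h4 := h2 i
      have h5 := h3 i
      rw [pow_succ]
      nlinarith
    · obtain ⟨u0, hu0, h2⟩ := ih (2 * a - 1) (by linarith) (by linarith)
      obtain ⟨u, hu, h3⟩ := h s' hs' u0 hu0
      refine ⟨u, hu, fun i => ?_⟩
      have h4 := h2 i
      have h5 := h3 i
      rw [pow_succ]
      nlinarith

theorem seg [Fintype ι]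
    (h : ∀ s ∈ A, ∀ s' ∈ A, ∃ u ∈ A, ∀ i, Y s i + Y s' i ≤ 2 * Y u i + 2 * e)
    (he : 0 ≤ e) {s s' : S} (hs : s ∈ A) (hs' : s' ∈ A) {a : ℝ} (h0 : 0 ≤ a) (h1 : a ≤ 1) :
    ∃ u ∈ A, ∀ i, (1 - a) * Y s i + a * Y s' i ≤ Y u i + (2 * e + 1) := by
  have hB0 : 0 ≤ ∑ i, |Y s' i - Y s i| := sum_nonneg fun i _ => abs_nonneg _
  have hB : ∀ i, Y s' i - Y s i ≤ ∑ i, |Y s' i - Y s i| := fun i =>
    (le_abs_self _).trans
      (single_le_sum (f := fun i => |Y s' i - Y s i|) (fun i _ => abs_nonneg _) (mem_univ i))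
  generalize ∑ i, |Y s' i - Y s i| = B at hB0 hB
  obtain ⟨K, hK⟩ := exists_pow_lt_of_lt_one (x := 1 / (B + 1)) (y := (1 / 2 : ℝ))
    (by positivity) (by norm_num)
  obtain ⟨u, hu, h2⟩ := dyadic h he hs hs' hB0 hB K a h0 h1
  refine ⟨u, hu, fun i => ?_⟩
  have h3 : B * (1 / 2 : ℝ) ^ K ≤ B * (1 / (B + 1)) := mul_le_mul_of_nonneg_left hK.le hB0
  have h4 : B * (1 / (B + 1)) ≤ 1 := by
    rw [mul_one_div, div_le_one (by positivity)]
    linarith
  have h5 := h2 i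
  linarith

theorem fin_hull [Fintype ι]
    (h : ∀ s ∈ A, ∀ s' ∈ A, ∃ u ∈ A, ∀ i, Y s i + Y s' i ≤ 2 * Y u i + 2 * e)
    (he : 0 ≤ e) (t : Finset (ι → ℝ)) :
    (t : Set (ι → ℝ)) ⊆ Y '' A → ∀ x ∈ convexHull ℝ (t : Set (ι → ℝ)),
      ∃ u ∈ A, ∀ i, x i ≤ Y u i + t.card * (2 * e + 1) := by
  classical
  induction t using Finset.induction_on with
  | empty => intro _ x hx; simp at hx
  | insert p t hp ih =>
    intro ht x hx
    rw [coe_insert] at ht hx
    obtain ⟨s, hs, rfl⟩ := ht (Set.mem_insert _ _)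
    have hc : 0 ≤ (t.card : ℝ) * (2 * e + 1) := by positivity
    rw [card_insert_of_notMem hp]
    rcases (t : Set (ι → ℝ)).eq_empty_or_nonempty with h0 | h0
    · rw [h0, insert_empty_eq, convexHull_singleton, Set.mem_singleton_iff] at hx
      refine ⟨s, hs, fun i => ?_⟩
      rw [hx]
      push_cast
      nlinarith
    · rw [convexHull_insert h0, mem_convexJoin] at hx
      obtain ⟨_, rfl, y, hy, a, b, ha, hb, hab, rfl⟩ := hx
      obtain ⟨u0, hu0, h2⟩ := ih (fun z hz => ht (Set.mem_insert_of_mem _ hz)) y hy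
      obtain ⟨u, hu, h3⟩ := seg h he hs hu0 hb (by linarith)
      refine ⟨u, hu, fun i => ?_⟩
      have h4 := h3 i
      have h5 := mul_le_mul_of_nonneg_left (h2 i) hb
      have h6 : b * ((t.card : ℝ) * (2 * e + 1)) ≤ 1 * ((t.card : ℝ) * (2 * e + 1)) :=
        mul_le_mul_of_nonneg_right (by linarith) hc
      have h7 : a = 1 - b := by linarith
      subst h7
      simp only [Pi.add_apply, Pi.smul_apply, smul_eq_mul]
      push_cast
      nlinarith

theorem all_hull [Fintype ι]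
    (h : ∀ s ∈ A, ∀ s' ∈ A, ∃ u ∈ A, ∀ i, Y s i + Y s' i ≤ 2 * Y u i + 2 * e)
    (he : 0 ≤ e) {x : ι → ℝ} (hx : x ∈ convexHull ℝ (Y '' A)) :
    ∃ u ∈ A, ∀ i, x i ≤ Y u i + (Fintype.card ι + 1) * (2 * e + 1) := by
  rw [convexHull_eq_union] at hx
  simp only [Set.mem_iUnion] at hx
  obtain ⟨t, ht, hai, hx⟩ := hx
  obtain ⟨u, hu, h2⟩ := fin_hull h he t ht x hx
  refine ⟨u, hu, fun i => (h2 i).trans ?_⟩
  have h3 := hai.card_le_finrank_succ
  have h4 : t.card ≤ Fintype.card ι + 1 := by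
    rw [Fintype.card_coe] at h3
    refine h3.trans (Nat.succ_le_succ ?_)
    exact (Submodule.finrank_le _).trans (Module.finrank_fintype_fun_eq_card ℝ).le
  have h5 : (t.card : ℝ) ≤ Fintype.card ι + 1 := by exact_mod_cast h4
  have h6 := mul_le_mul_of_nonneg_right h5 (show 0 ≤ 2 * e + 1 by linarith)
  linarith

theorem meet [Fintype S] [Fintype ι] (T : ι → ℝ)
    (h : ∀ lam : ι → ℤ, (∀ i, 0 ≤ lam i) →
      ∃ s ∈ A, ∑ i, (lam i : ℝ) * T i ≤ ∑ i, (lam i : ℝ) * Y s i) :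
    ∃ x ∈ convexHull ℝ (Y '' A), ∀ i, T i ≤ x i := by
  classical
  by_contra hne
  have hd : Disjoint (convexHull ℝ (Y '' A)) (Set.Ici T) := by
    rw [Set.disjoint_left]
    exact fun x hx hT => hne ⟨x, hx, hT⟩
  obtain ⟨f, u, v, h1, huv, h2⟩ := geometric_hahn_banach_compact_closed (convex_convexHull ℝ _)
    (((Set.toFinite A).image Y).isCompact_convexHull ℝ) (convex_Ici T) isClosed_Ici hd
  obtain ⟨c, hc⟩ : ∃ c : ι → ℝ, ∀ x, f x = ∑ i, c i * x i := by
    refine ⟨fun i => f (Pi.single i 1), fun x => ?_⟩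
    conv_lhs => rw [← Finset.univ_sum_single x]
    rw [map_sum]
    refine sum_congr rfl fun i _ => ?_
    rw [mul_comm, ← smul_eq_mul, ← map_smul, ← Pi.single_smul, smul_eq_mul, mul_one]
  have hT := h2 T (Set.mem_Ici.2 le_rfl)
  have hc0 : ∀ i, 0 ≤ c i := fun i => by
    by_contra hneg
    have hneg' : c i < 0 := not_le.1 hneg
    have hr : 0 ≤ (f T - v) / (-c i) := div_nonneg (by linarith) (by linarith)
    have h3 := h2 (T + Pi.single i ((f T - v) / (-c i))) (Set.mem_Ici.2 (by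
      intro j
      rw [Pi.add_apply]
      have : 0 ≤ (Pi.single i ((f T - v) / (-c i)) : ι → ℝ) j := by
        by_cases hj : j = i
        · subst hj; simpa using hr
        · simp [Pi.single_eq_of_ne hj]
      linarith))
    have h4 : f (Pi.single i ((f T - v) / (-c i))) = c i * ((f T - v) / (-c i)) := by
      rw [hc, sum_eq_single i]
      · simp
      · intro j _ hj
        simp [Pi.single_eq_of_ne hj]
      · simp
    rw [map_add, h4] at h3
    have h5 : c i * ((f T - v) / (-c i)) = -(f T - v) := by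
      have : c i ≠ 0 := hneg'.ne
      field_simp
    linarith
  have hB0 : 0 ≤ ∑ s, ∑ i, |T i - Y s i| :=
    sum_nonneg fun s _ => sum_nonneg fun i _ => abs_nonneg _
  have hB : ∀ s, ∑ i, |T i - Y s i| ≤ ∑ s, ∑ i, |T i - Y s i| := fun s =>
    single_le_sum (f := fun s => ∑ i, |T i - Y s i|)
      (fun s _ => sum_nonneg fun i _ => abs_nonneg _) (mem_univ s)
  generalize ∑ s, ∑ i, |T i - Y s i| = B at hB0 hB
  have hM : 0 < (B + 1) / (v - u) := div_pos (by linarith) (by linarith)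
  have hM2 : (B + 1) / (v - u) * (v - u) = B + 1 := div_mul_cancel₀ _ (by linarith)
  generalize (B + 1) / (v - u) = M at hM hM2
  obtain ⟨s, hs, h3⟩ := h (fun i => ⌈M * c i⌉) fun i =>
    Int.ceil_nonneg (mul_nonneg hM.le (hc0 i))
  have h4 := h1 (Y s) (subset_convexHull ℝ _ ⟨s, hs, rfl⟩)
  have h5 : ∑ i, (M * (c i * T i) - M * (c i * Y s i) - |T i - Y s i|) ≤
      ∑ i, ((⌈M * c i⌉ : ℝ) * T i - (⌈M * c i⌉ : ℝ) * Y s i) := by
    refine sum_le_sum fun i _ => ?_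
    have h6 := Int.le_ceil (M * c i)
    have h7 := Int.ceil_lt_add_one (M * c i)
    have h8 := neg_abs_le (T i - Y s i)
    have h9 := abs_nonneg (T i - Y s i)
    have h10 := mul_le_mul_of_nonneg_left h8 (sub_nonneg.2 h6)
    have h11 := mul_le_mul_of_nonneg_right
      (show (⌈M * c i⌉ : ℝ) - M * c i ≤ 1 by linarith) h9
    nlinarith
  rw [sum_sub_distrib, sum_sub_distrib, sum_sub_distrib, ← mul_sum, ← mul_sum, ← hc, ← hc] at h5
  have h6 := hB s
  have h7 := mul_lt_mul_of_pos_left h4 hM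
  have h8 := mul_lt_mul_of_pos_left hT hM
  nlinarith

end HullJ

theorem hull : HullStmt := by
  intro S ι _ _ A Y T ε h1 h2
  obtain ⟨x, hx, hT⟩ := HullJ.meet (A := A) (Y := fun s i => (Y s i : ℝ)) (fun i => (T i : ℝ))
    fun lam hl => by
      obtain ⟨s, hs, h⟩ := h2 lam hl
      exact ⟨s, hs, by exact_mod_cast h⟩
  obtain ⟨u, hu, h3⟩ := HullJ.all_hull (A := A) (Y := fun s i => (Y s i : ℝ)) (e := ε)
    (fun s hs s' hs' => by
      obtain ⟨u, hu, h⟩ := h1 s hs s' hs'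
      exact ⟨u, hu, fun i => by exact_mod_cast h i⟩) (Nat.cast_nonneg ε) hx
  refine ⟨u, hu, fun i => ?_⟩
  have h4 := (hT i).trans (h3 i)
  exact_mod_cast h4

end Pool.Agent.Lib.MP_453ac3_co.UB
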