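import Pool.Agent.Lib.MP_453ac3_co.Eff.LC2

/-! The lower bound with a constant error term. -/

namespace Pool.Agent.Lib.MP_453ac3_co.LB

open Finset

namespace LC

theorem sortNat (n : ℕ) (F : ℕ → ℕ) : ∃ π π' : ℕ → ℕ,
    (∀ k < n, π k < n ∧ π' k < n ∧ π (π' k) = k ∧ π' (π k) = k) ∧
    ∀ k < n, ∀ k' < n, k ≤ k' → F (π k) ≤ F (π k') := by
  obtain ⟨e, he⟩ : ∃ e : Equiv.Perm (Fin n), Monotone ((fun i : Fin n => F i) ∘ e) :=
    ⟨_, Tuple.monotone_sort _⟩
  refine ⟨fun k => if h : k < n then e ⟨k, h⟩ else 0,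
    fun k => if h : k < n then e.symm ⟨k, h⟩ else 0, fun k hk => ?_, fun k hk k' hk' h => ?_⟩
  · simp [hk]
  · simpa [hk, hk'] using he (show (⟨k, hk⟩ : Fin n) ≤ ⟨k', hk'⟩ from h)

theorem mem_out {V : Type} {lam : Sym2 V} {a : V} (h : a ∈ lam) :
    a = lam.out.1 ∨ a = lam.out.2 := by
  have e : s(lam.out.1, lam.out.2) = lam := lam.out_eq
  rwa [← e, Sym2.mem_iff] at h

theorem out_inj {V : Type} {x y : Sym2 V} (h1 : x.out.1 = y.out.1) (h2 : x.out.2 = y.out.2) :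
    x = y := by
  have e : s(x.out.1, x.out.2) = x := x.out_eq
  have e' : s(y.out.1, y.out.2) = y := y.out_eq
  rw [← e, h1, h2, e']

variable {V : Type} [Fintype V] {G : SimpleGraph V} {H Y : Finset V} {τ : V → Sym2 V} {X : ℕ}
  {L : Sym2 V → ℕ} {o : Sym2 V → ℕ → V} {T : Finset (Sym2 V × ℕ)}

theorem left [DecidableEq V] (hcs : CS2 G H Y τ X) (hK : H.card ≤ 5)
    (hL : ∀ lam, (Y.filter fun y => τ y = lam).card ≤ L lam + 1)
    (ho : ∀ lam, ∀ p < L lam, o lam p ∈ Y ∧ τ (o lam p) = lam)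
    (hinj : ∀ lam, ∀ p < L lam, ∀ q < L lam, o lam p = o lam q → p = q)
    (hT : ∀ x, x ∈ T ↔ x.2 < 32 * (L x.1 / 32)) :
    (Y \ T.image fun x => o x.1 x.2).card ≤ 800 := by
  set At := T.image fun x => o x.1 x.2 with hAt
  have hleft : ∀ lam, ((Y.filter fun y => τ y = lam) \ At).card ≤ 32 := by
    intro lam
    have hsub : (range (32 * (L lam / 32))).image (o lam) ⊆
        (Y.filter fun y => τ y = lam) ∩ At := by
      intro y hy
      obtain ⟨r, hr, rfl⟩ := mem_image.1 hy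
      rw [mem_range] at hr
      exact mem_inter.2 ⟨mem_filter.2 (ho _ _ (by omega)),
        mem_image.2 ⟨(lam, r), (hT _).2 hr, rfl⟩⟩
    have hc : ((range (32 * (L lam / 32))).image (o lam)).card = 32 * (L lam / 32) := by
      rw [card_image_of_injOn, card_range]
      intro p hp q hq h
      rw [mem_coe, mem_range] at hp hq
      exact hinj lam p (by omega) q (by omega) h
    have h3 := card_le_card hsub
    have h4 := card_sdiff_add_card_inter (Y.filter fun y => τ y = lam) At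
    have h5 := hL lam
    omega
  have hsub : Y \ At ⊆ (H ×ˢ H).biUnion fun x => (Y.filter fun y => τ y = s(x.1, x.2)) \ At := by
    intro y hy
    obtain ⟨hy1, hy2⟩ := mem_sdiff.1 hy
    exact mem_biUnion.2 ⟨((τ y).out.1, (τ y).out.2), mem_product.2
      ⟨hcs.hubs y hy1 _ (Sym2.out_fst_mem _), hcs.hubs y hy1 _ (Sym2.out_snd_mem _)⟩,
      mem_sdiff.2 ⟨mem_filter.2 ⟨hy1, (τ y).out_eq.symm⟩, hy2⟩⟩
  refine le_trans (card_le_card hsub)
    (le_trans (card_biUnion_le_card_mul _ _ 32 fun x _ => hleft _) ?_)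
  rw [card_product]
  have := Nat.mul_le_mul hK hK
  omega

theorem excT {Λ : Type} [DecidableEq V] (hP : IsPlanar G) (hcs : CS2 G H Y τ X)
    (hA : ∀ y ∈ Y, ∀ a ∈ τ y, G.Adj y a)
    (ho : ∀ lam, ∀ p < L lam, o lam p ∈ Y ∧ τ (o lam p) = lam)
    (hadj : ∀ lam, ∀ p < L lam, ∀ q < L lam, G.Adj (o lam p) (o lam q) → q = p + 1 ∨ p = q + 1)
    (hT : ∀ x, x ∈ T ↔ x.2 < 32 * (L x.1 / 32))
    (hZ : (Y \ T.image fun x => o x.1 x.2).card ≤ 800) (cl : Sym2 V × ℕ → Λ)
    (hc : num T (fun x => ¬ Lk T cl x) ≤ 22500) :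
    cnt G (fun u v => ¬ (Rg T (fun x => o x.1 x.2) Prod.fst cl u v ∨
      Rg T (fun x => o x.1 x.2) Prod.fst cl v u)) ≤ X + 51400 := by
  classical
  set B : Sym2 V × ℕ → V := fun x => o x.1 x.2 with hB
  set Z := Y \ T.image B with hZd
  have hB1 : ∀ x ∈ T, x.2 < L x.1 := fun x hx => by
    have := (hT x).1 hx
    omega
  rw [num_eq] at hc
  set Ch := T.filter fun x => ¬ Lk T cl x with hCh
  set E2 : V → V → Prop := fun u v => u ∈ Z ∧ ∀ a ∈ τ u, G.Adj v a with hE2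
  set E3 : V → V → Prop := fun u v => ∃ x ∈ Ch, u = B x ∧ v = B (nxt x) with hE3
  set E4 : V → V → Prop := fun u v => u ∈ Z ∧ v ∈ τ u with hE4
  have c2 : cnt G E2 ≤ 2 * Z.card := by
    refine Mod.cnt_two G Z _ fun u hu => ?_
    have huY := (mem_sdiff.1 hu).1
    have hh := hcs.hubs u huY
    have hn := hcs.nd u huY
    have hd := hcs.disj u huY
    revert hh hn
    induction τ u using Sym2.ind with
    | _ a b =>
      intro hh hn
      have hab : a ≠ b := by simpa using hn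
      have hau : a ≠ u := fun e => hd (e ▸ hh a (by simp))
      have hbu : b ≠ u := fun e => hd (e ▸ hh b (by simp))
      refine le_trans (num_mono ?_) (two V G hP a b u hab hau hbu)
      intro v hv hp
      exact ⟨hv, hp.2 a (by simp), hp.2 b (by simp), hp.1.symm⟩
  have c3 : cnt G E3 ≤ Ch.card := Mod.cnt_param G Ch _ _
  have c4 : cnt G E4 ≤ 2 * Z.card := Mod.cnt_two G Z _ fun u _ =>
    le_trans (num_mono fun v hv hp => ⟨hv, hp.2⟩) (Mod.num_mem_le (τ u))
  set E : V → V → Prop := fun u v => E2 u v ∨ E3 u v ∨ E4 u v with hE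
  have cE : cnt G E ≤ 25700 := by
    have a1 := cnt_or_le G E2 fun u v => E3 u v ∨ E4 u v
    have a2 := cnt_or_le G E3 E4
    simp only [hE]
    omega
  have cE' : cnt G (fun u v => E v u) ≤ 25700 := by
    rw [← cnt_swap]
    exact cE
  have hnext : ∀ x ∈ T, ∀ y : Sym2 V × ℕ, x.1 = y.1 → y.2 = x.2 + 1 →
      Rg T B Prod.fst cl (B x) (B y) ∨ E (B x) (B y) := by
    intro x hx y e h
    have hv : y = nxt x := Prod.ext e.symm h
    by_cases hl : Lk T cl x
    · exact Or.inl ⟨x, hx, rfl, Or.inr ⟨hl, by rw [hv]⟩⟩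
    · exact Or.inr (Or.inr (Or.inl ⟨x, mem_filter.2 ⟨hx, hl⟩, rfl, by rw [hv]⟩))
  have hhub : ∀ u v, u ∈ Y → v ∈ τ u → Rg T B Prod.fst cl u v ∨ E u v := by
    intro u v hu hv
    by_cases ha : u ∈ T.image B
    · obtain ⟨x, hx, rfl⟩ := mem_image.1 ha
      exact Or.inl ⟨x, hx, rfl, Or.inl ((ho _ _ (hB1 x hx)).2 ▸ hv)⟩
    · exact Or.inr (Or.inr (Or.inr ⟨mem_sdiff.2 ⟨hu, ha⟩, hv⟩))
  have hmix : ∀ u v, u ∈ Y → u ∉ T.image B → v ∈ Y → τ u = τ v → E u v :=
    fun u v hu ha hv e => Or.inl ⟨mem_sdiff.2 ⟨hu, ha⟩, e ▸ hA v hv⟩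
  have key : cnt G (fun u v => ¬ (Rg T B Prod.fst cl u v ∨ Rg T B Prod.fst cl v u)) ≤
      cnt G (fun u v => ¬ ((u ∈ Y ∧ v ∈ Y ∧ τ u = τ v) ∨ (u ∈ Y ∧ v ∈ τ u) ∨
        (v ∈ Y ∧ u ∈ τ v)) ∨ E u v ∨ E v u) := by
    refine cnt_mono fun u v huv hn => ?_
    rw [not_or] at hn
    by_cases hr : (u ∈ Y ∧ v ∈ Y ∧ τ u = τ v) ∨ (u ∈ Y ∧ v ∈ τ u) ∨ (v ∈ Y ∧ u ∈ τ v)
    swap
    · exact Or.inl hr
    refine Or.inr ?_
    rcases hr with ⟨hu, hv, e⟩ | ⟨hu, hv⟩ | ⟨hv, hu⟩
    · by_cases ha : u ∈ T.image B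
      swap
      · exact Or.inl (hmix u v hu ha hv e)
      by_cases hb : v ∈ T.image B
      swap
      · exact Or.inr (hmix v u hv hb hu e.symm)
      obtain ⟨x, hx, rfl⟩ := mem_image.1 ha
      obtain ⟨y, hy, rfl⟩ := mem_image.1 hb
      have exy : x.1 = y.1 :=
        ((ho _ _ (hB1 x hx)).2.symm.trans e).trans (ho _ _ (hB1 y hy)).2
      have hy' := hB1 y hy
      have h' : G.Adj (o x.1 x.2) (o x.1 y.2) := by
        simp only [hB] at huv
        rwa [← exy] at huv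
      rw [← exy] at hy'
      rcases hadj _ _ (hB1 x hx) _ hy' h' with h | h
      · exact Or.inl ((hnext x hx y exy h).resolve_left hn.1)
      · exact Or.inr ((hnext y hy x exy.symm h).resolve_left hn.2)
    · exact Or.inl ((hhub u v hu hv).resolve_left hn.1)
    · exact Or.inr ((hhub v u hv hu).resolve_left hn.2)
  have a1 := cnt_or_le G (fun u v => ¬ ((u ∈ Y ∧ v ∈ Y ∧ τ u = τ v) ∨ (u ∈ Y ∧ v ∈ τ u) ∨
    (v ∈ Y ∧ u ∈ τ v))) fun u v => E u v ∨ E v u
  have a3 := cnt_or_le G E fun u v => E v u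
  have a4 := hcs.exc
  omega

theorem mlc [DecidableEq V] (hP : IsPlanar G) (hPP : PathPairable G) (hcs : CS2 G H Y τ X)
    (hK : H.card ≤ 5) (hA : ∀ y ∈ Y, ∀ a ∈ τ y, G.Adj y a)
    (ho : ∀ lam, ∀ p < L lam, o lam p ∈ Y ∧ τ (o lam p) = lam)
    (hinj : ∀ lam, ∀ p < L lam, ∀ q < L lam, o lam p = o lam q → p = q)
    (hadj : ∀ lam, ∀ p < L lam, ∀ q < L lam, G.Adj (o lam p) (o lam q) → q = p + 1 ∨ p = q + 1)
    (hT : ∀ x, x ∈ T ↔ x.2 < 32 * (L x.1 / 32))
    (hZ : (Y \ T.image fun x => o x.1 x.2).card ≤ 800)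
    {S : Finset (Sym2 V × ℕ)} (hS : ∀ w, w ∈ S ↔ w.2 < L w.1 / 32) :
    ML S Prod.fst (25 * (X + 51400)) := by
  classical
  intro ρ hρ l σ hAdm J K _ _ f g u cost hi hf hg hu hcost htri
  obtain ⟨role, r0, r1, r2, r3⟩ : ∃ role : Sym2 V × ℕ → ℕ, (∀ w, role w ≤ 5) ∧
      (∀ j, role (f j) = 0) ∧ (∀ j, role (g j) = 1) ∧ ∀ z, role (u z) = 2 + z.2.1 := by
    refine ⟨Function.extend (Sum.elim (Sum.elim f g) u)
      (Sum.elim (Sum.elim (fun _ => 0) fun _ => 1) fun z => 2 + z.2.1) fun _ => 5, fun w => ?_,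
      fun j => hi.extend_apply _ _ (.inl (.inl j)), fun j => hi.extend_apply _ _ (.inl (.inr j)),
      fun z => hi.extend_apply _ _ (.inr z)⟩
    by_cases h : ∃ z, Sum.elim (Sum.elim f g) u z = w
    · obtain ⟨z, rfl⟩ := h
      rw [hi.extend_apply]
      rcases z with (j | j) | z
      · simp
      · simp
      · have := z.2.2
        simp only [Sum.elim_inr]
        omega
    · rw [Function.extend_apply' _ _ _ h]
  obtain ⟨lab, hlab⟩ : ∃ lab : Sym2 V × ℕ → ℕ,
      ∀ w, lab w = 100 * l w w.1.out.1 + 10 * l w w.1.out.2 + role w := ⟨_, fun _ => rfl⟩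
  choose π π' hπ hmono using fun lam => sortNat (L lam / 32) fun k => lab (lam, k)
  obtain ⟨win, hwin⟩ : ∃ win : Sym2 V × ℕ → Sym2 V × ℕ,
      ∀ x, win x = (x.1, π x.1 (x.2 / 32)) := ⟨_, fun _ => rfl⟩
  have hw1 : ∀ x, (win x).1 = x.1 := fun x => by rw [hwin]
  have hTd : ∀ x ∈ T, x.2 / 32 < L x.1 / 32 := fun x hx => by
    have := (hT x).1 hx
    omega
  have hB1 : ∀ x ∈ T, x.2 < L x.1 := fun x hx => by
    have := (hT x).1 hx
    omega
  have hwS : ∀ x ∈ T, win x ∈ S := fun x hx => by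
    rw [hS, hwin]
    exact (hπ _ _ (hTd x hx)).1
  obtain ⟨bs, hbs⟩ : ∃ bs : Sym2 V × ℕ → Sym2 V × ℕ,
      ∀ w p, sh (bs w) p = (w.1, 32 * π' w.1 w.2 + p) :=
    ⟨fun w => (w.1, 32 * π' w.1 w.2), fun _ _ => rfl⟩
  have hb1 : ∀ w ∈ S, ∀ p < 32, sh (bs w) p ∈ T ∧ win (sh (bs w) p) = w := by
    intro w hw p hp
    obtain ⟨-, a2, a3, -⟩ := hπ w.1 w.2 ((hS w).1 hw)
    rw [hT, hwin, hbs]
    refine ⟨by dsimp only; omega, Prod.ext rfl ?_⟩
    dsimp only
    rw [show (32 * π' w.1 w.2 + p) / 32 = π' w.1 w.2 by omega, a3]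
  have hl8 : ∀ w ∈ S, ∀ a, l w a ≤ 8 := fun w hw => (hAdm w hw).1
  have hc : num T (fun x => ¬ Lk T (fun x => (x.1, lab (win x))) x) ≤ 22500 := by
    have hlt : ∀ x ∈ T, ∀ y ∈ T, x.1 = y.1 → lab (win x) = lab (win y) → x.2 < y.2 →
        Lk T (fun x => (x.1, lab (win x))) x := by
      intro x hx y hy e1 e2 h
      have a1 := (hT y).1 hy
      have a2 := hTd y hy
      rw [← e1] at a1 a2
      have a3 := hmono x.1 (x.2 / 32) (hTd x hx) ((x.2 + 1) / 32) (by omega) (by omega)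
      have a4 := hmono x.1 ((x.2 + 1) / 32) (by omega) (y.2 / 32) a2 (by omega)
      rw [hwin, hwin, ← e1] at e2
      refine ⟨(hT _).2 (by simp only [nxt]; omega), Prod.ext rfl ?_⟩
      simp only [hwin, nxt]
      omega
    refine le_trans (num_le_of_injOn (S' := H ×ˢ H ×ˢ range 900) (Q := fun _ => True)
      (fun x => (x.1.out.1, x.1.out.2, lab (win x))) (fun x hx _ => ⟨?_, trivial⟩) ?_)
      (le_trans (num_le_card _ _) ?_)
    · obtain ⟨a1, a2⟩ := ho _ _ (hB1 x hx)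
      have a3 := hcs.hubs _ a1
      rw [a2] at a3
      refine mem_product.2 ⟨a3 _ (Sym2.out_fst_mem _), mem_product.2
        ⟨a3 _ (Sym2.out_snd_mem _), mem_range.2 ?_⟩⟩
      have b1 := hl8 _ (hwS x hx) (win x).1.out.1
      have b2 := hl8 _ (hwS x hx) (win x).1.out.2
      have b3 := r0 (win x)
      dsimp only
      rw [hlab]
      omega
    · intro x hx kx y hy ky e
      simp only [Prod.mk.injEq] at e
      have e1 := out_inj e.1 e.2.1
      rcases lt_trichotomy x.2 y.2 with h | h | h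
      · exact absurd (hlt x hx y hy e1 e.2.2 h) kx
      · exact Prod.ext e1 h
      · exact absurd (hlt y hy x hx e1.symm e.2.2.symm h) ky
    · rw [card_product, card_product, card_range]
      have := Nat.mul_le_mul hK (Nat.mul_le_mul_right 900 hK)
      omega
  have hM : VM G T (fun x => o x.1 x.2) Prod.fst (fun x => (x.1, lab (win x)))
      (fun x => l (win x)) (X + 51400) := by
    refine ⟨fun x hx y hy e => ?_, fun x hx y hy h => ?_, fun x hx => ?_,
      fun x hx y hy e => ?_, excT hP hcs hA ho hadj hT hZ _ hc⟩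
    · have e1 : x.1 = y.1 := by
        rw [← (ho _ _ (hB1 x hx)).2, ← (ho _ _ (hB1 y hy)).2]
        exact congrArg τ e
      have a1 := hB1 y hy
      rw [← e1] at a1
      refine Prod.ext e1 (hinj _ _ (hB1 x hx) _ a1 ?_)
      rw [e1] at e ⊢
      simpa [e1] using e
    · obtain ⟨a1, a2⟩ := ho _ _ (hB1 y hy)
      exact hcs.disj _ (ho _ _ (hB1 x hx)).1 (hcs.hubs _ a1 _ (by rw [a2]; exact h))
    · obtain ⟨a1, a2⟩ := ho _ _ (hB1 x hx)
      rw [← a2]
      exact hcs.nd _ a1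
    · obtain ⟨e1, e2⟩ := Prod.mk.inj e
      refine ⟨e1, fun a ha => ?_⟩
      rw [hlab, hlab, hw1, hw1, ← e1] at e2
      have b1 := hl8 _ (hwS x hx) x.1.out.2
      have b2 := hl8 _ (hwS y hy) x.1.out.2
      have b3 := r0 (win x)
      have b4 := r0 (win y)
      rcases mem_out ha with rfl | rfl <;> omega
  have hv := vml (σ := fun x => σ (win x)) hPP hM hρ
    (fun x hx => by simpa only [hw1] using hAdm _ (hwS x hx)) 1 bs S Prod.fst l
    (fun w => (w.1, lab w))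
    (fun w hw p hp => by
      obtain ⟨a1, a2⟩ := hb1 w hw p (by omega)
      refine ⟨a1, ?_, ?_, ?_⟩
      · rw [a2, hbs]
      · rw [hbs]
      · rw [a2])
    (fun w hw w' hw' p hp p' hp' e => by
      have a1 := (hb1 w hw p (by omega)).2
      rw [e, (hb1 w' hw' p' (by omega)).2] at a1
      subst a1
      rw [hbs, hbs] at e
      have := (Prod.mk.inj e).2
      exact ⟨rfl, by omega⟩)
    f g u cost hi hf hg hu
    (fun j e => by
      have e2 := (Prod.mk.inj e).2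
      rw [hlab, hlab, r1, r2] at e2
      omega)
    (fun k r e => by
      have e2 := (Prod.mk.inj e).2
      rw [hlab, hlab, r3, r3] at e2
      have a1 : ∀ r : Fin 3, r.1 ≠ (r + 1).1 := by decide
      have a2 := a1 r
      have a3 := r.2
      have a4 := (r + 1).2
      dsimp only at e2
      omega)
    hcost htri
  have hs : ∑ x ∈ T, σ (win x) ≤ 32 * ∑ w ∈ S, σ w := by
    rw [← sum_fiberwise_of_maps_to hwS, mul_sum]
    refine sum_le_sum fun w hw => ?_
    rw [sum_congr rfl fun x hx => congrArg σ (mem_filter.1 hx).2, sum_const, smul_eq_mul]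
    refine Nat.mul_le_mul_right _ (le_trans (card_le_card
      (t := (range 32).image (sh (bs w))) fun x hx => ?_) (card_image_le.trans (by simp)))
    obtain ⟨hx, e⟩ := mem_filter.1 hx
    refine mem_image.2 ⟨x.2 % 32, mem_range.2 (by omega), ?_⟩
    rw [hbs, ← e, hwin]
    refine Prod.ext rfl ?_
    dsimp only
    rw [(hπ _ _ (hTd x hx)).2.2.2]
    omega
  omega

end LC

theorem lowerConst : ∃ n0 C : ℕ, ∀ (V : Type) [Fintype V] (G : SimpleGraph V),
    n0 ≤ Fintype.card V → IsPlanar G → PathPairable G →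
    ∃ v, 4 * Fintype.card V ≤ 9 * dg G v + C := by
  obtain ⟨n0, h0⟩ := five
  refine ⟨n0 + 10 ^ 22, 10 ^ 22, fun V _ G hn hp hpp => ?_⟩
  classical
  have : Nonempty V := Fintype.card_pos_iff.1 (by omega)
  obtain ⟨v, -, hv⟩ := exists_max_image univ (dg G) univ_nonempty
  refine ⟨v, ?_⟩
  by_cases hD : 4 * Fintype.card V ≤ 9 * dg G v
  · omega
  have hD' : ∀ w, 9 * dg G w ≤ 4 * Fintype.card V := fun w => by
    have := hv w (mem_univ _)
    omega
  obtain ⟨η, hη, h1⟩ := h0 V G (by omega) hp hpp hD'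
  have hM := Lev.stab hp hpp hη hD' (by omega)
    (le_trans (Nat.mul_le_mul_left _ (num_mono fun x hx h => ⟨hx, h.2⟩)) h1)
  obtain ⟨Y, τ, hcs, hA⟩ := Lev.cs2 hp hη hM
  have hK : (univ.image η).card ≤ 5 := card_image_le.trans (by simp)
  have hord : ∀ lam, ∃ (L : ℕ) (o : ℕ → V), (Y.filter fun y => τ y = lam).card ≤ L + 1 ∧
      (∀ p < L, o p ∈ Y.filter fun y => τ y = lam) ∧ (∀ p < L, ∀ q < L, o p = o q → p = q) ∧
      ∀ p < L, ∀ q < L, G.Adj (o p) (o q) → q = p + 1 ∨ p = q + 1 := by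
    intro lam
    induction lam using Sym2.ind with
    | _ a b =>
      by_cases hab : a = b
      · refine ⟨0, fun _ => a, ?_, by simp, by simp, by simp⟩
        rw [filter_false_of_mem fun y hy e => hcs.nd y hy (by rw [e]; simpa using hab)]
        simp
      · refine order mader two V G hp a b _ hab fun y hy => ?_
        obtain ⟨a1, a2⟩ := mem_filter.1 hy
        exact ⟨hA y a1 a (by simp [a2]), hA y a1 b (by simp [a2])⟩
  choose L o hL ho hinj hadj using hord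
  have ho' : ∀ lam, ∀ p < L lam, o lam p ∈ Y ∧ τ (o lam p) = lam :=
    fun lam p h => mem_filter.1 (ho lam p h)
  have hfin : ∀ F : Sym2 V → ℕ, ∃ T : Finset (Sym2 V × ℕ), ∀ x, x ∈ T ↔ x.2 < F x.1 := fun F =>
    ⟨(univ ×ˢ range (univ.sup F)).filter fun x => x.2 < F x.1, fun x => by
      simp only [mem_filter, mem_product, mem_univ, true_and, mem_range, and_iff_right_iff_imp]
      exact fun h => h.trans_le (le_sup (f := F) (mem_univ _))⟩
  obtain ⟨T, hT⟩ := hfin fun lam => 32 * (L lam / 32)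
  obtain ⟨S, hS⟩ := hfin fun lam => L lam / 32
  have hZ := LC.left hcs hK hL ho' hinj hT
  have hML := LC.mlc hp hpp hcs hK hA ho' hinj hadj hT hZ hS
  have hmod := Mod.core2 (D := 0) (m := 32) (sparse mader) two hp hcs hK
    (not_lt.1 fun h => by
      obtain ⟨y, hy, a, ha, h⟩ := num_pos.1 h
      exact h (hA y hy a ha)) (by omega) (fun lam => Y.filter fun y => τ y = lam)
    (fun lam y => by
      rw [mem_filter]
      exact ⟨fun h => ⟨h.1, h.2, h.2 ▸ hA y h.1⟩, fun h => ⟨h.1, h.2.1⟩⟩)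
    L o hL ho hinj hadj S (fun i => by rw [hS]; omega)
  have e1 : T.card ≤ 32 * S.card := by
    refine le_trans (card_le_card_of_injOn (t := S ×ˢ range 32)
      (fun x => ((x.1, x.2 / 32), x.2 % 32)) (fun x hx => ?_) fun x _ y _ e => ?_) ?_
    · have := (hT x).1 hx
      refine mem_coe.2 (mem_product.2 ⟨(hS _).2 ?_, mem_range.2 (Nat.mod_lt _ (by omega))⟩)
      dsimp only
      omega
    · simp only [Prod.mk.injEq] at e
      exact Prod.ext e.1.1 (by omega)
    · rw [card_product, card_range, mul_comm]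
  have e2 : Y.card ≤ (Y \ T.image fun x => o x.1 x.2).card + (T.image fun x => o x.1 x.2).card :=
    card_le_card_sdiff_add_card
  have e3 : (T.image fun x => o x.1 x.2).card ≤ T.card := card_image_le
  have e4 := hcs.cover
  obtain ⟨g1, -, g3⟩ := gamma V _ G S _ _ _ _ hp hmod (by omega)
  obtain ⟨i, j, hij, hno⟩ : ∃ i j, i ≠ j ∧ ∀ k ∈ S, k.1 ≠ s(η i, η j) := by
    by_contra hc
    push Not at hc
    exact g1 ⟨η, hc⟩
  obtain ⟨σ, σ0, σ1⟩ : ∃ σ : Equiv.Perm (Fin 5), σ 0 = i ∧ σ 1 = j := by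
    refine ⟨Equiv.swap (Equiv.swap 0 i 1) j * Equiv.swap 0 i, ?_, ?_⟩
    · rw [Equiv.Perm.mul_apply, Equiv.swap_apply_left]
      refine Equiv.swap_apply_of_ne_of_ne (fun e => ?_) hij
      have := (Equiv.swap 0 i).injective ((Equiv.swap_apply_left 0 i).trans e)
      exact absurd this (by decide)
    · rw [Equiv.Perm.mul_apply, Equiv.swap_apply_left]
  have fin := bip mlx (plan multi) V _ S Prod.fst _ (dg G v / 32) (η ∘ σ) hML
    (hη.comp σ.injective) hmod.nd
    (fun k hk a ha => by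
      have a0 := (hS k).1 hk
      obtain ⟨a1, a2⟩ := ho' k.1 0 (by omega)
      obtain ⟨l, -, rfl⟩ := mem_image.1 (hcs.hubs _ a1 a (by rw [a2]; exact ha))
      exact ⟨σ.symm l, by simp⟩)
    (fun k hk => by simpa [σ0, σ1] using hno k hk)
    (fun u => (Nat.le_div_iff_mul_le (by omega)).2
      (by rw [mul_comm]; exact (g3 u).trans (hv u (mem_univ _))))
    (by omega) (by omega)
  omega

end Pool.Agent.Lib.MP_453ac3_co.LB
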