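import Pool.Agent.Lib.MP_453ac3_co.Eff.CSt

/-! Reading an instance backwards, counting the equator blocks, and the assembly of the upper
bound with constant slack. -/

namespace Pool.Agent.Lib.MP_453ac3_co.UB

open Finset

namespace RevJ

theorem dem_symm : ∀ P Q p k i, dem P Q p k i = dem Q P p k i := by decide +kernel

variable {β : Type} [DecidableEq β]

theorem back (I : Inst β) (b : β) : I.rev.σ (I.σ b) = b := I.σ.symm_apply_apply b

theorem sup_rev (I : Inst β) (s : β → Dc) (b : β) (i : Fin 9) :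
    I.sup b (!(s b).1, (s (I.σ b)).2) (!(s (I.σ b)).1, (s (I.σ (I.σ b))).2) i =
      I.rev.sup (I.σ b) (s (I.σ b)) (s (I.rev.σ (I.σ b))) i := by
  rw [BasJ.sup_eq, BasJ.sup_eq, back]
  have hc : I.rev.c = I.c := rfl
  have hf : I.rev.fx = I.fx := rfl
  rw [hc, hf]
  by_cases h : I.σ b = b ∧ b ∉ I.fx
  · rw [if_pos h, if_pos ⟨h.1.symm, by rw [h.1]; exact h.2⟩, h.1]
  · rw [if_neg h, if_neg fun d => h ⟨d.1.symm, by rw [d.1]; exact d.2⟩, Bool.not_not]
    exact dem_symm _ _ _ _ _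

end RevJ

theorem revs : RevStmt := by
  intro β _ _ I m e
  refine ⟨fun h => ⟨h.sp, h.lo, h.hi, h.fx3, h.fxE, h.me, h.em⟩, fun s hs => ?_⟩
  refine ⟨fun b => (!(s b).1, (s (I.σ b)).2), fun b hb => ?_, fun i => (hs.2 i).trans (le_of_eq ?_)⟩
  · have h : (s b).1 = !I.o0 b := hs.1 b hb
    change (!(s b).1) = I.o0 b
    rw [h, Bool.not_not]
  · unfold Inst.y
    rw [← Equiv.sum_comp I.σ fun b => I.rev.sup b (s b) (s (I.rev.σ b)) i]
    exact sum_congr rfl fun b _ => (RevJ.sup_rev I s b i).symm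

open AdjJ in
theorem counts : CountStmt := by
  intro β _ _ I m e hI X a
  have k0 := hI.lo (tc a) (tc_ge a)
  rw [← pre I.σ] at k0
  have k1 := hI.fx3
  have k2 := (pre I.σ I.fx).trans_le k1
  have k3 := (pre I.σ (univ.filter fun b => I.σ b ∈ I.fx)).trans_le k2
  have k4 := pre I.σ (univ.filter fun g => I.Cand g)
  have k5 := pre I.σ (univ.filter fun g => I.rev.Cand g)
  have k7 := ((pre I.σ _).trans (pre I.σ _)).trans (hI.sp (spk (!X) a) (spk_lt _ _))
  refine k0.trans (le_trans (card_le_card ?_) (le_trans ((card_union_le _ _).trans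
    (Nat.add_le_add ((card_union_le _ _).trans (Nat.add_le_add ((card_union_le _ _).trans
    (Nat.add_le_add ((card_union_le _ _).trans (Nat.add_le_add ((card_union_le _ _).trans
    (Nat.add_le_add ((card_union_le _ _).trans
    (Nat.add_le_add k1 k2)) k3)) k4.le)) k5.le)) k7.le))
    (le_refl (univ.filter fun b => I.IsAdj X a b).card))) (by omega)))
  intro b hb
  simp only [mem_union, mem_filter, mem_univ, true_and] at hb ⊢
  by_contra hc
  simp only [not_or] at hc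
  obtain ⟨⟨⟨⟨⟨⟨c1, c2⟩, c3⟩, c4⟩, c5⟩, c7⟩, c8⟩ := hc
  have g6 : 6 ≤ (I.c (I.σ b)).val := hb ▸ tc_ge a
  have p1 : (I.c b).val < 6 ∧ (I.c b).val % 3 = a.val := by
    by_contra d
    obtain ⟨l, l1, l2⟩ := share _ a d
    refine c5 ⟨g6, c2, ?_, l, ?_, ?_⟩
    · rw [RevJ.back]
      exact c1
    · change cont (I.c (I.σ b)) l
      exact hb ▸ l2
    · rw [RevJ.back]
      exact l1
  have p2 : (I.c (I.σ (I.σ b))).val < 6 ∧ (I.c (I.σ (I.σ b))).val % 3 = a.val := by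
    by_contra d
    obtain ⟨l, l1, l2⟩ := share _ a d
    exact c4 ⟨g6, c2, c3, l, hb ▸ l2, l1⟩
  exact c8 ⟨p1.1, p1.2, hb, c2, (spoke _ a X p2).resolve_right c7⟩

theorem ubConst (h : SlackStmt) : ∃ n0 C : ℕ, ∀ n ≥ n0, ∃ G : SimpleGraph (Fin n),
    IsPlanar G ∧ PathPairable G ∧ ∀ v, 9 * (G.neighborSet v).ncard ≤ 4 * n + C := by
  refine ⟨10 ^ 16, 10 ^ 16, fun n hn => ?_⟩
  obtain ⟨m, R, hN, lo, hi, em⟩ : ∃ m R : ℕ, 6 * m + R = (n - 5) / 2 ∧
      m + 10 ^ 14 ≤ R / 3 + 1 ∧ R / 3 + 1 ≤ m + 10 ^ 14 + 4 ∧ R / 3 + 1 ≤ 2 * m :=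
    ⟨((n - 5) / 2 - 3 * 10 ^ 14) / 9, (n - 5) / 2 - 6 * (((n - 5) / 2 - 3 * 10 ^ 14) / 9),
      by omega, by omega, by omega, by omega⟩
  have me : m ≤ R / 3 + 1 := by omega
  have hp : PathPairable (GG (Sigma.fst : AsmJ.B m R → Fin 9)) := by
    refine route col ext _ _ fun I hc hf => ?_
    have hok := AsmJ.ok m R me em I hc hf
    obtain ⟨s, hs⟩ := h _ I m _ hok lo
    exact ⟨s, hs.1, hubRed hub _ I m _ hok s hs⟩
  obtain ⟨G, a, b, c⟩ := AsmJ.graphs plan deg del trans m R me hp n (by omega)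
  refine ⟨G, a, b, fun v => ?_⟩
  have c1 := c v
  omega

end Pool.Agent.Lib.MP_453ac3_co.UB
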