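import Pool.Agent.Shared.Tucker
import Pool.Agent.Lib.MP_453ac3_co.UB.Perm

/-! Halving several measures with few cuts, along a line and along the cycles of a permutation. -/

namespace Pool.Agent.Lib.MP_453ac3_co.Neck

open Finset Pool.Agent.Shared.Tucker

/-- number of colour changes -/
def ch (N : ℕ) (χ : ℕ → Bool) : ℕ := ((range (N - 1)).filter fun i => χ i ≠ χ (i + 1)).card

/-- the colouring extends the sign vector -/
def Ext (x : SV) (χ : ℕ → Bool) : Prop := (∀ i ∈ x.1, χ i = true) ∧ ∀ i ∈ x.2, χ i = false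

/-- the possible numbers of monochromatic pieces -/
def PS (N : ℕ) (x : SV) (b : Bool) : Set ℕ := {n | ∃ χ, Ext x χ ∧ χ 0 = b ∧ n = ch N χ + 1}

/-- the largest number of monochromatic pieces with a given first colour -/
noncomputable def pp (N : ℕ) (x : SV) (b : Bool) : ℕ := sSup (PS N x b)

theorem ch_le (N : ℕ) (χ : ℕ → Bool) : ch N χ ≤ N - 1 :=
  (card_filter_le _ _).trans (card_range _).le

theorem bdd (N : ℕ) (x : SV) (b : Bool) : BddAbove (PS N x b) :=
  ⟨N - 1 + 1, by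
    rintro _ ⟨χ, -, -, rfl⟩
    exact Nat.succ_le_succ (ch_le N χ)⟩

theorem le_pp {N : ℕ} {x : SV} {χ : ℕ → Bool} (h : Ext x χ) : ch N χ + 1 ≤ pp N x (χ 0) :=
  le_csSup (bdd N x _) ⟨χ, h, rfl, rfl⟩

theorem pp_mem {N : ℕ} {x : SV} {b : Bool} (h : 0 < pp N x b) : pp N x b ∈ PS N x b := by
  refine Nat.sSup_mem ?_ (bdd N x b)
  by_contra hc
  rw [Set.not_nonempty_iff_eq_empty] at hc
  simp [pp, hc] at h

theorem pp_le (N : ℕ) (x : SV) (b : Bool) : pp N x b ≤ N - 1 + 1 := by
  rcases Nat.eq_zero_or_pos (pp N x b) with h | h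
  · omega
  · obtain ⟨χ, -, -, e⟩ := pp_mem h
    have := ch_le N χ
    omega

theorem pp_anti {N : ℕ} {x y : SV} (h : x ≤ y) (b : Bool) : pp N y b ≤ pp N x b := by
  rcases Nat.eq_zero_or_pos (pp N y b) with h0 | h0
  · omega
  · obtain ⟨χ, h1, h2, e⟩ := pp_mem h0
    rw [e, ← h2]
    exact le_pp ⟨fun i hi => h1.1 i (h.1 hi), fun i hi => h1.2 i (h.2 hi)⟩

theorem pp_swap_le (N : ℕ) (x : SV) (b : Bool) : pp N x b ≤ pp N x.swap (!b) := by
  rcases Nat.eq_zero_or_pos (pp N x b) with h0 | h0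
  · omega
  · obtain ⟨χ, h1, h2, e⟩ := pp_mem h0
    have h3 := le_pp (N := N) (x := x.swap) (χ := fun i => !χ i)
      ⟨fun i hi => by simp [h1.2 i hi], fun i hi => by simp [h1.1 i hi]⟩
    have h4 : ch N (fun i => !χ i) = ch N χ := by
      unfold ch
      congr 1
      ext i
      simp
    rw [e, ← h2, ← h4]
    exact h3

theorem pp_swap (N : ℕ) (x : SV) (b : Bool) : pp N x.swap b = pp N x (!b) :=
  le_antisymm (pp_swap_le N x.swap b) (by simpa using pp_swap_le N x (!b))

/-- the greedy extension -/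
def gr (x : SV) : ℕ → Bool
  | 0 => decide (0 ∉ x.2)
  | i + 1 => if i + 1 ∈ x.1 then true else if i + 1 ∈ x.2 then false else !gr x i

theorem gr_ext {x : SV} (h : Disjoint x.1 x.2) : Ext x (gr x) := by
  refine ⟨fun i hi => ?_, fun i hi => ?_⟩
  · rcases i with _ | i
    · simpa [gr] using disjoint_left.1 h hi
    · simp [gr, hi]
  · rcases i with _ | i
    · simp [gr, hi]
    · simp [gr, hi, disjoint_right.1 h hi]

theorem gr_zero (N : ℕ) (x : SV) :
    ((range N).filter fun i => i ∉ x.1 ∧ i ∉ x.2).card ≤ ch N (gr x) + 1 := by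
  refine le_trans (card_le_card (t := insert 0 (((range (N - 1)).filter
    fun i => gr x i ≠ gr x (i + 1)).image (· + 1))) fun i hi => ?_)
    ((card_insert_le _ _).trans (Nat.succ_le_succ card_image_le))
  obtain ⟨h1, h2, h3⟩ := mem_filter.1 hi
  rcases i with _ | i
  · exact mem_insert_self _ _
  · refine mem_insert_of_mem (mem_image_of_mem _ (mem_filter.2 ⟨?_, ?_⟩))
    · rw [mem_range] at h1 ⊢
      omega
    · simp [gr, h2, h3]

theorem alt_of_max {N : ℕ} {x : SV} {χ : ℕ → Bool} (h : Ext x χ)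
    (hm : ∀ b, pp N x b ≤ ch N χ + 1) {i : ℕ} (hi : i + 1 < N)
    (hf : ∀ k ≤ i, k ∉ x.1 ∧ k ∉ x.2) : χ (i + 1) = !χ i := by
  by_contra hc
  have he : χ (i + 1) = χ i := by simpa using hc
  have h1 := le_pp (N := N) (x := x) (χ := fun k => if k ≤ i then !χ k else χ k)
    ⟨fun k hk => (if_neg fun e => (hf k e).1 hk).trans (h.1 k hk),
      fun k hk => (if_neg fun e => (hf k e).2 hk).trans (h.2 k hk)⟩
  have h2 : ch N χ < ch N fun k => if k ≤ i then !χ k else χ k := by
    refine card_lt_card ((ssubset_iff_of_subset fun k hk => ?_).2 ⟨i, ?_, ?_⟩)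
    · obtain ⟨k1, k2⟩ := mem_filter.1 hk
      refine mem_filter.2 ⟨k1, ?_⟩
      beta_reduce
      rcases lt_trichotomy k i with e | rfl | e
      · rw [if_pos e.le, if_pos (Nat.succ_le_of_lt e)]
        simpa using k2
      · exact absurd he.symm k2
      · rw [if_neg (by omega), if_neg (by omega)]
        exact k2
    · refine mem_filter.2 ⟨mem_range.2 (by omega), ?_⟩
      beta_reduce
      rw [if_pos le_rfl, if_neg (by omega), he]
      simp
    · simp [he]
  have h3 := hm (if 0 ≤ i then !χ 0 else χ 0)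
  omega

theorem pp_ne {N : ℕ} {x : SV} (hx : Good N x) : pp N x true ≠ pp N x false := by
  intro e
  have h0 := le_pp (N := N) (gr_ext hx.1)
  have hb : ∀ b, pp N x b = pp N x true := fun b => by cases b <;> simp [e]
  obtain ⟨χ, a1, a2, a3⟩ := pp_mem (show 0 < pp N x true by rw [hb] at h0; omega)
  obtain ⟨ψ, b1, b2, b3⟩ := pp_mem (show 0 < pp N x false by rw [hb] at h0; omega)
  have hex : ∃ j, j ∈ x.1 ∪ x.2 := hx.2.2.2
  have hj := Nat.find_spec hex
  have hjN : Nat.find hex < N := by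
    rcases mem_union.1 hj with h | h
    exacts [hx.2.1 _ h, hx.2.2.1 _ h]
  have key : ∀ i ≤ Nat.find hex, χ i = !ψ i := by
    intro i
    induction i with
    | zero => simp [a2, b2]
    | succ i ih =>
      intro hi
      have hf : ∀ k ≤ i, k ∉ x.1 ∧ k ∉ x.2 := fun k hk => by
        have := Nat.find_min hex (show k < Nat.find hex by omega)
        simpa using this
      rw [alt_of_max a1 (fun b => by rw [hb, a3]) (by omega) hf,
        alt_of_max b1 (fun b => by rw [hb, e, b3]) (by omega) hf, ih (by omega)]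
  have h1 := key _ le_rfl
  rcases mem_union.1 hj with h | h
  · rw [a1.1 _ h, b1.1 _ h] at h1
    simp at h1
  · rw [a1.2 _ h, b1.2 _ h] at h1
    simp at h1

theorem fair (N t : ℕ) (hN : t + 2 ≤ N) (w : ℕ → ℕ → ℕ) :
    ∃ x, Good N x ∧ (∀ b, pp N x b ≤ t + 1) ∧ ∀ k < t,
      2 * ∑ i ∈ x.1, w k i ≤ ∑ i ∈ range N, w k i ∧
        2 * ∑ i ∈ x.2, w k i ≤ ∑ i ∈ range N, w k i := by
  classical
  by_contra hc
  obtain ⟨U, hU⟩ : ∃ U : Finset ℕ → ℕ → Prop, ∀ A k, U A k ↔
    ∑ i ∈ range N, w k i < 2 * ∑ i ∈ A, w k i := ⟨_, fun _ _ => Iff.rfl⟩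
  have Um : ∀ A B k, A ⊆ B → U A k → U B k := fun A B k h1 h2 => by
    rw [hU] at h2 ⊢
    have : ∑ i ∈ A, w k i ≤ ∑ i ∈ B, w k i := sum_le_sum_of_subset h1
    omega
  have Ud : ∀ x, Good N x → ∀ k, U x.1 k → U x.2 k → False := fun x hx k h1 h2 => by
    rw [hU] at h1 h2
    have h3 : ∑ i ∈ x.1 ∪ x.2, w k i ≤ ∑ i ∈ range N, w k i :=
      sum_le_sum_of_subset fun i hi => mem_range.2
        ((mem_union.1 hi).elim (hx.2.1 i) (hx.2.2.1 i))
    rw [sum_union hx.1] at h3
    omega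
  obtain ⟨κ, hκ⟩ : ∃ κ : SV → ℕ, ∀ x, κ x = sInf {k | U x.1 k ∨ U x.2 k} := ⟨_, fun _ => rfl⟩
  have κs : ∀ x, κ x.swap = κ x := fun x => by
    rw [hκ, hκ]
    simp only [Prod.fst_swap, Prod.snd_swap, or_comm]
  have κ1 : ∀ x k, U x.1 k ∨ U x.2 k → κ x ≤ k ∧ (U x.1 (κ x) ∨ U x.2 (κ x)) := fun x k h => by
    rw [hκ]
    exact ⟨Nat.sInf_le h, Nat.sInf_mem (s := {k | U x.1 k ∨ U x.2 k}) ⟨k, h⟩⟩
  have κ2 : ∀ x, Good N x → pp N x true ≤ t + 1 → pp N x false ≤ t + 1 →
      κ x < t ∧ (U x.1 (κ x) ∨ U x.2 (κ x)) := fun x hx h1 h2 => by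
    by_contra h3
    refine hc ⟨x, hx, fun b => by cases b <;> assumption, fun k hk => ?_⟩
    by_contra h4
    have h5 := κ1 x k (by rw [hU, hU]; omega)
    exact h3 ⟨by omega, h5.2⟩
  obtain ⟨x, hx, h⟩ := tucker N (by omega)
    (fun x => if pp N x true ≤ t + 1 ∧ pp N x false ≤ t + 1 then
      (if U x.1 (κ x) then N - 1 - κ x else N - 2 - κ x)
      else if pp N x false < pp N x true then N + 1 - pp N x true else N - pp N x false)
    (fun x y hx hy hxy => by
      have a1 := pp_anti (N := N) hxy true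
      have a2 := pp_anti (N := N) hxy false
      have a3 := pp_ne hx
      have a4 := pp_ne hy
      have a5 := pp_le N x true
      have a6 := pp_le N x false
      by_cases c2 : pp N y true ≤ t + 1 ∧ pp N y false ≤ t + 1
      · have b2 := κ2 y hy c2.1 c2.2
        rw [if_pos c2]
        by_cases c1 : pp N x true ≤ t + 1 ∧ pp N x false ≤ t + 1
        · have b1 := κ2 x hx c1.1 c1.2
          have b3 := κ1 y (κ x) (b1.2.imp (Um _ _ _ hxy.1) (Um _ _ _ hxy.2))
          rw [if_pos c1]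
          split_ifs with d1 d2
          · omega
          · have : κ y ≠ κ x := fun e => d2 (e ▸ Um _ _ _ hxy.1 d1)
            omega
          · omega
          · omega
        · rw [if_neg c1]
          split_ifs <;> omega
      · rw [if_neg c2, if_neg (by omega)]
        split_ifs <;> omega)
    (fun x hx => by
      have a3 := pp_ne hx
      have a5 := pp_le N x true
      have a6 := pp_le N x false
      simp only [pp_swap, κs, Bool.not_true, Bool.not_false, Prod.fst_swap]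
      by_cases c1 : pp N x true ≤ t + 1 ∧ pp N x false ≤ t + 1
      · have b1 := κ2 x hx c1.1 c1.2
        have b2 := Ud x hx (κ x)
        rw [if_pos c1, if_pos c1.symm]
        split_ifs with d1 d2 d2
        · exact absurd d2 (b2 d1)
        · omega
        · omega
        · exact absurd b1.2 (not_or.2 ⟨d1, d2⟩)
      · rw [if_neg c1, if_neg fun e : _ ∧ _ => c1 e.symm]
        split_ifs <;> omega)
  split_ifs at h <;> omega

/-- halving on a line -/
theorem line (N t B : ℕ) (w : ℕ → ℕ → ℕ) (hB : ∀ k i, w k i ≤ B) :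
    ∃ χ : ℕ → Bool, ch N χ ≤ t ∧ ∀ k < t, ∀ D,
      2 * ∑ i ∈ range N with χ i = D, w k i ≤ ∑ i ∈ range N, w k i + 2 * ((t + 1) * B) := by
  by_cases hN : t + 2 ≤ N
  · obtain ⟨x, hx, h1, h2⟩ := fair N t hN w
    have h3 := gr_ext hx.1
    have h4 := (le_pp (N := N) h3).trans (h1 _)
    have h5 := (gr_zero N x).trans h4
    refine ⟨gr x, by omega, fun k hk D => ?_⟩
    have h6 : ∑ i ∈ (range N).filter fun i => i ∉ x.1 ∧ i ∉ x.2, w k i ≤ (t + 1) * B :=
      (sum_le_card_nsmul _ _ B fun i _ => hB k i).trans (Nat.mul_le_mul_right B h5)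
    have h7 : ∀ A : Finset ℕ, (∀ i, gr x i = D → i ∈ x.1 ∨ i ∈ x.2 → i ∈ A) →
        ∑ i ∈ range N with gr x i = D, w k i ≤ ∑ i ∈ A, w k i + (t + 1) * B := fun A hA => by
      have a1 := sum_union_inter (s₁ := A) (s₂ := (range N).filter fun i => i ∉ x.1 ∧ i ∉ x.2)
        (f := w k)
      have a2 : ∑ i ∈ range N with gr x i = D, w k i ≤
          ∑ i ∈ A ∪ (range N).filter fun i => i ∉ x.1 ∧ i ∉ x.2, w k i := by
        refine sum_le_sum_of_subset fun i hi => ?_
        obtain ⟨b1, b2⟩ := mem_filter.1 hi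
        by_cases b3 : i ∈ x.1 ∨ i ∈ x.2
        · exact mem_union_left _ (hA i b2 b3)
        · exact mem_union_right _ (mem_filter.2 ⟨b1, not_or.1 b3⟩)
      omega
    have h8 := h2 k hk
    cases D
    · have := h7 x.2 fun i a b => b.resolve_left fun c => by simp [h3.1 i c] at a
      omega
    · have := h7 x.1 fun i a b => b.resolve_right fun c => by simp [h3.2 i c] at a
      omega
  · refine ⟨fun _ => true, by simp [ch], fun k _ D => ?_⟩
    have h1 : ∑ i ∈ range N with true = D, w k i ≤ (t + 1) * B :=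
      (sum_le_card_nsmul _ _ B fun i _ => hB k i).trans (Nat.mul_le_mul_right B
        ((card_filter_le _ _).trans (by rw [card_range]; omega)))
    beta_reduce
    omega

theorem exists_change (χ : ℕ → Bool) (a : ℕ) : ∀ k, χ a ≠ χ (a + k) →
    ∃ i < k, χ (a + i) ≠ χ (a + i + 1) := by
  intro k
  induction k with
  | zero => simp
  | succ k ih =>
    intro h
    by_cases e : χ a = χ (a + k)
    · exact ⟨k, by omega, e ▸ h⟩
    · obtain ⟨i, h1, h2⟩ := ih e
      exact ⟨i, by omega, h2⟩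

/-- halving along the cycles of a permutation -/
theorem halve {β : Type} [Fintype β] [DecidableEq β] (σ : Equiv.Perm β) (t B : ℕ)
    (w : ℕ → β → ℕ) (hB : ∀ k b, w k b ≤ B) :
    ∃ χ : β → Bool, (univ.filter fun b => χ (σ b) ≠ χ b).card ≤ 2 * t ∧ ∀ k < t, ∀ D,
      2 * ∑ b with χ b = D, w k b ≤ ∑ b, w k b + 2 * ((t + 1) * B) := by
  classical
  obtain ⟨Ω, _, k, e, he⟩ := UB.cyc β σ
  obtain ⟨M, hM⟩ : ∃ M, ∀ ω, k ω + 1 ≤ M :=
    ⟨univ.sup k + 1, fun ω => Nat.succ_le_succ (le_sup (f := k) (mem_univ ω))⟩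
  obtain ⟨ix⟩ : Nonempty (Ω ≃ Fin (Fintype.card Ω)) := ⟨Fintype.equivFin Ω⟩
  obtain ⟨pos, hpos⟩ : ∃ pos : β → ℕ, ∀ ω i, pos (e ⟨ω, i⟩) = (ix ω).val * M + i.val :=
    ⟨fun b => (ix (e.symm b).1).val * M + (e.symm b).2.val, fun ω i => by
      beta_reduce
      rw [Equiv.symm_apply_apply]⟩
  have hdiv : ∀ (ω : Ω) (i : ℕ), i < M → ((ix ω).val * M + i) / M = (ix ω).val := fun ω i hi => by
    rw [add_comm, Nat.add_mul_div_right _ _ (by omega), Nat.div_eq_of_lt hi, zero_add]
  have hlt : ∀ (ω : Ω) (i : ℕ), i < M → (ix ω).val * M + i < Fintype.card Ω * M := fun ω i hi => by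
    have := Nat.mul_le_mul_right M (Nat.succ_le_of_lt (ix ω).2)
    rw [Nat.succ_mul] at this
    omega
  have hω : ∀ (ω ω' : Ω) (i j : ℕ), i < M → j < M →
      (ix ω).val * M + i = (ix ω').val * M + j → ω = ω' := fun ω ω' i j hi hj h =>
    ix.injective (Fin.ext (by rw [← hdiv ω i hi, h, hdiv ω' j hj]))
  have hinj : Function.Injective pos := by
    intro b b' h
    obtain ⟨⟨ω, i⟩, rfl⟩ := e.surjective b
    obtain ⟨⟨ω', j⟩, rfl⟩ := e.surjective b'
    rw [hpos, hpos] at h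
    obtain rfl := hω ω ω' _ _ (i.2.trans_le (hM ω)) (j.2.trans_le (hM ω')) h
    rw [Fin.ext (show i.val = j.val by omega)]
  have hN : ∀ b, pos b ∈ range (Fintype.card Ω * M) := fun b => by
    obtain ⟨⟨ω, i⟩, rfl⟩ := e.surjective b
    rw [hpos]
    exact mem_range.2 (hlt ω _ (i.2.trans_le (hM ω)))
  obtain ⟨χ, h1, h2⟩ := line (Fintype.card Ω * M) t B (fun k j => ∑ b with pos b = j, w k b)
    fun k j => (sum_le_card_nsmul _ _ B fun b _ => hB k b).trans (by
      rw [smul_eq_mul]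
      refine (Nat.mul_le_mul_right B (card_le_one.2 fun a ha b hb => hinj ?_)).trans (by omega)
      rw [(mem_filter.1 ha).2, (mem_filter.1 hb).2])
  refine ⟨fun b => χ (pos b), ?_, fun k hk D => ?_⟩
  · have hj : ∀ b, ∃ j : ℕ, χ (pos (σ b)) ≠ χ (pos b) → ∃ ω, ∃ i : Fin (k ω + 1), b = e ⟨ω, i⟩ ∧
        ∃ r < k ω, j = (ix ω).val * M + r ∧ χ j ≠ χ (j + 1) ∧ (i.val < k ω → r = i.val) := by
      intro b
      obtain ⟨⟨ω, i⟩, rfl⟩ := e.surjective b
      by_cases h : χ (pos (σ (e ⟨ω, i⟩))) ≠ χ (pos (e ⟨ω, i⟩))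
      swap
      · exact ⟨0, fun h' => absurd h' h⟩
      rw [he, hpos, hpos, Fin.val_add_one] at h
      split_ifs at h with c
      · subst c
        obtain ⟨r, r1, r2⟩ := exists_change χ ((ix ω).val * M) (k ω) h
        exact ⟨_, fun _ => ⟨ω, _, rfl, r, r1, rfl, r2, fun c => absurd c (lt_irrefl _)⟩⟩
      · exact ⟨_, fun _ => ⟨ω, i, rfl, i.val, Fin.val_lt_last c, rfl, h.symm, fun _ => rfl⟩⟩
    choose j hj using hj
    have hc : (((range (Fintype.card Ω * M - 1)).filter fun i => χ i ≠ χ (i + 1)) ×ˢ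
        (univ : Finset Bool)).card ≤ 2 * t := by
      rw [card_product, card_univ, Fintype.card_bool]
      unfold ch at h1
      omega
    refine le_trans (card_le_card_of_injOn (fun b => (j b, decide (j b = pos b)))
      (fun b hb => ?_) fun b hb b' hb' h => ?_) hc
    · obtain ⟨ω, i, -, r, r1, r2, r3, -⟩ := hj b (mem_filter.1 hb).2
      have := hlt ω (r + 1) (by have := hM ω; omega)
      exact mem_coe.2 (mem_product.2 ⟨mem_filter.2 ⟨mem_range.2 (by simp only; omega), r3⟩,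
        mem_univ _⟩)
    · obtain ⟨ω, i, rfl, r, r1, r2, -, r4⟩ := hj b (mem_filter.1 hb).2
      obtain ⟨ω', i', rfl, r', r1', r2', -, r4'⟩ := hj b' (mem_filter.1 hb').2
      obtain ⟨e1, e2⟩ := Prod.mk.inj h
      obtain rfl := hω ω ω' r r' (by have := hM ω; omega) (by have := hM ω'; omega)
        (r2.symm.trans (e1.trans r2'))
      rw [hpos, hpos, decide_eq_decide] at e2
      have := i.2
      have := i'.2
      rw [Fin.ext (show i.val = i'.val by omega)]
  · have h3 := h2 k hk D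
    rw [sum_fiberwise_of_maps_to (fun b _ => hN b), sum_fiberwise_eq_sum_filter] at h3
    refine le_trans (le_of_eq ?_) h3
    congr 2
    ext b
    simp [mem_range.1 (hN b)]

end Pool.Agent.Lib.MP_453ac3_co.Neck
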