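import Pool.Agent.Lib.MP_453ac3_co.Eff.Gain
import Pool.Agent.Lib.MP_453ac3_co.Eff.Neck

/-! Constant slack suffices. -/

namespace Pool.Agent.Lib.MP_453ac3_co.UB

open Finset GainJ

namespace SlackJ

theorem split (lam : Fin 9 → ℤ) (h : ∀ i, 0 ≤ lam i) :
    ∃ (l : Bool → Fin 3) (μ : Bool → ℤ) (lam' : Fin 9 → ℤ), (∀ X, 0 ≤ μ X) ∧ (∀ i, 0 ≤ lam' i) ∧
      (∀ X, lam' (spk X (l X)) = 0) ∧ ∀ Y : Fin 9 → ℤ, ∑ i, lam i * Y i = ∑ i, lam' i * Y i +
        μ false * ∑ a, Y (spk false a) + μ true * ∑ a, Y (spk true a) := by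
  choose l hl using fun X => exists_min_image univ (fun a => lam (spk X a)) univ_nonempty
  have k : ∀ X a, lam (spk X (l X)) ≤ lam (spk X a) := fun X a => (hl X).2 a (mem_univ _)
  have e0 : ∀ a, (spk false a).val < 3 := by decide
  have e1 : ∀ a, ¬ (spk true a).val < 3 ∧ (spk true a).val < 6 := by decide
  have e2 : ∀ i : Fin 9, (i.val < 3 → ∃ a, i = spk false a) ∧
      (¬ i.val < 3 → i.val < 6 → ∃ a, i = spk true a) := by decide
  refine ⟨l, fun X => lam (spk X (l X)), fun i => lam i - if i.val < 3 then lam (spk false (l false))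
    else if i.val < 6 then lam (spk true (l true)) else 0, fun X => h _, fun i => ?_, fun X => ?_,
    fun Y => ?_⟩
  · beta_reduce
    split_ifs with c1 c2
    · obtain ⟨a, rfl⟩ := (e2 i).1 c1
      exact sub_nonneg.2 (k _ _)
    · obtain ⟨a, rfl⟩ := (e2 i).2 c1 c2
      exact sub_nonneg.2 (k _ _)
    · simpa using h i
  · beta_reduce
    cases X
    · rw [if_pos (e0 _), sub_self]
    · rw [if_neg (e1 _).1, if_pos (e1 _).2, sub_self]
  · beta_reduce
    generalize lam (spk false (l false)) = p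
    generalize lam (spk true (l true)) = q
    simp [Fin.sum_univ_succ, spk]
    ring

theorem six_eq (lam : Fin 9 → ℤ) (T : ℤ) :
    T * six lam = ∑ i, lam i * if i.val < 6 then T else 0 := by
  simp [Fin.sum_univ_succ, six]
  ring

theorem tsum : ∀ (k : Fin 3) (m h : ℤ),
    ∑ a : Fin 3, (if a = k then m - 2 * h else m + h) = 3 * m := by
  intro k m h
  fin_cases k <;> simp [Fin.sum_univ_succ] <;> ring

theorem spk_inj2 : ∀ X a X' a', spk X a = spk X' a' → X = X' ∧ a = a' := by decide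

theorem near {β : Type} [Fintype β] [DecidableEq β] (f g : β → ℤ) (J : Finset β)
    (hf : ∀ b, |f b| ≤ 1) (hg : ∀ b, |g b| ≤ 1) (h : ∀ b ∉ J, f b = g b) :
    ∑ b, f b - 2 * J.card ≤ ∑ b, g b := by
  have h1 : ∑ b, (f b - g b) ≤ ∑ b, if b ∈ J then 2 else 0 :=
    sum_le_sum fun b _ => by
      have a1 := abs_le.1 (hf b)
      have a2 := abs_le.1 (hg b)
      split_ifs with c
      · omega
      · rw [h b c, sub_self]
  rw [sum_sub_distrib, sum_ite_mem, univ_inter, sum_const, nsmul_eq_mul] at h1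
  linarith

variable {β : Type} [DecidableEq β] [Fintype β] (I : Inst β)

/-- prescribed orientations on `K` -/
def Cst (K : Finset β) (ov : β → Bool) (s : β → Dc) : Prop := ∀ b ∈ K, (s b).1 = ov b

theorem mid {K : Finset β} {ov : β → Bool} {s s' : β → Dc} (hs : Cst K ov s) (hs' : Cst K ov s') :
    ∃ u, Cst K ov u ∧ ∀ i, I.y s i + I.y s' i ≤ 2 * I.y u i + 2 * 172 := by
  obtain ⟨d, hd⟩ : ∃ d : Fin 9 → β → ℤ, ∀ i b,
      d i b = I.sup b (s b) (s (I.σ b)) i - I.sup b (s' b) (s' (I.σ b)) i := ⟨_, fun _ _ => rfl⟩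
  have bd : ∀ i b, -2 ≤ d i b ∧ d i b ≤ 2 := fun i b => by
    have a1 := abs_le.1 (bas.bound β I b (s b) (s (I.σ b)) i)
    have a2 := abs_le.1 (bas.bound β I b (s' b) (s' (I.σ b)) i)
    rw [hd]
    omega
  obtain ⟨χ, c1, c2⟩ := Neck.halve I.σ 10 4
    (fun k b => if h : k < 9 then (d ⟨k, h⟩ b + 2).toNat else 1) fun k b => by
      split_ifs with h
      · have := bd ⟨k, h⟩ b
        omega
      · omega
  refine ⟨fun b => if χ b = true then s b else s' b, fun b hb => ?_, fun i => ?_⟩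
  · beta_reduce
    split_ifs
    exacts [hs b hb, hs' b hb]
  have k1 := c2 i.val (by omega) false
  have k2 := c2 9 (by omega) true
  simp only [dif_pos i.2, Fin.eta] at k1
  simp only [lt_irrefl, dif_neg, not_false_eq_true, sum_const, smul_eq_mul, mul_one, card_univ] at k2
  have k3 : ∀ S : Finset β, ((∑ b ∈ S, (d i b + 2).toNat : ℕ) : ℤ) = ∑ b ∈ S, d i b + 2 * S.card := by
    intro S
    rw [Nat.cast_sum, sum_congr rfl fun b _ => Int.toNat_of_nonneg (by linarith [(bd i b).1]),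
      sum_add_distrib, sum_const, nsmul_eq_mul, mul_comm]
  have k4 := k3 (univ.filter fun b => χ b = false)
  have k5 := k3 univ
  have k6 := card_filter_add_card_filter_not (s := univ) fun b => χ b = true
  simp only [Bool.not_eq_true, card_univ] at k5 k6
  have k7 := near (fun b => if χ b = true then I.sup b (s b) (s (I.σ b)) i
      else I.sup b (s' b) (s' (I.σ b)) i)
    (fun b => I.sup b (if χ b = true then s b else s' b)
      (if χ (I.σ b) = true then s (I.σ b) else s' (I.σ b)) i)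
    (univ.filter fun b => χ (I.σ b) ≠ χ b)
    (fun b => by split_ifs <;> exact bas.bound β I _ _ _ _) (fun b => bas.bound β I _ _ _ _)
    fun b hb => by
      simp only [mem_filter, mem_univ, true_and, ne_eq, not_not] at hb
      rw [hb]
      split_ifs <;> rfl
  have k8 : ∑ b, (if χ b = true then I.sup b (s b) (s (I.σ b)) i
      else I.sup b (s' b) (s' (I.σ b)) i) = I.y s i - ∑ b with χ b = false, d i b := by
    rw [Inst.y, sum_filter, ← sum_sub_distrib]
    refine sum_congr rfl fun b _ => ?_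
    cases χ b <;> simp [hd]
  have k9 : ∑ b, d i b = I.y s i - I.y s' i := by
    simp only [hd, sum_sub_distrib, Inst.y]
  rw [k8] at k7
  have k10 : I.y (fun b => if χ b = true then s b else s' b) i =
      ∑ b, I.sup b (if χ b = true then s b else s' b)
        (if χ (I.σ b) = true then s (I.σ b) else s' (I.σ b)) i := rfl
  rw [k10]
  omega

theorem iter (P : (β → Dc) → Prop) (r : ℤ)
    (hP : ∀ s, P s → I.ex s < r → ∃ s', Gn I s s' ∧ P s') (n : ℕ) : ∀ s, P s → r ≤ I.ex s + n →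
    ∃ s', P s' ∧ r ≤ I.ex s' ∧ ∀ i, I.y s i - 18 * n ≤ I.y s' i := by
  induction n with
  | zero => exact fun s h1 h2 => ⟨s, h1, by omega, fun i => by omega⟩
  | succ n ih =>
    intro s h1 h2
    by_cases c : I.ex s < r
    · obtain ⟨s1, ⟨a1, a2⟩, a3⟩ := hP s h1 c
      obtain ⟨s2, b1, b2, b3⟩ := ih s1 a3 (by omega)
      refine ⟨s2, b1, b2, fun i => ?_⟩
      have := a2 i
      have := b3 i
      omega
    · exact ⟨s, h1, by omega, fun i => by omega⟩

theorem gainTo (hb : BalStmt) {K : Finset β} {ov : β → Bool} (r u : ℕ)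
    (hP : ∀ s, Cst K ov s → I.ex s < r → ∃ s', Gn I s s' ∧ Cst K ov s') (s : β → Dc)
    (hs : Cst K ov s) (ht : ∀ l, -(u : ℤ) ≤ I.y s (tc l)) :
    ∃ s', Cst K ov s' ∧ (r : ℤ) ≤ I.ex s' ∧ (∀ l, 0 ≤ I.y s' (tc l)) ∧
      ∀ i, I.y s i - (72 * r + 219 * u) ≤ I.y s' i := by
  obtain ⟨s1, a1, a2, a3⟩ := iter I (Cst K ov) r hP (r + 3 * u) s hs (by
    have := ht 0
    have := ht 1
    have := ht 2
    unfold Inst.ex
    omega)
  obtain ⟨s2, b1, b2, b3, b4⟩ := hb β I (18 * r + 55 * u) s1 (fun l => by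
    have := ht l
    have := a3 (tc l)
    omega) (by omega)
  refine ⟨s2, fun b hb => (b1 b).trans (a1 b hb), by omega, b3, fun i => ?_⟩
  have := a3 i
  have := b4 i
  omega

theorem rep (hb : BalStmt) {K : Finset β} {ov : β → Bool}
    (hK : ∀ b ∈ K, (I.c b).val < 6 → ov b = true) (u : ℕ) (s : β → Dc)
    (hs : Cst K ov s) (ht : ∀ l, -(u : ℤ) ≤ I.y s (tc l)) :
    ∃ s', Cst K ov s' ∧ (∀ l, 0 ≤ I.y s' (tc l)) ∧ ∀ i, I.y s i - 219 * u ≤ I.y s' i := by
  obtain ⟨s', a1, -, a2, a3⟩ := gainTo I hb 0 u (fun s h1 h2 => by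
    obtain ⟨s', k1, k2⟩ := gain0 I s (by omega)
    refine ⟨s', k1, fun b hb => ?_⟩
    rcases k2 b with k | k
    · exact k.trans (h1 b hb)
    · exact k.2.trans (hK b hb k.1).symm) s hs ht
  refine ⟨s', a1, a2, fun i => ?_⟩
  have := a3 i
  omega

theorem first (hh : HullStmt) {m e : ℕ} (hI : I.Ok m e) (he : m + 10 ^ 14 ≤ e)
    (l : Bool → Fin 3) : ∃ s, I.Fix s ∧ (∀ a, -3450 ≤ I.y s (tc a)) ∧
      ∀ X a, a ≠ l X → (m : ℤ) + 2 * 10 ^ 11 - 3450 ≤ I.y s (spk X a) := by
  obtain ⟨T, t1, t2, t3⟩ : ∃ T : Fin 9 → ℤ, (∀ a, T (tc a) = 0) ∧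
      (∀ X a, T (spk X a) = if a = l X then (m : ℤ) - 2 * (2 * 10 ^ 11) else (m : ℤ) + 2 * 10 ^ 11) ∧
      ∀ i, T i ≤ if i.val < 6 then (m : ℤ) + 2 * 10 ^ 11 else 0 := by
    refine ⟨fun i => if i.val < 6 then (if ∃ X, i = spk X (l X) then (m : ℤ) - 2 * (2 * 10 ^ 11)
      else (m : ℤ) + 2 * 10 ^ 11) else 0, fun a => if_neg (not_lt.2 (AdjJ.tc_ge a)), fun X a => ?_,
      fun i => ?_⟩
    · beta_reduce
      rw [if_pos (AdjJ.spk_lt X a)]
      refine if_congr ⟨?_, fun h => ⟨X, h ▸ rfl⟩⟩ rfl rfl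
      rintro ⟨X', h⟩
      obtain ⟨rfl, h⟩ := spk_inj2 _ _ _ _ h
      exact h
    · beta_reduce
      split_ifs <;> omega
  obtain ⟨s, h1, h2⟩ := hh (β → Dc) (Fin 9) {s | I.Fix s} I.y T 172
    (fun s hs s' hs' => mid I (K := I.fx) (ov := I.o0) hs hs') fun lam hl => by
      obtain ⟨k, μ, lam', a1, a2, a3, a4⟩ := split lam hl
      obtain ⟨s, b1, b2⟩ := dcAll β I m e hI univ 0 lam' a2 (fun X => ⟨_, a3 X⟩)
        fun l hl => absurd (mem_univ l) hl
      refine ⟨s, b1.1, ?_⟩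
      rw [a4 T, a4 (I.y s)]
      simp only [t2, tsum]
      have c1 := mul_le_mul_of_nonneg_left (bas.three β I m e hI s false) (a1 false)
      have c2 := mul_le_mul_of_nonneg_left (bas.three β I m e hI s true) (a1 true)
      have c3 : ∑ i, lam' i * T i ≤ (m + 2 * 10 ^ 11) * six lam' := by
        rw [six_eq]
        exact sum_le_sum fun i _ => mul_le_mul_of_nonneg_left (t3 i) (a2 i)
      have c4 : 0 ≤ six lam' := by
        unfold six
        linarith [a2 0, a2 1, a2 2, a2 3, a2 4, a2 5]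
      have c5 := mul_le_mul_of_nonneg_right
        (show (50 * (m + 2 * 10 ^ 11) : ℤ) ≤ 49 * m + e - 50 * (0 : ℕ) - 1000 by omega) c4
      linarith
  rw [Fintype.card_fin] at h2
  refine ⟨s, h1, fun a => ?_, fun X a ha => ?_⟩
  · have := h2 (tc a)
    rw [t1] at this
    omega
  · have := h2 (spk X a)
    rw [t2, if_neg ha] at this
    omega

theorem second (hh : HullStmt) (hb : BalStmt) {K : Finset β} {ov : β → Bool}
    (hK : ∀ b ∈ K, (I.c b).val < 6 → ov b = true) (T : ℤ)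
    (h : ∀ l : Bool → Fin 3, ∃ s, Cst K ov s ∧ (∀ a, 0 ≤ I.y s (tc a)) ∧
      (∀ X a, a ≠ l X → T ≤ I.y s (spk X a)) ∧ ∀ X, 3 * T ≤ ∑ a, I.y s (spk X a)) :
    ∃ s, Cst K ov s ∧ (∀ a, 0 ≤ I.y s (tc a)) ∧ ∀ i : Fin 9, i.val < 6 → T - 800010 ≤ I.y s i := by
  obtain ⟨s, h1, h2⟩ := hh (β → Dc) (Fin 9) {s | Cst K ov s ∧ ∀ a, 0 ≤ I.y s (tc a)} I.y
    (fun i => if i.val < 6 then T else 0) 40000
    (fun s hs s' hs' => by
      obtain ⟨u, a1, a2⟩ := mid I hs.1 hs'.1
      obtain ⟨u', b1, b2, b3⟩ := rep I hb hK 172 u a1 fun a => by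
        have := a2 (tc a)
        have := hs.2 a
        have := hs'.2 a
        omega
      refine ⟨u', ⟨b1, b2⟩, fun i => ?_⟩
      have := a2 i
      have := b3 i
      omega) fun lam hl => by
      obtain ⟨k, μ, lam', a1, a2, a3, a4⟩ := split lam hl
      obtain ⟨s, b1, b2, b3, b4⟩ := h k
      refine ⟨s, ⟨b1, b2⟩, ?_⟩
      rw [a4, a4 (I.y s)]
      simp only [if_pos (AdjJ.spk_lt _ _), sum_const, card_univ, Fintype.card_fin, nsmul_eq_mul,
        Nat.cast_ofNat]
      have c1 := mul_le_mul_of_nonneg_left (b4 false) (a1 false)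
      have c2 := mul_le_mul_of_nonneg_left (b4 true) (a1 true)
      have c3 : ∑ i, lam' i * (if i.val < 6 then T else 0) ≤ ∑ i, lam' i * I.y s i :=
        sum_le_sum fun i _ => by
          rcases AdjJ.kinds i with ⟨c, X, a, rfl⟩ | ⟨c, a, rfl⟩
          · rw [if_pos c]
            by_cases d : a = k X
            · rw [d, a3, zero_mul, zero_mul]
            · exact mul_le_mul_of_nonneg_left (b3 X a d) (a2 _)
          · rw [if_neg c]
            exact mul_le_mul_of_nonneg_left (b2 a) (a2 _)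
      linarith
  rw [Fintype.card_fin] at h2
  refine ⟨s, h1.1, h1.2, fun i hi => ?_⟩
  have := h2 i
  simp only [if_pos hi] at this
  omega

theorem loops (hh : HullStmt) (hb : BalStmt) (ha : AllocStmt) {m e : ℕ} (hI : I.Ok m e)
    (he : m + 10 ^ 14 ≤ e) (hC : 8 * 4800060 ≤ (univ.filter fun g => I.Cand g).card) :
    ∃ s, I.Good m s := by
  obtain ⟨s, a1, a2, a3⟩ := second I hh hb (K := I.fx) (ov := I.o0)
    (fun b h1 h2 => absurd (hI.fxE b h1) (not_le.2 h2)) (m + 800010) fun l => by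
      obtain ⟨s0, b1, b2, b3⟩ := first I hh hI he l
      obtain ⟨s1, c1, c2, c3, c4⟩ := gainTo I hb (K := I.fx) (ov := I.o0) 4800060 3450
        (fun s h1 h2 => gain1 I hI.fxE s h1 4800060 h2 hC) s0 b1 b2
      obtain ⟨s2, d1, d2, d3, d4, d5⟩ := ha β I false 2400030 s1 c3 (by omega)
      obtain ⟨s3, e1, e2, e3, e4, e5⟩ := ha β I true 2400030 s2 d3 (by omega)
      refine ⟨s3, fun b h => (e1 b).trans ((d1 b).trans (c1 b h)), e3, fun X a h => ?_, fun X => ?_⟩
      · have := b3 X a h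
        have := c4 (spk X a)
        have := d4 _ (AdjJ.spk_lt X a)
        have := e4 _ (AdjJ.spk_lt X a)
        omega
      · cases X
        · have := bas.three β I m e hI s1 false
          have : ∑ a, I.y s2 (spk false a) ≤ ∑ a, I.y s3 (spk false a) :=
            sum_le_sum fun a _ => e4 _ (AdjJ.spk_lt _ a)
          omega
        · have := bas.three β I m e hI s2 true
          omega
  refine ⟨s, a1, fun i => ?_⟩
  rcases AdjJ.kinds i with ⟨c, -⟩ | ⟨c, a, rfl⟩
  · have := a3 i c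
    rw [if_pos c]
    omega
  · rw [if_neg c]
    exact a2 a

theorem adjs (hh : HullStmt) (hb : BalStmt) (hf : Fin2Stmt) {m e : ℕ} (hI : I.Ok m e)
    (he : m + 10 ^ 14 ≤ e)
    (hA : ∀ X a, 2 * 4800060 ≤ (univ.filter fun b => I.IsAdj X a b).card) : ∃ s, I.Good m s := by
  have h0 : ∀ p : Bool × Fin 3, ∃ R : Bool → Finset β, (∀ D, (R D).card = 4800060 ∧
      ∀ b ∈ R D, I.IsAdj p.1 p.2 b) ∧ ∀ b ∈ R false, b ∉ R true := fun p => by
    obtain ⟨R1, a1, a2⟩ := exists_subset_card_eq (s := univ.filter fun b => I.IsAdj p.1 p.2 b)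
      (n := 4800060) (by have := hA p.1 p.2; omega)
    obtain ⟨R0, b1, b2⟩ := exists_subset_card_eq
      (s := (univ.filter fun b => I.IsAdj p.1 p.2 b) \ R1) (n := 4800060) (by
        have := hA p.1 p.2
        have := le_card_sdiff R1 (univ.filter fun b => I.IsAdj p.1 p.2 b)
        omega)
    refine ⟨fun D => if D then R1 else R0, fun D => ?_, fun b h => (mem_sdiff.1 (b1 h)).2⟩
    cases D
    · exact ⟨b2, fun b h => (mem_filter.1 (mem_sdiff.1 (b1 h)).1).2⟩
    · exact ⟨a2, fun b h => (mem_filter.1 (a1 h)).2⟩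
  choose R r1 r2 using h0
  obtain ⟨U, u1, u2⟩ : ∃ U : Finset β, U.card ≤ 12 * 4800060 ∧ ∀ p D, R p D ⊆ U :=
    ⟨univ.biUnion fun t : (Bool × Fin 3) × Bool => R t.1 t.2,
      card_biUnion_le.trans (by simp [fun p D => (r1 p D).1]),
      fun p D => subset_biUnion_of_mem (fun t : (Bool × Fin 3) × Bool => R t.1 t.2)
        (mem_univ (p, D))⟩
  obtain ⟨K, k1, k2, k3⟩ : ∃ K : Finset β, K.card ≤ 3 + 36 * 4800060 ∧ I.fx ⊆ K ∧
      ∀ b ∈ U, b ∈ K ∧ I.σ b ∈ K ∧ I.σ (I.σ b) ∈ K := by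
    refine ⟨I.fx ∪ U ∪ U.image I.σ ∪ (U.image I.σ).image I.σ, ?_, fun b h => by simp [h],
      fun b h => ⟨by simp [h], ?_, ?_⟩⟩
    · have := card_union_le (I.fx ∪ U ∪ U.image I.σ) ((U.image I.σ).image I.σ)
      have := card_union_le (I.fx ∪ U) (U.image I.σ)
      have := card_union_le I.fx U
      have := card_image_le (s := U) (f := I.σ)
      have := card_image_le (s := U.image I.σ) (f := I.σ)
      have := hI.fx3
      omega
    · exact mem_union_left _ (mem_union_right _ (mem_image_of_mem _ h))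
    · exact mem_union_right _ (mem_image_of_mem _ (mem_image_of_mem _ h))
  obtain ⟨ov, o1, o2, o3⟩ : ∃ ov : β → Bool, (∀ b ∈ I.fx, ov b = I.o0 b) ∧
      (∀ b, (I.c b).val < 6 → ov b = true) ∧ ∀ p D, ∀ b ∈ R p D, ov (I.σ b) = D := by
    refine ⟨fun x => if x ∈ I.fx then I.o0 x else if (I.c x).val < 6 then true
      else decide (∃ p, I.σ⁻¹ x ∈ R p true), fun b h => if_pos h, fun b h => ?_, fun p D b h => ?_⟩
    · simp only [if_neg fun c => absurd (hI.fxE b c) (not_le.2 h), if_pos h]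
    · have a := (r1 p D).2 b h
      simp only [if_neg a.2.2.2.1, a.2.2.1, if_neg (not_lt.2 (AdjJ.tc_ge _)), ias]
      cases D
      · refine decide_eq_false ?_
        rintro ⟨q, hq⟩
        obtain ⟨e1, e2⟩ := spk_inj2 _ _ _ _ (a.2.2.2.2.symm.trans ((r1 q true).2 b hq).2.2.2.2)
        exact r2 p b h (Prod.ext e1 e2 ▸ hq)
      · exact decide_eq_true ⟨p, h⟩
  obtain ⟨s, a1, a2, a3⟩ := second I hh hb (K := K) (ov := ov) (fun b _ => o2 b) m fun l => by
    obtain ⟨s0, -, b2, b3⟩ := first I hh hI he l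
    have c1 : ∀ i, I.y s0 i - 691208652 ≤
        I.y (fun b => if b ∈ K then (ov b, (s0 b).2) else s0 b) i := fun i => by
      have d1 := near (fun b => I.sup b (s0 b) (s0 (I.σ b)) i)
        (fun b => I.sup b (if b ∈ K then (ov b, (s0 b).2) else s0 b)
          (if I.σ b ∈ K then (ov (I.σ b), (s0 (I.σ b)).2) else s0 (I.σ b)) i)
        (K ∪ univ.filter fun b => I.σ b ∈ K) (fun b => bas.bound β I _ _ _ _)
        (fun b => bas.bound β I _ _ _ _) fun b h => by
          simp only [mem_union, mem_filter, mem_univ, true_and, not_or] at h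
          rw [if_neg h.1, if_neg h.2]
      have d2 := card_union_le K (univ.filter fun b => I.σ b ∈ K)
      rw [AdjJ.pre] at d2
      exact le_trans (by unfold Inst.y; omega) d1
    obtain ⟨s2, e1, e2, e3⟩ := rep I hb (K := K) (ov := ov) (fun b _ => o2 b) 700000000
      (fun b => if b ∈ K then (ov b, (s0 b).2) else s0 b) (fun b h => by simp only [if_pos h])
      fun a => by
        have := c1 (tc a)
        have := b2 a
        omega
    refine ⟨s2, e1, e2, fun X a h => ?_, bas.three β I m e hI s2⟩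
    have := b3 X a h
    have := c1 (spk X a)
    have := e3 (spk X a)
    omega
  refine hf β I m e hI s (fun b h => (a1 b (k2 h)).trans (o1 b h)) a2 fun t => ?_
  have z1 : six (fun i => max (m - I.y s i) 0) ≤ 4800060 := by
    have := a3 0 (by decide)
    have := a3 1 (by decide)
    have := a3 2 (by decide)
    have := a3 3 (by decide)
    have := a3 4 (by decide)
    have := a3 5 (by decide)
    simp only [six]
    omega
  have z2 : ∑ b ∈ R (t.1, t.2.1) t.2.2, I.rdy b (s b) (s (I.σ b)) (s (I.σ (I.σ b))) t ≤ I.z s t :=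
    sum_le_sum_of_subset_of_nonneg (subset_univ _) fun b _ _ => by
      unfold Inst.rdy
      split_ifs <;> norm_num
  rw [sum_congr rfl (g := fun _ => 1) fun b h => by
    have a := (r1 _ _).2 b h
    obtain ⟨p1, p2, p3⟩ := k3 b (u2 _ _ h)
    exact if_pos ⟨a, (a1 _ p1).trans (o2 _ a.1), (a1 _ p2).trans (o3 _ _ b h),
      (a1 _ p3).trans (o2 _ (a.2.2.2.2 ▸ AdjJ.spk_lt _ _))⟩, sum_const, (r1 _ _).1] at z2
  simp only [nsmul_eq_mul, mul_one, Nat.cast_ofNat] at z2
  exact z1.trans z2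

end SlackJ

open SlackJ in
theorem slack (hh : HullStmt) (hb : BalStmt) (ha : AllocStmt) (hf : Fin2Stmt) (hr : RevStmt)
    (hc : CountStmt) : SlackStmt := by
  intro β _ _ I m e hI he
  by_cases c1 : 8 * 4800060 ≤ (univ.filter fun g => I.Cand g).card
  · exact loops I hh hb ha hI he c1
  by_cases c2 : 8 * 4800060 ≤ (univ.filter fun g => I.rev.Cand g).card
  · obtain ⟨s, hs⟩ := loops I.rev hh hb ha ((hr β I m e).1 hI) he c2
    exact (hr β I m e).2 s hs
  refine adjs I hh hb hf hI he fun X a => ?_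
  have := hc β I m e hI X a
  omega

end Pool.Agent.Lib.MP_453ac3_co.UB
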