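import Pool.Agent.Lib.MP_453ac3_co.Both
import Pool.Agent.Lib.MP_453ac3_co.Eff.LC3
import Pool.Agent.Lib.MP_453ac3_co.Eff.Hull
import Pool.Agent.Lib.MP_453ac3_co.Eff.Fix
import Pool.Agent.Lib.MP_453ac3_co.Eff.Rev
import Pool.Agent.Lib.MP_453ac3_co.Eff.Slack

/-! Both bounds with a constant error term. -/

namespace Pool.Agent.Lib.MP_453ac3_co

theorem bounded_error : ∃ (C : ℝ) (n0 : ℕ), ∀ n ≥ n0, |(deltaMin n : ℝ) - 4 / 9 * n| ≤ C := by
  classical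
  obtain ⟨n0, C0, h0⟩ := LB.lowerConst
  obtain ⟨n1, C1, h1⟩ := UB.ubConst (UB.slack UB.hull UB.bal UB.alloc UB.fin2 UB.revs UB.counts)
  refine ⟨C0 + C1, n0 + n1 + 1, fun n hn => ?_⟩
  have : Nonempty (Fin n) := ⟨⟨0, by omega⟩⟩
  have deg : ∀ (G : SimpleGraph (Fin n)) (v : Fin n), (G.neighborSet v).ncard = G.degree v := by
    intro G v
    rw [← SimpleGraph.card_neighborFinset_eq_degree, ← Set.ncard_coe_finset]
    simp
  obtain ⟨G, hp, hpp, hd⟩ := h1 n (by omega)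
  obtain ⟨G', hp', hpp', he⟩ := Nat.sInf_mem (s := {d : ℕ | ∃ G : SimpleGraph (Fin n),
    IsPlanar G ∧ PathPairable G ∧ G.maxDegree = d}) ⟨_, G, hp, hpp, rfl⟩
  obtain ⟨v, hv⟩ := h0 (Fin n) G' (by simp; omega) hp' hpp'
  rw [LB.dg_eq_ncard, deg, Fintype.card_fin] at hv
  have h2 : G'.degree v ≤ deltaMin n := (G'.degree_le_maxDegree v).trans he.le
  have h3 : 4 * n ≤ 9 * deltaMin n + C0 :=
    hv.trans (Nat.add_le_add_right (Nat.mul_le_mul_left 9 h2) _)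
  have h4 : deltaMin n ≤ G.maxDegree := Nat.sInf_le ⟨G, hp, hpp, rfl⟩
  obtain ⟨w, hw⟩ := G.exists_maximal_degree_vertex
  have h5 := hd w
  rw [deg, ← hw] at h5
  have h6 : 9 * deltaMin n ≤ 4 * n + C1 := (Nat.mul_le_mul_left 9 h4).trans h5
  have h7 : (4 : ℝ) * n ≤ 9 * deltaMin n + C0 := by exact_mod_cast h3
  have h8 : (9 : ℝ) * deltaMin n ≤ 4 * n + C1 := by exact_mod_cast h6
  have h9 : (0 : ℝ) ≤ C0 := Nat.cast_nonneg _
  have h10 : (0 : ℝ) ≤ C1 := Nat.cast_nonneg _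
  rw [abs_le]
  constructor <;> linarith

end Pool.Agent.Lib.MP_453ac3_co
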