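import Pool.Agent.Lib.MP_453ac3_co.LB.Main

/-! Five hubs see almost all vertices twice (the proofs of `LB/AM` and `LB/Fin`, stopped at the
classification of the hub graph). -/

namespace Pool.Agent.Lib.MP_453ac3_co.LB

open Finset

namespace AM

variable {W ι : Type} {S : Finset ι} {τ : ι → Sym2 W}

theorem core5 [Fintype W] (h1 : MLXStmt) (hT : TriStmt) (hB : BadStmt) (hC : ClassStmt)
    (hO : OctaStmt) {E Δ μ : ℕ} (hML : ML S τ E)
    (hnd : ∀ i ∈ S, ¬ (τ i).IsDiag) (hK5 : NoK5 S τ) (hK33 : NoK33 S τ)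
    (hst : ∀ u, star S τ u ≤ Δ) (hΔ : 20 * Δ ≤ 9 * S.card)
    (T : Finset (Sym2 W)) (hTc : T.card ≤ 2500) (hT' : ∀ i ∈ S, τ i ∈ T)
    (hμ : ∀ i ∈ S, μ ≤ num S fun j => τ j = τ i) (hμ1 : 80 * μ ≤ S.card)
    (hμ2 : E + 320000 < 16 * μ) (hE : 60 * (E + 33) ≤ S.card) :
    ∃ η : Fin 5 → W, Function.Injective η ∧ ∀ i ∈ S, ∀ a ∈ τ i, ∃ k, a = η k := by
  classical
  have hst' : ∀ u, 20 * star S τ u ≤ 9 * S.card := fun u => by
    have := hst u
    omega
  have htri := hT W ι S τ E hML hnd hst' (by omega) (by omega)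
  obtain ⟨sp, e2, e3⟩ := spread id id (fun _ => rfl) (fun _ _ _ _ => rfl) hnd T hTc hT' hst' htri
    (by omega) _ rfl
  have big : ∀ a b, (∃ k ∈ S, τ k = s(a, b)) → μ ≤ num S fun j => τ j = s(a, b) := by
    rintro a b ⟨k, hk, h⟩
    rw [← h]
    exact hμ k hk
  have mem : ∀ i ∈ S, ∀ a ∈ τ i, ∃ b, ∃ k ∈ S, τ k = s(a, b) := fun i hi a ha =>
    ⟨Sym2.Mem.other ha, i, hi, (Sym2.other_spec ha).symm⟩
  have cl := hC W (fun a b => ∃ k ∈ S, τ k = s(a, b)) ?_ ?_ ?_ ?_ hK5 hK33 ?_ ?_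
  · rcases cl with ⟨η, hη, -, hc⟩ | ⟨η, hη, hadj, hc⟩
    · refine ⟨η, hη, ?_⟩
      intro i hi a ha
      obtain ⟨b, hb⟩ := mem i hi a ha
      exact hc a b hb
    · exfalso
      obtain ⟨sp', e2', e3'⟩ := spread (Function.invFun η) η (Function.leftInverse_invFun hη)
        (fun i hi a ha => by
          obtain ⟨b, hb⟩ := mem i hi a ha
          obtain ⟨k, rfl⟩ := hc a b hb
          rw [Function.leftInverse_invFun hη k]) hnd T hTc hT' hst' htri (by omega) _ rfl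
      have := hO _ _ E μ (h1 W (Fin 6) ι S τ E (Function.invFun η) hML) sp' ?_ ?_ (by omega)
      · omega
      · intro i
        rw [e3']
        by_contra h
        exact ((hadj i (i + 3)).1 (num_pos.1 (Nat.pos_of_ne_zero h))).2 rfl
      · intro i j hij hij'
        rw [e3']
        exact big _ _ ((hadj i j).2 ⟨hij, hij'⟩)
  · rintro a b ⟨k, hk, h⟩
    exact ⟨k, hk, h.trans Sym2.eq_swap⟩
  · rintro a ⟨k, hk, h⟩
    exact hnd k hk (by simp [h])
  · obtain ⟨i, hi⟩ : S.Nonempty := card_pos.1 (by omega)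
    obtain ⟨a, b, h⟩ : ∃ a b, τ i = s(a, b) := by
      generalize τ i = e
      induction e using Sym2.ind with
      | _ a b => exact ⟨a, b, rfl⟩
    exact ⟨a, b, i, hi, h⟩
  · intro a b c d hac had hbc hbd hab hcd
    have := hB W _ _ E μ (h1 W W ι S τ E id hML) sp (by omega) (by omega) a b c d hac had hbc hbd
      (by rw [e3]; exact big _ _ hab) (by rw [e3]; exact big _ _ hcd)
    rw [e3, e3] at this
    exact this.imp num_pos.1 num_pos.1
  · intro a b
    by_contra hcon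
    push Not at hcon
    have h3 : S.card ≤ star S τ a + star S τ b := by
      refine le_trans ?_ (num_or_le S _ _)
      have h4 := num_add_not S fun i => a ∈ τ i ∨ b ∈ τ i
      suffices num S (fun i => ¬ (a ∈ τ i ∨ b ∈ τ i)) = 0 by omega
      by_contra h5
      obtain ⟨i, hi, h5⟩ := num_pos.1 (Nat.pos_of_ne_zero h5)
      obtain ⟨u, v, h⟩ : ∃ u v, τ i = s(u, v) := by
        generalize τ i = e
        induction e using Sym2.ind with
        | _ a b => exact ⟨a, b, rfl⟩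
      rw [h] at h5
      simp only [Sym2.mem_iff, not_or] at h5
      exact h5.2.2 (hcon u v ⟨i, hi, h⟩ (Ne.symm h5.1.1) (Ne.symm h5.2.1) (Ne.symm h5.1.2)).symm
    have := hst a
    have := hst b
    omega
  · intro a b c d
    by_contra hcon
    push Not at hcon
    have h3 := four hnd a b c d fun i hi u hu => by
      obtain ⟨v, hv⟩ := mem i hi u hu
      by_contra h
      simp only [not_or] at h
      exact h.2.2.2 (hcon u v hv h.1 h.2.1 h.2.2.1)
    have := hst a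
    have := hst b
    have := hst c
    have := hst d
    omega

end AM

theorem am5 (h1 : MLXStmt) (hS : ShrinkStmt) (hT : TriStmt) (hF : FewStmt) (hG : GapStmt)
    (hB : BadStmt) (hC : ClassStmt) (hO : OctaStmt) (W ι : Type) [Fintype W] (S : Finset ι)
    (τ : ι → Sym2 W) (E Δ q : ℕ) (hML : ML S τ E) (hnd : ∀ i ∈ S, ¬ (τ i).IsDiag)
    (hK5 : NoK5 S τ) (hK33 : NoK33 S τ) (hst : ∀ u, star S τ u ≤ Δ)
    (hΔ : 400 * Δ ≤ 179 * S.card) (hq : 1000000 ≤ q) (hN : q ^ 2504 ≤ S.card)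
    (hE : E * q ^ 2504 ≤ S.card) :
    ∃ η : Fin 5 → W, Function.Injective η ∧ ∃ S2 ⊆ S, 1999 * S.card ≤ 2000 * S2.card ∧
      ∀ i ∈ S2, ∀ a ∈ τ i, ∃ k, a = η k := by
  classical
  have hq1 : q ≤ q ^ 2504 := Nat.le_self_pow (by omega) q
  have hE1 : E * q ≤ S.card := le_trans (Nat.mul_le_mul_left _ hq1) hE
  have hE2 : E * 1000000 ≤ S.card := le_trans (Nat.mul_le_mul_left _ hq) hE1
  obtain ⟨L, hL, hL'⟩ := hF W ι S τ E hML (fun u => by have := hst u; omega) (by omega) (by omega)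
  obtain ⟨S1, hS1⟩ : ∃ S1, S1 = S.filter fun i => ¬ ∃ a ∈ τ i, a ∉ L := ⟨_, rfl⟩
  have c1 : S.card ≤ S1.card + 40 * E := by
    have := num_add_not S fun i => ∃ a ∈ τ i, a ∉ L
    rw [num_eq S fun i => ¬ ∃ a ∈ τ i, a ∉ L, ← hS1] at this
    omega
  have sub1 : S1 ⊆ S := hS1 ▸ filter_subset _ _
  obtain ⟨T, hTc, hT'⟩ : ∃ T : Finset (Sym2 W), T.card ≤ 2500 ∧ ∀ i ∈ S1, τ i ∈ T := by
    refine ⟨(L ×ˢ L).image fun p => s(p.1, p.2), card_image_le.trans ?_, fun i hi => ?_⟩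
    · rw [card_product]
      exact Nat.mul_le_mul hL hL
    · rw [hS1, mem_filter] at hi
      have h := hi.2
      push Not at h
      generalize τ i = e at h
      induction e using Sym2.ind with
      | _ a b => exact mem_image.2 ⟨(a, b), mem_product.2 ⟨h a (by simp), h b (by simp)⟩, rfl⟩
  obtain ⟨x, hx⟩ : ∃ x : Sym2 W → ℕ, ∀ lam, x lam = num S1 fun j => τ j = lam := ⟨_, fun _ => rfl⟩
  obtain ⟨k, hk, hgap⟩ := hG _ T x q S1.card (by omega) hTc
  obtain ⟨S2, hS2⟩ : ∃ S2, S2 = S1.filter fun i => S1.card ≤ q ^ (k + 1) * x (τ i) := ⟨_, rfl⟩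
  have sub2 : S2 ⊆ S1 := hS2 ▸ filter_subset _ _
  obtain ⟨r2, hr2⟩ : ∃ r2, r2 = num S1 fun i => ¬ S1.card ≤ q ^ (k + 1) * x (τ i) := ⟨_, rfl⟩
  have c2 : S2.card + r2 = S1.card := by
    have := num_add_not S1 fun i => S1.card ≤ q ^ (k + 1) * x (τ i)
    rw [num_eq S1 fun i => S1.card ≤ q ^ (k + 1) * x (τ i), ← hS2, ← hr2] at this
    exact this
  have c3 : q ^ (k + 2) * r2 ≤ 2500 * S1.card := by
    rw [hr2, num_fiber S1 τ fun lam => ¬ S1.card ≤ q ^ (k + 1) * x lam, mul_sum]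
    simp only [← hx]
    rw [← sum_subset (subset_univ T)]
    · refine le_trans (sum_le_card_nsmul _ _ S1.card fun lam hl => ?_) ?_
      · split_ifs with h
        · simp
        · exact ((hgap lam hl).resolve_left h).le
      · exact Nat.mul_le_mul_right _ hTc
    · intro lam _ hl
      have : x lam = 0 := by
        by_contra h
        rw [hx] at h
        obtain ⟨i, hi, h⟩ := num_pos.1 (Nat.pos_of_ne_zero h)
        exact hl (h ▸ hT' i hi)
      simp [this]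
  obtain ⟨μ, hμ⟩ : ∃ μ, μ = S1.card / q ^ (k + 1) := ⟨_, rfl⟩
  obtain ⟨b1, b2, b3, b4, b5⟩ := AM.arith hq hk hN hE c1 (card_le_card sub1) c3 hμ
  have c4 := card_le_card sub1
  have d1 : 1000000 * μ ≤ S.card := le_trans (Nat.mul_le_mul_right _ hq) b1
  have d2 : 1000000 * r2 ≤ 2500 * (μ + 1) := le_trans (Nat.mul_le_mul_right _ hq) b2
  have d3 : 1000000 * 1000000 * E ≤ μ + 1 :=
    le_trans (Nat.mul_le_mul_right _ (Nat.mul_le_mul hq hq)) b4
  have d4 : 1000000 * 1000000 ≤ μ + 1 := le_trans (Nat.mul_le_mul hq hq) b5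
  have hML2 := hS W ι S S2 τ E (sub2.trans sub1) hML
  have fin := AM.core5 (μ := μ) (Δ := Δ) h1 hT hB hC hO hML2
    (fun i hi => hnd i (sub1 (sub2 hi))) ?_ ?_ ?_ (by omega) T hTc (fun i hi => hT' i (sub2 hi))
    ?_ (by omega) (by omega) (by omega)
  · obtain ⟨η, hη, hc⟩ := fin
    exact ⟨η, hη, S2, sub2.trans sub1, by omega, hc⟩
  · rintro ⟨f, hf⟩
    refine hK5 ⟨f, fun i j hij => ?_⟩
    obtain ⟨a, ha, h⟩ := hf i j hij
    exact ⟨a, sub1 (sub2 ha), h⟩
  · rintro ⟨f, g, hf, hg, hfg⟩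
    refine hK33 ⟨f, g, hf, hg, fun i j => ?_⟩
    obtain ⟨a, ha, h⟩ := hfg i j
    exact ⟨a, sub1 (sub2 ha), h⟩
  · exact fun u => le_trans (num_mono fun i hi h => ⟨sub1 (sub2 hi), h⟩) (hst u)
  · intro i hi
    have hi' := hi
    rw [hS2, mem_filter] at hi'
    refine le_trans (?_ : μ ≤ x (τ i)) ?_
    · rw [hμ]
      exact Nat.div_le_of_le_mul hi'.2
    · rw [hx]
      refine num_mono fun j hj h => ⟨?_, h⟩
      rw [hS2, mem_filter, h]
      exact ⟨hj, hi'.2⟩

theorem five : ∃ n0 : ℕ, ∀ (V : Type) [Fintype V] (G : SimpleGraph V), n0 ≤ Fintype.card V →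
    IsPlanar G → PathPairable G → (∀ v, 9 * dg G v ≤ 4 * Fintype.card V) →
    ∃ η : Fin 5 → V, Function.Injective η ∧
      1000 * num univ (fun v => ¬ ∃ j k, j ≠ k ∧ G.Adj v (η j) ∧ G.Adj v (η k)) ≤
        Fintype.card V := by
  obtain ⟨q, hq⟩ : ∃ q : ℕ, q = 1000000 := ⟨_, rfl⟩
  have hA' := fun W ι (_ : Fintype W) S τ E Δ => am5 mlx shrink (tri (acut mlx))
    (few (acut mlx) group) gap (bad (base hall)) cls (octa (base hall)) W ι S τ E Δ q
  have hQ : q ≤ q ^ 2504 := Nat.le_self_pow (by omega) q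
  generalize q ^ 2504 = Q at hA' hQ
  obtain ⟨m', hm⟩ : ∃ m', m' = 200 * Q := ⟨_, rfl⟩
  obtain ⟨K, n0, h0⟩ := cs (sparse mader) (cluster (sparse mader) (round (degen mader)))
    (2100000 * Q)
  refine ⟨n0 + 1000 + 4 * (32 * m') * (51200 * K ^ 2 * Q + 4 * Q), fun V _ G hn hp hpp hD => ?_⟩
  classical
  obtain ⟨H, Y, c, τ, X, hX, hK, hcs⟩ := h0 V G hp (by omega)
  have hX1 : 1000 * X ≤ Fintype.card V :=
    le_trans (Nat.mul_le_mul_right _ (by omega)) hX
  have hl := light cut group V G H Y c τ X hpp hcs hX1 (by omega)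
  have hh := heavy cut fill (light cut group) V G H Y c τ X hpp hcs hX1 (by omega) fun w => by
    have := hD w
    omega
  have hdef : num Y (fun y => ∃ v ∈ τ y, ¬ G.Adj y v) ≤ 10 * X := by
    refine le_trans (num_mono fun y hy h => ⟨hy, ?_⟩) hl
    obtain ⟨w, hw, h⟩ := h
    exact ⟨Sym2.Mem.other hw, w, (Sym2.other_spec hw).symm.trans Sym2.eq_swap, h, hh _⟩
  obtain ⟨S, A, hmod⟩ := modl (sparse mader) two (order mader two) V G H Y c τ X (10 * X) K
    (32 * m') hp hcs hK hdef (by omega)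
  obtain ⟨b1, b2, b3, b4⟩ := Fin0.arith hq.ge hQ hm hX (by omega) rfl hmod.cover rfl
  obtain ⟨g1, g2, g3⟩ := gamma V _ G S _ A _ _ hp hmod (by omega)
  have hm0 : 0 < 32 * m' := by omega
  obtain ⟨η, hη, S2, hsub, hcard, hc⟩ := hA' V _ inferInstance S Prod.fst _
    (4 * Fintype.card V / 9 / (32 * m'))
    (ml pathSys walkl total gadget V _ G S m' A _ _ _ hpp hmod (by omega) b1) hmod.nd g1 g2
    (fun u => (Nat.le_div_iff_mul_le hm0).2 (by
      have := g3 u
      have := hD u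
      rw [mul_comm]
      omega))
    (by
      refine Nat.le_of_mul_le_mul_right ?_ hm0
      have e2 := Nat.div_mul_le_self (4 * Fintype.card V / 9) (32 * m')
      rw [mul_assoc, mul_assoc]
      subst hq
      omega) hq.ge b2 b3
  refine ⟨η, hη, ?_⟩
  have e1 : S2.card * (32 * m') ≤
      num univ (fun v => ∃ j k, j ≠ k ∧ G.Adj v (η j) ∧ G.Adj v (η k)) := by
    have e0 : num (S2 ×ˢ range (32 * m')) (fun _ => True) = S2.card * (32 * m') := by
      rw [num_eq]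
      simp
    rw [← e0]
    refine num_le_of_injOn (fun x => A x.1 x.2) (fun x hx _ => ⟨mem_univ _, ?_⟩) ?_
    · obtain ⟨hx1, hx2⟩ := mem_product.1 hx
      have a1 := hmod.nd _ (hsub hx1)
      have a2 := hmod.adj _ (hsub hx1) _ (mem_range.1 hx2)
      have a3 := hc _ hx1
      generalize x.1.1 = e at a1 a2 a3
      induction e using Sym2.ind with
      | _ a b =>
        obtain ⟨j, rfl⟩ := a3 a (by simp)
        obtain ⟨k, rfl⟩ := a3 b (by simp)
        exact ⟨j, k, fun h => a1 (by simp [h]), a2 _ (by simp), a2 _ (by simp)⟩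
    · intro x hx _ y hy _ h
      obtain ⟨hx1, hx2⟩ := mem_product.1 hx
      obtain ⟨hy1, hy2⟩ := mem_product.1 hy
      obtain ⟨a1, a2⟩ := hmod.inj _ (hsub hx1) _ (hsub hy1) _ (mem_range.1 hx2) _
        (mem_range.1 hy2) h
      exact Prod.ext a1 a2
  have e2 := num_add_not univ fun v => ∃ j k, j ≠ k ∧ G.Adj v (η j) ∧ G.Adj v (η k)
  have e3 := Nat.mul_le_mul_right (32 * m') hcard
  rw [mul_assoc, mul_assoc] at e3
  rw [card_univ] at e2
  subst hq
  omega

end Pool.Agent.Lib.MP_453ac3_co.LB
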