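import Pool.Agent.Lib.MP_453ac3_co.Eff.CSt

/-! Local moves that raise the excess of loops. -/

namespace Pool.Agent.Lib.MP_453ac3_co.UB

open Finset DeltaJ

namespace GainJ

theorem ns_iff : ∀ (e f : Fin 9) (x y : Bool),
    (tok e x).val + (tok f (!y)).val = 1 ↔ hard e f ∧ x = false ∧ y = true := by decide +kernel

theorem hard_lt : ∀ e f : Fin 9, hard e f → e.val < 6 ∧ f.val < 6 := by decide +kernel

theorem mir_tc : ∀ (e : Fin 9) (l : Fin 3), mir e (tc l) = 0 := by decide +kernel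

theorem e1 : ∀ (P Q : Fin 5) p k, (P.val + Q.val ≠ 1 →
    0 ≤ dem P Q p k (tc 0) + dem P Q p k (tc 1) + dem P Q p k (tc 2)) ∧ (P.val + Q.val = 1 →
    dem P Q p k (tc 0) + dem P Q p k (tc 1) + dem P Q p k (tc 2) = -1) := by decide +kernel

theorem e2 : ∀ c, 1 ≤ BasJ.lo c 2 2 (tc 0) + BasJ.lo c 2 2 (tc 1) + BasJ.lo c 2 2 (tc 2) := by
  decide +kernel

theorem e3 : ∀ l, dem (AdjJ.hub l) (AdjJ.hub l) 2 2 (tc 0) + dem (AdjJ.hub l) (AdjJ.hub l) 2 2 (tc 1) +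
    dem (AdjJ.hub l) (AdjJ.hub l) 2 2 (tc 2) = 1 := by decide +kernel

theorem ias {β : Type} (σ : Equiv.Perm β) (x : β) : σ⁻¹ (σ x) = x := σ.symm_apply_apply x

theorem ais {β : Type} (σ : Equiv.Perm β) (x : β) : σ (σ⁻¹ x) = x := σ.apply_symm_apply x

variable {β : Type} [DecidableEq β]

/-- a run of blocks that ends at `v` -/
def Rn (τ : Equiv.Perm β) (H : β → Prop) (v u : β) : Prop :=
  Relation.ReflTransGen (fun x y => τ y = x ∧ H y) v u

omit [DecidableEq β] in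
theorem Rn.cases {τ : Equiv.Perm β} {H : β → Prop} {v u : β} (h : Rn τ H v u) :
    u = v ∨ (Rn τ H v (τ u) ∧ H u) := by
  rcases Relation.ReflTransGen.cases_tail h with e | ⟨x, h1, rfl, h2⟩
  exacts [Or.inl e, Or.inr ⟨h1, h2⟩]

omit [DecidableEq β] in
theorem Rn.step {τ : Equiv.Perm β} {H : β → Prop} {v u : β} (h : Rn τ H v (τ u)) (hu : H u) :
    Rn τ H v u := h.tail ⟨rfl, hu⟩

omit [DecidableEq β] in
theorem Rn.ind {τ : Equiv.Perm β} {H : β → Prop} {v u : β} (W : β → Prop)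
    (hW : ∀ u, Rn τ H v (τ u) → W u → W (τ u)) (h : Rn τ H v u) : W u → W v := by
  induction h with
  | refl => exact id
  | tail h1 h2 ih =>
    obtain ⟨rfl, -⟩ := h2
    exact fun w => ih (hW _ h1 w)

theorem inout [Fintype β] (τ : Equiv.Perm β) (U : β → Prop) [DecidablePred U] :
    (univ.filter fun b => U b ∧ ¬ U (τ b)).card = (univ.filter fun b => ¬ U b ∧ U (τ b)).card := by
  have h1 := AdjJ.pre τ (univ.filter U)
  have h2 := card_filter_add_card_filter_not (s := univ.filter U) fun b => U (τ b)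
  have h3 := card_filter_add_card_filter_not (s := univ.filter fun b => U (τ b)) U
  simp only [mem_filter, mem_univ, true_and, filter_filter] at h1 h2 h3
  simp only [and_comm (a := U (τ _))] at h3
  omega

variable (I : Inst β)

/-- the excess of one junction -/
def ev (s : β → Dc) (b : β) : ℤ :=
  I.sup b (s b) (s (I.σ b)) (tc 0) + I.sup b (s b) (s (I.σ b)) (tc 1) +
    I.sup b (s b) (s (I.σ b)) (tc 2)

omit [DecidableEq β] in
theorem ns {s : β → Dc} {b : β} : I.NS s b ↔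
    hard (I.c b) (I.c (I.σ b)) ∧ (s b).1 = false ∧ (s (I.σ b)).1 = true := ns_iff _ _ _ _

theorem ev_nonneg {s : β → Dc} {b : β} (h : ¬ I.NS s b) : 0 ≤ ev I s b := by
  unfold ev
  simp only [BasJ.sup_eq]
  split_ifs
  · have := fun l => (BasJ.d2 (I.c b) (s b).2.1 (s b).2.2 (tc l)).1
    linarith [this 0, this 1, this 2]
  · exact (e1 _ _ _ _).1 h

theorem ev_ns {s : β → Dc} {b : β} (h : I.NS s b) : ev I s b = -1 := by
  have hne : ¬ (I.σ b = b ∧ b ∉ I.fx) := fun e =>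
    f4 (I.c b) (by have := ((ns I).1 h).1; rwa [e.1] at this)
  unfold ev
  simp only [BasJ.sup_eq, if_neg hne]
  exact (e1 _ _ _ _).2 h

theorem gg_ev (s : β → Dc) (b : β) :
    ev I s b = gg I s b (tc 0) + gg I s b (tc 1) + gg I s b (tc 2) := by
  simp [ev, gg, mir_tc]

theorem gg_congr {s s' : β → Dc} {b : β} (h1 : s' b = s b) (h2 : (s' (I.σ b)).1 = (s (I.σ b)).1)
    (i : Fin 9) : gg I s' b i = gg I s b i := by
  simp only [gg, Inst.sup, h1, h2]

/-- all blocks of `U` get the orientation `D` -/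
def fl (U : β → Prop) [DecidablePred U] (D : Bool) (s : β → Dc) (b : β) : Dc :=
  if U b then (D, (s b).2) else s b

theorem gg_fl {U : β → Prop} [DecidablePred U] {D : Bool} {s : β → Dc}
    (hU : ∀ u, U u → (s u).1 = !D) {b : β}
    (h : (U b ∧ U (I.σ b) ∧ hard (I.c b) (I.c (I.σ b))) ∨ (¬ U b ∧ ¬ U (I.σ b))) (i : Fin 9) :
    gg I (fl U D s) b i = gg I s b i := by
  rcases h with ⟨h1, h2, h3⟩ | ⟨h1, h2⟩
  · rw [gg_zero I _ b i h3 (by simp only [fl, if_pos h1, if_pos h2]),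
      gg_zero I _ b i h3 (by rw [hU _ h1, hU _ h2])]
  · exact gg_congr I (if_neg h1) (congrArg _ (if_neg h2)) i

variable [Fintype β]

theorem ex_eq (s : β → Dc) : I.ex s = ∑ b, ev I s b := by
  unfold Inst.ex Inst.y ev
  rw [sum_add_distrib, sum_add_distrib]

theorem loss {s s' : β → Dc} (J : Finset β) (h : ∀ b ∉ J, ∀ i, gg I s' b i = gg I s b i)
    (i : Fin 9) : I.y s i - 6 * J.card ≤ I.y s' i := by
  have h1 : ∑ b, (gg I s b i - gg I s' b i) ≤ ∑ b, if b ∈ J then 6 else 0 :=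
    sum_le_sum fun b _ => by
      have a1 := gg_bd I bas s b i
      have a2 := gg_bd I bas s' b i
      split_ifs with c
      · omega
      · rw [h b c, sub_self]
  rw [sum_sub_distrib, sum_gg, sum_gg, sum_ite_mem, univ_inter, sum_const, nsmul_eq_mul] at h1
  linarith

/-- a move with gain -/
def Gn (s s' : β → Dc) : Prop := I.ex s + 1 ≤ I.ex s' ∧ ∀ i, I.y s i - 18 ≤ I.y s' i

theorem gain_of {s s' : β → Dc} (a b c : β)
    (h : ∀ u, u ≠ a → u ≠ b → u ≠ c → ∀ i, gg I s' u i = gg I s u i)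
    (ha : ev I s a < ev I s' a) (hb : ev I s b ≤ ev I s' b) (hc : ev I s c ≤ ev I s' c) :
    Gn I s s' := by
  refine ⟨?_, fun i => ?_⟩
  · rw [ex_eq, ex_eq]
    refine sum_lt_sum (fun u _ => ?_) ⟨a, mem_univ _, ha⟩
    by_cases h1 : u = a
    · exact h1 ▸ ha.le
    by_cases h2 : u = b
    · exact h2 ▸ hb
    by_cases h3 : u = c
    · exact h3 ▸ hc
    simp only [gg_ev, h u h1 h2 h3, le_refl]
  · have h1 := loss I {a, b, c} (fun u hu => by
      simp only [mem_insert, mem_singleton, not_or] at hu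
      exact h u hu.1 hu.2.1 hu.2.2) i
    have h2 : (({a, b, c} : Finset β).card : ℤ) ≤ 3 := by exact_mod_cast card_le_three
    linarith

theorem unique (τ : Equiv.Perm β) (H : β → Prop) (v : β) {p q : β} (p1 : ¬ Rn τ H v p)
    (p2 : Rn τ H v (τ p)) (q1 : ¬ Rn τ H v q) (q2 : Rn τ H v (τ q)) : p = q := by
  classical
  have h1 := inout τ (Rn τ H v)
  have h2 : (univ.filter fun b => Rn τ H v b ∧ ¬ Rn τ H v (τ b)).card ≤ 1 :=
    card_le_one.2 fun a ha b hb => by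
      obtain ⟨-, a1, a2⟩ := mem_filter.1 ha
      obtain ⟨-, b1, b2⟩ := mem_filter.1 hb
      rw [a1.cases.resolve_right fun e => a2 e.1, b1.cases.resolve_right fun e => b2 e.1]
  exact card_le_one.1 (h1 ▸ h2) p (mem_filter.2 ⟨mem_univ _, p1, p2⟩) q
    (mem_filter.2 ⟨mem_univ _, q1, q2⟩)

/-- backward runs -/
def RB (s : β → Dc) (v u : β) : Prop :=
  Rn I.σ (fun b => hard (I.c b) (I.c (I.σ b)) ∧ (s b).1 = false) v u

/-- forward runs -/
def RF (s : β → Dc) (w u : β) : Prop :=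
  Rn I.σ⁻¹ (fun b => hard (I.c (I.σ⁻¹ b)) (I.c b) ∧ (s b).1 = true) w u

omit [DecidableEq β] [Fintype β] in
theorem rb_mem {s : β → Dc} {v u : β} (hv : I.NS s v) (h : RB I s v u) :
    (I.c u).val < 6 ∧ (s u).1 = false := by
  rcases h.cases with rfl | h
  · exact ⟨(hard_lt _ _ ((ns I).1 hv).1).1, ((ns I).1 hv).2.1⟩
  · exact ⟨(hard_lt _ _ h.2.1).1, h.2.2⟩

omit [DecidableEq β] [Fintype β] in
theorem rf_mem {s : β → Dc} {w u : β} (h1 : (I.c w).val < 6) (h2 : (s w).1 = true)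
    (h : RF I s w u) : (I.c u).val < 6 ∧ (s u).1 = true := by
  rcases h.cases with rfl | h
  · exact ⟨h1, h2⟩
  · exact ⟨(hard_lt _ _ h.2.1).2, h.2.2⟩

theorem back {s : β → Dc} {v p : β} (hv : I.NS s v) (p1 : ¬ RB I s v p) (p2 : RB I s v (I.σ p))
    (hp : ev I s p ≤ 0) : ∃ s', Gn I s s' ∧
      ∀ b, (s' b).1 = (s b).1 ∨ ((I.c b).val < 6 ∧ (s' b).1 = true) := by
  classical
  refine ⟨fl (RB I s v) true s, gain_of I v p p (fun u h1 h2 _ =>
    gg_fl I (fun u hu => (rb_mem I hv hu).2) ?_) ?_ ?_ ?_, fun b => ?_⟩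
  · by_cases hu : RB I s v u
    · obtain ⟨a1, a2⟩ := hu.cases.resolve_left h1
      exact Or.inl ⟨hu, a1, a2.1⟩
    · exact Or.inr ⟨hu, fun h => h2 (unique _ _ _ hu h p1 p2)⟩
  · have h1 : ¬ I.NS (fl (RB I s v) true s) v := fun h => by
      have := ((ns I).1 h).2.1
      rw [fl, if_pos (show RB I s v v from Relation.ReflTransGen.refl)] at this
      simp at this
    have := ev_nonneg I h1
    rw [ev_ns I hv]
    omega
  rotate_left 2
  · unfold fl
    split_ifs with h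
    · exact Or.inr ⟨(rb_mem I hv h).1, rfl⟩
    · exact Or.inl rfl
  all_goals
    refine hp.trans (ev_nonneg I fun h => ?_)
    obtain ⟨a1, a2, -⟩ := (ns I).1 h
    rw [fl, if_neg p1] at a2
    exact p1 (Rn.step p2 ⟨a1, a2⟩)

theorem forw {s : β → Dc} {w q : β} (h1 : (I.c w).val < 6) (h2 : (s w).1 = true)
    (q1 : RF I s w q) (q2 : ¬ RF I s w (I.σ q)) : ∃ s' : β → Dc,
      (∀ u, I.σ u ≠ w → u ≠ q → ∀ i, gg I s' u i = gg I s u i) ∧ ¬ I.NS s' q ∧
      (s' w).1 = false ∧ ∀ b, 6 ≤ (I.c b).val → s' b = s b := by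
  classical
  refine ⟨fl (RF I s w) false s, fun u a1 a2 =>
    gg_fl I (fun u hu => (rf_mem I h1 h2 hu).2) ?_, fun h => ?_, ?_, fun b hb => ?_⟩
  · by_cases hu : RF I s w (I.σ u)
    · obtain ⟨b1, b2⟩ := hu.cases.resolve_left a1
      rw [ias] at b1 b2
      exact Or.inl ⟨b1, hu, b2.1⟩
    · refine Or.inr ⟨fun h => a2 (I.σ.injective (unique _ _ _ hu ?_ q2 ?_)), hu⟩
      · rwa [ias]
      · rwa [ias]
  · obtain ⟨a1, -, a2⟩ := (ns I).1 h
    rw [fl, if_neg q2] at a2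
    refine q2 (Rn.step ?_ ⟨?_, a2⟩)
    · rwa [ias]
    · rwa [ias]
  · rw [fl, if_pos (show RF I s w w from Relation.ReflTransGen.refl)]
  · exact if_neg fun h => absurd (rf_mem I h1 h2 h).1 (not_lt.2 hb)

theorem count (s : β → Dc) (En : Finset β) (h1 : ∀ b ∈ En, 0 < ev I s b)
    (h2 : ∀ N : Finset β, (∀ b ∈ N, I.NS s b) → N.card ≤ En.card) :
    (((univ.filter fun b => 0 < ev I s b) \ En).card : ℤ) ≤ I.ex s := by
  classical
  have a1 := h2 (univ.filter fun b => I.NS s b) fun b hb => (mem_filter.1 hb).2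
  have a2 : ∑ b, ((if 0 < ev I s b then 1 else 0) - if I.NS s b then 1 else 0 : ℤ) ≤
      ∑ b, ev I s b := sum_le_sum fun b _ => by
    by_cases h : I.NS s b
    · rw [ev_ns I h, if_pos h]
      simp
    · have := ev_nonneg I h
      rw [if_neg h]
      split_ifs <;> omega
  rw [sum_sub_distrib, sum_boole, sum_boole, ← ex_eq] at a2
  have a3 := card_sdiff_add_card_eq_card (s := En) (t := univ.filter fun b => 0 < ev I s b)
    fun b hb => mem_filter.2 ⟨mem_univ _, h1 b hb⟩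
  omega

theorem countB (s : β → Dc) (h : ¬ ∃ s', Gn I s s' ∧
    ∀ b, (s' b).1 = (s b).1 ∨ ((I.c b).val < 6 ∧ (s' b).1 = true)) :
    ∃ Bad : Finset β, (Bad.card : ℤ) ≤ I.ex s ∧
      ∀ b, 0 < ev I s b → b ∈ Bad ∨ (I.c (I.σ b)).val < 6 := by
  classical
  refine ⟨_, count I s (univ.filter fun p => ¬ (∃ v, I.NS s v ∧ RB I s v p) ∧
    ∃ v, I.NS s v ∧ RB I s v (I.σ p)) (fun p hp => ?_) fun N hN => ?_, fun b hb => ?_⟩
  · obtain ⟨-, a1, v, a2, a3⟩ := mem_filter.1 hp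
    exact not_le.1 fun a4 => h (back I a2 (fun k => a1 ⟨v, a2, k⟩) a3 a4)
  · rw [← inout I.σ fun p => ∃ v, I.NS s v ∧ RB I s v p]
    refine card_le_card fun b hb => mem_filter.2 ⟨mem_univ _,
      ⟨b, hN b hb, Relation.ReflTransGen.refl⟩, ?_⟩
    rintro ⟨v, a1, a2⟩
    have a3 := (rb_mem I a1 a2).2
    rw [((ns I).1 (hN b hb)).2.2] at a3
    simp at a3
  · by_contra hc
    rw [not_or, mem_sdiff, not_and, not_not] at hc
    obtain ⟨-, -, v, a1, a2⟩ := mem_filter.1 (hc.1 (mem_filter.2 ⟨mem_univ _, hb⟩))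
    exact hc.2 (rb_mem I a1 a2).1

theorem countF (s : β → Dc) (h : ¬ ∃ s', Gn I s s' ∧ ∀ b, 6 ≤ (I.c b).val → s' b = s b) :
    ∃ Bad : Finset β, (Bad.card : ℤ) ≤ I.ex s ∧
      ∀ b, 0 < ev I s b → b ∈ Bad ∨ ∃ v, I.NS s v ∧ RF I s (I.σ v) b := by
  classical
  have hm : ∀ v, I.NS s v → ∀ u, RF I s (I.σ v) u → (s u).1 = true := fun v hv u hu =>
    (rf_mem I (hard_lt _ _ ((ns I).1 hv).1).2 ((ns I).1 hv).2.2 hu).2
  refine ⟨_, count I s (univ.filter fun p => (∃ v, I.NS s v ∧ RF I s (I.σ v) p) ∧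
    ¬ ∃ v, I.NS s v ∧ RF I s (I.σ v) (I.σ p)) (fun q hq => ?_) fun N hN => ?_, fun b hb => ?_⟩
  · obtain ⟨-, ⟨v, a2, a3⟩, a1⟩ := mem_filter.1 hq
    refine not_le.1 fun a4 => h ?_
    obtain ⟨s', b1, b2, b3, b4⟩ := forw I (hard_lt _ _ ((ns I).1 a2).1).2 ((ns I).1 a2).2.2 a3
      fun k => a1 ⟨v, a2, k⟩
    have b5 := ev_nonneg I (s := s') (b := v) fun k => by
      have := ((ns I).1 k).2.2
      rw [b3] at this
      simp at this
    have b6 := a4.trans (ev_nonneg I b2)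
    exact ⟨s', gain_of I v q q (fun u c1 c2 _ => b1 u (I.σ.injective.ne c1) c2)
      (by rw [ev_ns I a2]; omega) b6 b6, b4⟩
  · rw [inout I.σ fun p => ∃ v, I.NS s v ∧ RF I s (I.σ v) p]
    refine card_le_card fun b hb => mem_filter.2 ⟨mem_univ _, ?_,
      ⟨b, hN b hb, Relation.ReflTransGen.refl⟩⟩
    rintro ⟨v, a1, a2⟩
    have a3 := hm v a1 b a2
    rw [((ns I).1 (hN b hb)).2.1] at a3
    simp at a3
  · by_contra hc
    rw [not_or, mem_sdiff, not_and, not_not] at hc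
    exact hc.2 (mem_filter.1 (hc.1 (mem_filter.2 ⟨mem_univ _, hb⟩))).2.1

/-- a new loop behind the equator block `g` -/
theorem graft {s s1 : β → Dc} {g q : β} {l : Fin 3} (hg : 6 ≤ (I.c g).val) (hne : I.σ g ≠ g)
    (hl : AdjJ.cont (I.c g) l) (h1 : ∀ u, u ≠ g → u ≠ q → ∀ i, gg I s1 u i = gg I s u i)
    (h2 : ¬ I.NS s1 q) (h3 : tok (I.c (I.σ g)) (!(s1 (I.σ g)).1) = AdjJ.hub l)
    (e1 : ev I s g ≤ 0) (e2 : ev I s (I.σ⁻¹ g) ≤ 0) (e4 : ev I s q ≤ 0) :
    Gn I s (Function.update s1 g (AdjJ.pick (I.c g) l, 2, 2)) := by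
  have hns : ∀ u, I.NS (Function.update s1 g (AdjJ.pick (I.c g) l, 2, 2)) u →
      I.NS s1 u ∧ I.σ u ≠ g := fun u hu => by
    obtain ⟨a1, a2, a3⟩ := (ns I).1 hu
    have a4 : u ≠ g := fun e => absurd (e ▸ (hard_lt _ _ a1).1) (not_lt.2 hg)
    have a5 : I.σ u ≠ g := fun e => absurd (e ▸ (hard_lt _ _ a1).2) (not_lt.2 hg)
    rw [Function.update_of_ne a4] at a2
    rw [Function.update_of_ne a5] at a3
    exact ⟨(ns I).2 ⟨a1, a2, a3⟩, a5⟩
  refine gain_of I g (I.σ⁻¹ g) q (fun u a1 a2 a3 i => ?_) ?_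
    (e2.trans (ev_nonneg I fun h => (hns _ h).2 (ais _ _)))
    (e4.trans (ev_nonneg I fun h => h2 (hns _ h).1))
  · rw [← h1 u a1 a3 i]
    refine gg_congr I (Function.update_of_ne a1 ..) (congrArg _ (Function.update_of_ne ?_ ..)) i
    exact fun e => a2 (by rw [← e, ias])
  · refine lt_of_le_of_lt e1 ?_
    unfold ev
    simp only [BasJ.sup_eq, if_neg fun e : I.σ g = g ∧ g ∉ I.fx => hne e.1, Function.update_self,
      Function.update_of_ne hne, h3, (AdjJ.tok_pick _ _ hl).1, e3]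
    norm_num

end GainJ

open GainJ

theorem gain0 {β : Type} [DecidableEq β] [Fintype β] (I : Inst β) (s : β → Dc)
    (h : I.ex s < 0) : ∃ s', Gn I s s' ∧
      ∀ b, (s' b).1 = (s b).1 ∨ ((I.c b).val < 6 ∧ (s' b).1 = true) := by
  by_contra hc
  obtain ⟨Bad, h1, -⟩ := countB I s hc
  omega

theorem gain1 {β : Type} [DecidableEq β] [Fintype β] (I : Inst β)
    (hfx : ∀ b ∈ I.fx, 6 ≤ (I.c b).val) (s : β → Dc) (hs : I.Fix s) (r : ℕ) (h : I.ex s < r)
    (hC : 8 * r ≤ (univ.filter fun g => I.Cand g).card) : ∃ s', Gn I s s' ∧ I.Fix s' := by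
  classical
  by_contra hc
  obtain ⟨B1, a1, a2⟩ := countB I s fun ⟨s', k1, k2⟩ => hc ⟨s', k1, fun b hb =>
    ((k2 b).resolve_right fun k => absurd k.1 (not_lt.2 (hfx b hb))).trans (hs b hb)⟩
  obtain ⟨B2, a3, a4⟩ := countF I s fun ⟨s', k1, k2⟩ => hc ⟨s', k1, fun b hb => by
    rw [k2 b (hfx b hb)]
    exact hs b hb⟩
  have hRF : ∀ v, I.NS s v → ∀ u, RF I s (I.σ v) u → (I.c u).val < 6 := fun v hv u hu =>
    (rf_mem I (hard_lt _ _ ((ns I).1 hv).1).2 ((ns I).1 hv).2.2 hu).1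
  have hout : ∀ b, b ∉ B2 → 6 ≤ (I.c b).val → ev I s b ≤ 0 := fun b h1 h2 => not_lt.1 fun h3 => by
    obtain ⟨v, k1, k2⟩ := (a4 b h3).resolve_left h1
    exact absurd (hRF v k1 b k2) (not_lt.2 h2)
  obtain ⟨C, c1, c2⟩ : ∃ C : Finset β, B2.card < C.card ∧ ∀ g ∈ C, I.Cand g ∧
      ev I s g ≤ 0 ∧ ev I s (I.σ⁻¹ g) ≤ 0 ∧ I.σ g ∉ B2 := by
    refine ⟨(univ.filter fun g => I.Cand g) \ (B2 ∪ (univ.filter fun g => I.σ⁻¹ g ∈ B1) ∪
      univ.filter fun g => I.σ g ∈ B2), ?_, fun g hg => ?_⟩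
    · have k1 := le_card_sdiff (B2 ∪ (univ.filter fun g => I.σ⁻¹ g ∈ B1) ∪
        univ.filter fun g => I.σ g ∈ B2) (univ.filter fun g => I.Cand g)
      have k2 := card_union_le (B2 ∪ univ.filter fun g => I.σ⁻¹ g ∈ B1)
        (univ.filter fun g => I.σ g ∈ B2)
      have k3 := card_union_le B2 (univ.filter fun g => I.σ⁻¹ g ∈ B1)
      rw [AdjJ.pre] at k2 k3
      omega
    · simp only [mem_sdiff, mem_union, mem_filter, mem_univ, true_and, not_or] at hg
      refine ⟨hg.1, hout g hg.2.1.1 hg.1.1, not_lt.1 fun k => ?_, hg.2.2⟩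
      have := (a2 _ k).resolve_left hg.2.1.2
      rw [ais] at this
      exact absurd this (not_lt.2 hg.1.1)
  have fixup : ∀ (s1 : β → Dc) (g : β) (x : Dc), g ∉ I.fx → I.Fix s1 →
      I.Fix (Function.update s1 g x) := fun s1 g x k1 k2 b hb => by
    rw [Function.update_of_ne fun e : b = g => k1 (e ▸ hb)]
    exact k2 b hb
  have hsp : ∀ g ∈ C, (I.c (I.σ g)).val < 6 ∧ (s (I.σ g)).1 = true := by
    intro g hg
    obtain ⟨⟨g1, g2, g3, l, g4, g5⟩, e1, e2', e4⟩ := c2 g hg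
    have hng : ∀ s1 : β → Dc, ¬ I.NS s1 g := fun s1 k =>
      absurd (hard_lt _ _ ((ns I).1 k).1).1 (not_lt.2 g1)
    by_cases hne : I.σ g = g
    · refine absurd ⟨Function.update s g ((s g).1, 2, 2), gain_of I g g g (fun u k _ _ i =>
        gg_congr I (Function.update_of_ne k ..) (congrArg _ (Function.update_of_ne
          (fun e => k (I.σ.injective (e.trans hne.symm))) ..)) i) ?_ ?_ ?_,
        fixup _ _ _ g2 hs⟩ hc
      · refine lt_of_le_of_lt e1 ?_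
        unfold ev
        simp only [BasJ.sup_eq, if_pos (And.intro hne g2), Function.update_self]
        exact e2 _
      · exact e1.trans (ev_nonneg I (hng _))
      · exact e1.trans (ev_nonneg I (hng _))
    by_cases h6 : 6 ≤ (I.c (I.σ g)).val
    · refine absurd ⟨_, graft I (q := I.σ g)
        (s1 := Function.update s (I.σ g) (!AdjJ.pick (I.c (I.σ g)) l, (s (I.σ g)).2)) g1 hne g4
        (fun u k1 k2 i => gg_congr I (Function.update_of_ne k2 ..)
          (congrArg _ (Function.update_of_ne (I.σ.injective.ne k1) ..)) i)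
        (fun k => absurd (hard_lt _ _ ((ns I).1 k).1).1 (not_lt.2 h6)) ?_ e1 e2' (hout _ e4 h6),
        fixup _ _ _ g2 (fixup _ _ _ g3 hs)⟩ hc
      rw [Function.update_self, Bool.not_not]
      exact (AdjJ.tok_pick _ _ g5).1
    refine ⟨not_le.1 h6, ?_⟩
    by_contra ho
    refine hc ⟨_, graft I (q := g) (s1 := s) g1 hne g4 (fun _ _ _ _ => rfl) (hng _) ?_ e1 e2' e1,
      fixup _ _ _ g2 hs⟩
    rw [Bool.not_eq_true] at ho
    rw [ho]
    exact (AdjJ.tok_pick _ _ g5).2 (not_le.1 h6)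
  have k1 : C.card ≤ (univ.filter fun q => (∃ g ∈ C, RF I s (I.σ g) q) ∧
      ¬ ∃ g ∈ C, RF I s (I.σ g) (I.σ q)).card := by
    rw [inout I.σ fun q => ∃ g ∈ C, RF I s (I.σ g) q]
    refine card_le_card fun g hg => mem_filter.2 ⟨mem_univ _, ?_,
      ⟨g, hg, Relation.ReflTransGen.refl⟩⟩
    rintro ⟨g', k1, k2⟩
    exact absurd (rf_mem I (hsp g' k1).1 (hsp g' k1).2 k2).1 (not_lt.2 (c2 g hg).1.1)
  obtain ⟨q, k2, k3⟩ := exists_mem_notMem_of_card_lt_card (c1.trans_le k1)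
  obtain ⟨-, ⟨g, hg, q1⟩, q2⟩ := mem_filter.1 k2
  obtain ⟨⟨g1, g2, -, l, g4, g5⟩, e1, e2', -⟩ := c2 g hg
  obtain ⟨w1, w2⟩ := hsp g hg
  have e4 : ev I s q ≤ 0 := not_lt.1 fun k => by
    obtain ⟨v, v1, v2⟩ := (a4 q k).resolve_left k3
    have v3 : RF I s (I.σ v) (I.σ g) := Rn.ind (fun u => RF I s (I.σ v) u) (fun u u1 u2 => by
      refine (u2.cases.resolve_left fun e => ?_).1
      have := (rf_mem I w1 w2 u1).2
      rw [e, ias, ((ns I).1 v1).2.1] at this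
      simp at this) q1 v2
    rcases v3.cases with e | e
    · have := hard_lt _ _ ((ns I).1 v1).1
      rw [← I.σ.injective e] at this
      omega
    · have := hard_lt _ _ e.2.1
      rw [ias] at this
      omega
  obtain ⟨s1, b1, b2, b3, b4⟩ := forw I w1 w2 q1 fun k => q2 ⟨g, hg, k⟩
  refine hc ⟨_, graft I (q := q) (s1 := s1) g1 (fun e => by rw [e] at w1; omega) g4
    (fun u c1 c2 => b1 u (I.σ.injective.ne c1) c2) b2 ?_ e1 e2' e4,
    fixup _ _ _ g2 fun b hb => ?_⟩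
  · rw [b3]
    exact (AdjJ.tok_pick _ _ g5).2 w1
  · rw [b4 b (hfx b hb)]
    exact hs b hb

end Pool.Agent.Lib.MP_453ac3_co.UB
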