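import Pool.Agent.Lib.MP_453ac3_co.LB.Main

/-! The atom model from types without clusters (the proof of `LB/Mod`). -/

namespace Pool.Agent.Lib.MP_453ac3_co.LB

open Finset

/-- hubs `H`, good vertices `Y`, types `τ`, error `X` -/
structure CS2 {V : Type} [Fintype V] (G : SimpleGraph V) (H Y : Finset V)
    (τ : V → Sym2 V) (X : ℕ) : Prop where
  disj : ∀ y ∈ Y, y ∉ H
  cover : Fintype.card V ≤ Y.card + X
  hubs : ∀ y ∈ Y, ∀ a ∈ τ y, a ∈ H
  nd : ∀ y ∈ Y, ¬ (τ y).IsDiag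
  exc : cnt G (fun u v => ¬ ((u ∈ Y ∧ v ∈ Y ∧ τ u = τ v) ∨ (u ∈ Y ∧ v ∈ τ u) ∨
    (v ∈ Y ∧ u ∈ τ v))) ≤ X

namespace Mod

theorem core2 (h1 : SparseStmt) (h2 : TwoStmt) {V : Type} [Fintype V] {G : SimpleGraph V}
    {H Y : Finset V} {τ : V → Sym2 V} {X D K m : ℕ} (hP : IsPlanar G)
    (hcs : CS2 G H Y τ X) (hK : H.card ≤ K)
    (hD : num Y (fun y => ∃ v ∈ τ y, ¬ G.Adj y v) ≤ D) (hm : 0 < m)
    (C : Sym2 V → Finset V)
    (hC : ∀ lam y, y ∈ C lam ↔ y ∈ Y ∧ τ y = lam ∧ ∀ a ∈ lam, G.Adj y a)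
    (L : Sym2 V → ℕ) (o : Sym2 V → ℕ → V) (hL : ∀ lam, (C lam).card ≤ L lam + 1)
    (ho : ∀ lam, ∀ p < L lam, o lam p ∈ C lam)
    (hinj : ∀ lam, ∀ p < L lam, ∀ q < L lam, o lam p = o lam q → p = q)
    (hadj : ∀ lam, ∀ p < L lam, ∀ q < L lam, G.Adj (o lam p) (o lam q) → q = p + 1 ∨ p = q + 1)
    (S : Finset (Sym2 V × ℕ)) (hS : ∀ i, i ∈ S ↔ (i.2 + 1) * m ≤ L i.1) :
    MOD G S m (fun i p => o i.1 (i.2 * m + p)) Prod.fst
      (X + 16 * (D + K ^ 2 * m) + 2 * S.card) := by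
  classical
  set A : Sym2 V × ℕ → ℕ → V := fun i p => o i.1 (i.2 * m + p) with hA
  have hlt : ∀ i ∈ S, ∀ p < m, i.2 * m + p < L i.1 := by
    intro i hi p hp
    have := (hS i).1 hi
    rw [add_mul, one_mul] at this
    omega
  have hAC : ∀ i ∈ S, ∀ p < m, A i p ∈ Y ∧ τ (A i p) = i.1 ∧ ∀ a ∈ i.1, G.Adj (A i p) a :=
    fun i hi p hp => (hC _ _).1 (ho _ _ (hlt i hi p hp))
  have hAinj : ∀ i ∈ S, ∀ j ∈ S, ∀ p < m, ∀ q < m, A i p = A j q → i = j ∧ p = q := by
    intro i hi j hj p hp q hq h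
    have e : i.1 = j.1 := by rw [← (hAC i hi p hp).2.1, h, (hAC j hj q hq).2.1]
    have hj' := hlt j hj q hq
    have h' : o i.1 (i.2 * m + p) = o i.1 (j.2 * m + q) := by
      simp only [hA] at h
      rw [h, e]
    rw [← e] at hj'
    obtain ⟨e1, e2⟩ := split_eq hp hq (hinj _ _ (hlt i hi p hp) _ hj' h')
    exact ⟨Prod.ext e e1, e2⟩
  set At : Finset V := (S ×ˢ range m).image fun x => A x.1 x.2 with hAt
  have hmem : ∀ u, u ∈ At ↔ ∃ i ∈ S, ∃ p < m, u = A i p := by
    intro u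
    simp only [hAt, mem_image, mem_product, mem_range]
    constructor
    · rintro ⟨x, ⟨hx1, hx2⟩, rfl⟩
      exact ⟨x.1, hx1, x.2, hx2, rfl⟩
    · rintro ⟨i, hi, p, hp, rfl⟩
      exact ⟨(i, p), ⟨hi, hp⟩, rfl⟩
  have hAtc : At.card ≤ S.card * m := by
    refine le_trans card_image_le ?_
    rw [card_product, card_range]
  set Z : Finset V := Y \ At with hZ
  -- leftover vertices of one type
  have hleft : ∀ lam, (C lam \ At).card ≤ m := by
    intro lam
    have hsub : (range (L lam / m * m)).image (o lam) ⊆ C lam ∩ At := by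
      intro y hy
      obtain ⟨r, hr, rfl⟩ := mem_image.1 hy
      rw [mem_range] at hr
      have hr' : r < L lam := lt_of_lt_of_le hr (Nat.div_mul_le_self _ _)
      refine mem_inter.2 ⟨ho _ _ hr', (hmem _).2 ⟨(lam, r / m), (hS _).2 ?_, r % m,
        Nat.mod_lt _ hm, ?_⟩⟩
      · have : r / m < L lam / m := (Nat.div_lt_iff_lt_mul hm).2 hr
        exact le_trans (Nat.mul_le_mul_right m this) (Nat.div_mul_le_self _ _)
      · simp only [hA]
        rw [Nat.div_add_mod']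
    have hc : ((range (L lam / m * m)).image (o lam)).card = L lam / m * m := by
      rw [card_image_of_injOn, card_range]
      intro p hp q hq h
      rw [mem_coe, mem_range] at hp hq
      exact hinj lam p (lt_of_lt_of_le hp (Nat.div_mul_le_self _ _)) q
        (lt_of_lt_of_le hq (Nat.div_mul_le_self _ _)) h
    have h3 := card_le_card hsub
    have h4 := card_sdiff_add_card_inter (C lam) At
    have h5 := hL lam
    have h6 := Nat.div_add_mod' (L lam) m
    have h7 := Nat.mod_lt (L lam) hm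
    omega
  have hZc : Z.card ≤ D + K ^ 2 * m := by
    have hsub : Z ⊆ Y.filter (fun y => ∃ v ∈ τ y, ¬ G.Adj y v) ∪
        (H ×ˢ H).biUnion fun x => C s(x.1, x.2) \ At := by
      intro y hy
      obtain ⟨hy1, hy2⟩ := mem_sdiff.1 hy
      by_cases hb : ∃ v ∈ τ y, ¬ G.Adj y v
      · exact mem_union_left _ (mem_filter.2 ⟨hy1, hb⟩)
      · refine mem_union_right _ ?_
        push Not at hb
        have hh := hcs.hubs y hy1
        have hy3 : y ∈ C (τ y) := (hC _ _).2 ⟨hy1, rfl, hb⟩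
        revert hh hy3
        induction τ y using Sym2.ind with
        | _ a b =>
          intro hh hy3
          exact mem_biUnion.2 ⟨(a, b), mem_product.2 ⟨hh a (by simp), hh b (by simp)⟩,
            mem_sdiff.2 ⟨hy3, hy2⟩⟩
    refine le_trans (card_le_card hsub) (le_trans (card_union_le _ _) (add_le_add ?_ ?_))
    · rw [← num_eq]
      exact hD
    · refine le_trans (card_biUnion_le_card_mul _ _ m fun x _ => hleft _) ?_
      rw [card_product, sq]
      exact Nat.mul_le_mul_right m (Nat.mul_le_mul hK hK)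
  refine ⟨hAinj, ?_, ?_, ?_, ?_, ?_⟩
  · intro i hi j hj p hp h
    have h0 := hAC j hj 0 hm
    exact hcs.disj _ (hAC i hi p hp).1 (hcs.hubs _ h0.1 _ (by rw [h0.2.1]; exact h))
  · intro i hi
    have h0 := hAC i hi 0 hm
    rw [← h0.2.1]
    exact hcs.nd _ h0.1
  · intro i hi p hp a ha
    exact (hAC i hi p hp).2.2 a ha
  · have h3 := hcs.cover
    have h4 : Y.card ≤ Z.card + At.card := card_le_card_sdiff_add_card
    omega
  · -- the four kinds of new exceptional pairs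
    set E2 : V → V → Prop := fun u v => u ∈ Z ∧ ∀ a ∈ τ u, G.Adj v a with hE2
    set E3 : V → V → Prop := fun u v => ∃ i ∈ S, u = A i (m - 1) ∧ v = A i m with hE3
    set E4 : V → V → Prop := fun u v => u ∈ Z ∧ v ∈ τ u with hE4
    have c1 := h1 V G hP Z
    have c2 : cnt G E2 ≤ 2 * Z.card := by
      refine cnt_two G Z _ fun u hu => ?_
      have huY := (mem_sdiff.1 hu).1
      have hh := hcs.hubs u huY
      have hn := hcs.nd u huY
      have hd := hcs.disj u huY
      revert hh hn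
      induction τ u using Sym2.ind with
      | _ a b =>
        intro hh hn
        have hab : a ≠ b := by simpa using hn
        have hau : a ≠ u := fun e => hd (e ▸ hh a (by simp))
        have hbu : b ≠ u := fun e => hd (e ▸ hh b (by simp))
        refine le_trans (num_mono ?_) (h2 V G hP a b u hab hau hbu)
        intro v hv hp
        exact ⟨hv, hp.2 a (by simp), hp.2 b (by simp), hp.1.symm⟩
    have c3 : cnt G E3 ≤ S.card := cnt_param G S _ _
    have c4 : cnt G E4 ≤ 2 * Z.card :=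
      cnt_two G Z _ fun u _ => le_trans (num_mono fun v hv hp => ⟨hv, hp.2⟩) (num_mem_le (τ u))
    set E : V → V → Prop := fun u v => E2 u v ∨ E3 u v ∨ E4 u v with hE
    have cE : cnt G E ≤ 4 * Z.card + S.card := by
      have a1 := cnt_or_le G E2 fun u v => E3 u v ∨ E4 u v
      have a2 := cnt_or_le G E3 E4
      simp only [hE]
      omega
    have cE' : cnt G (fun u v => E v u) ≤ 4 * Z.card + S.card := by
      rw [← cnt_swap]
      exact cE
    -- consecutive vertices of one list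
    have hnext : ∀ i ∈ S, ∀ j ∈ S, ∀ p < m, ∀ q < m, i.1 = j.1 →
        j.2 * m + q = i.2 * m + p + 1 → Reg S m A Prod.fst (A i p) (A j q) ∨ E (A i p) (A j q) := by
      intro i hi j hj p hp q hq e h
      have hv : A j q = A i (p + 1) := by
        simp only [hA]
        rw [h, e, add_assoc]
      by_cases hp1 : p + 1 < m
      · exact Or.inl ⟨i, hi, p, hp, rfl, Or.inr ⟨hp1, hv⟩⟩
      · have e1 : p = m - 1 := by omega
        have e2 : p + 1 = m := by omega
        exact Or.inr (Or.inr (Or.inl ⟨i, hi, by rw [e1], by rw [hv, e2]⟩))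
    have hhub : ∀ u v, u ∈ Y → v ∈ τ u → Reg S m A Prod.fst u v ∨ E u v := by
      intro u v hu hv
      by_cases ha : u ∈ At
      · obtain ⟨i, hi, p, hp, rfl⟩ := (hmem u).1 ha
        exact Or.inl ⟨i, hi, p, hp, rfl, Or.inl ((hAC i hi p hp).2.1 ▸ hv)⟩
      · exact Or.inr (Or.inr (Or.inr ⟨mem_sdiff.2 ⟨hu, ha⟩, hv⟩))
    have hmix : ∀ u v, u ∈ Y → u ∉ At → v ∈ At → τ u = τ v → E u v := by
      intro u v hu ha hv e
      obtain ⟨i, hi, p, hp, rfl⟩ := (hmem v).1 hv
      refine Or.inl ⟨mem_sdiff.2 ⟨hu, ha⟩, ?_⟩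
      rw [e, (hAC i hi p hp).2.1]
      exact (hAC i hi p hp).2.2
    have key : cnt G (fun u v => ¬ (Reg S m A Prod.fst u v ∨ Reg S m A Prod.fst v u)) ≤
        cnt G (fun u v => ¬ ((u ∈ Y ∧ v ∈ Y ∧ τ u = τ v) ∨ (u ∈ Y ∧ v ∈ τ u) ∨
          (v ∈ Y ∧ u ∈ τ v)) ∨ (u ∈ Z ∧ v ∈ Z) ∨ E u v ∨ E v u) := by
      refine cnt_mono fun u v huv hn => ?_
      rw [not_or] at hn
      by_cases hr : (u ∈ Y ∧ v ∈ Y ∧ τ u = τ v) ∨ (u ∈ Y ∧ v ∈ τ u) ∨ (v ∈ Y ∧ u ∈ τ v)
      · refine Or.inr ?_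
        rcases hr with ⟨hu, hv, e⟩ | ⟨hu, hv⟩ | ⟨hv, hu⟩
        · have et := e
          by_cases ha : u ∈ At <;> by_cases hb : v ∈ At
          · obtain ⟨i, hi, p, hp, rfl⟩ := (hmem u).1 ha
            obtain ⟨j, hj, q, hq, rfl⟩ := (hmem v).1 hb
            have eij : i.1 = j.1 := by rw [← (hAC i hi p hp).2.1, et, (hAC j hj q hq).2.1]
            have hj' := hlt j hj q hq
            have h' : G.Adj (o i.1 (i.2 * m + p)) (o i.1 (j.2 * m + q)) := by
              simp only [hA] at huv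
              rw [← eij] at huv
              exact huv
            rw [← eij] at hj'
            rcases hadj _ _ (hlt i hi p hp) _ hj' h' with h | h
            · exact Or.inr (Or.inl ((hnext i hi j hj p hp q hq eij h).resolve_left hn.1))
            · exact Or.inr (Or.inr ((hnext j hj i hi q hq p hp eij.symm h).resolve_left hn.2))
          · exact Or.inr (Or.inr (hmix v u hv hb ha et.symm))
          · exact Or.inr (Or.inl (hmix u v hu ha hb et))
          · exact Or.inl ⟨mem_sdiff.2 ⟨hu, ha⟩, mem_sdiff.2 ⟨hv, hb⟩⟩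
        · exact Or.inr (Or.inl ((hhub u v hu hv).resolve_left hn.1))
        · exact Or.inr (Or.inr ((hhub v u hv hu).resolve_left hn.2))
      · exact Or.inl hr
    have a1 := cnt_or_le G (fun u v => ¬ ((u ∈ Y ∧ v ∈ Y ∧ τ u = τ v) ∨ (u ∈ Y ∧ v ∈ τ u) ∨
      (v ∈ Y ∧ u ∈ τ v))) fun u v => (u ∈ Z ∧ v ∈ Z) ∨ E u v ∨ E v u
    have a2 := cnt_or_le G (fun u v => u ∈ Z ∧ v ∈ Z) fun u v => E u v ∨ E v u
    have a3 := cnt_or_le G E fun u v => E v u
    have a4 := hcs.exc
    omega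

end Mod

theorem modl2 (h1 : SparseStmt) (h2 : TwoStmt) (h3 : OrderStmt) (V : Type) [Fintype V]
    (G : SimpleGraph V) (H Y : Finset V) (τ : V → Sym2 V) (X D K m : ℕ) (hP : IsPlanar G)
    (hcs : CS2 G H Y τ X) (hK : H.card ≤ K)
    (hD : num Y (fun y => ∃ v ∈ τ y, ¬ G.Adj y v) ≤ D) (hm : 0 < m) :
    ∃ (S : Finset (Sym2 V × ℕ)) (A : Sym2 V × ℕ → ℕ → V),
      MOD G S m A Prod.fst (X + 16 * (D + K ^ 2 * m) + 2 * S.card) ∧
      ∀ i ∈ S, ∀ a ∈ i.1, a ∈ H := by
  classical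
  set C : Sym2 V → Finset V := fun lam => Y.filter fun y => τ y = lam ∧ ∀ a ∈ lam, G.Adj y a
    with hCd
  have hC : ∀ lam y, y ∈ C lam ↔ y ∈ Y ∧ τ y = lam ∧ ∀ a ∈ lam, G.Adj y a := by
    intro lam y
    simp only [hCd, mem_filter]
  have hord : ∀ lam, ∃ (L : ℕ) (o : ℕ → V), (C lam).card ≤ L + 1 ∧ (∀ p < L, o p ∈ C lam) ∧
      (∀ p < L, ∀ q < L, o p = o q → p = q) ∧
      ∀ p < L, ∀ q < L, G.Adj (o p) (o q) → q = p + 1 ∨ p = q + 1 := by
    intro lam
    induction lam using Sym2.ind with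
    | _ a b =>
      by_cases hab : a = b
      · refine ⟨0, fun _ => a, ?_, by simp, by simp, by simp⟩
        have : C s(a, b) = ∅ := by
          refine eq_empty_of_forall_notMem fun y hy => ?_
          obtain ⟨hy1, hy2, -⟩ := (hC _ _).1 hy
          exact hcs.nd y hy1 (by rw [hy2]; simpa using hab)
        simp [this]
      · refine h3 V G hP a b _ hab fun y hy => ?_
        obtain ⟨-, -, hy3⟩ := (hC _ _).1 hy
        exact ⟨hy3 a (by simp), hy3 b (by simp)⟩
  choose L o hL ho hinj hadj using hord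
  refine ⟨(univ ×ˢ range (univ.sup L)).filter fun i => (i.2 + 1) * m ≤ L i.1, _,
    Mod.core2 h1 h2 hP hcs hK hD hm C hC L o hL ho hinj hadj _ fun i => ?_, fun i hi a ha => ?_⟩
  swap
  · have h5 : 0 < (i.2 + 1) * m := Nat.mul_pos (by omega) hm
    obtain ⟨k1, k2, -⟩ := (hC _ _).1 (ho i.1 0 (h5.trans_le (mem_filter.1 hi).2))
    exact hcs.hubs _ k1 a (by rw [k2]; exact ha)
  simp only [mem_filter, mem_product, mem_univ, true_and, mem_range, and_iff_right_iff_imp]
  intro h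
  have h4 : L i.1 ≤ univ.sup L := le_sup (f := L) (mem_univ _)
  have h5 : i.2 + 1 ≤ (i.2 + 1) * m := Nat.le_mul_of_pos_right _ hm
  omega

end Pool.Agent.Lib.MP_453ac3_co.LB
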