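import Pool.Agent.Lib.MP_453ac3_co.Eff.Stab
import Pool.Agent.Lib.MP_453ac3_co.Eff.Five
import Pool.Agent.Lib.MP_453ac3_co.Eff.Mod2

/-! The lower bound with a square root error term. -/

namespace Pool.Agent.Lib.MP_453ac3_co.LB

open Finset

namespace Lev

variable {V : Type} [Fintype V] {G : SimpleGraph V} {η : Fin 5 → V}

theorem cs2 [DecidableEq V] (hG : IsPlanar G) (hη : Function.Injective η)
    (hM : num univ (· ∈ XX G η) ≤ 4 * 10 ^ 7) :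
    ∃ (Y : Finset V) (τ : V → Sym2 V), CS2 G (univ.image η) Y τ (10 ^ 16) ∧
      ∀ y ∈ Y, ∀ a ∈ τ y, G.Adj y a := by
  classical
  obtain ⟨Y, hY⟩ : ∃ Y : Finset V, ∀ v, v ∈ Y ↔ v ∉ Set.range η ∧ ∃ j k, j ≠ k ∧
      G.Adj v (η j) ∧ G.Adj v (η k) ∧ ∀ h, G.Adj v (η h) → h = j ∨ h = k :=
    ⟨univ.filter fun v => v ∉ Set.range η ∧ ∃ j k, j ≠ k ∧
      G.Adj v (η j) ∧ G.Adj v (η k) ∧ ∀ h, G.Adj v (η h) → h = j ∨ h = k,
      fun v => by simp only [mem_filter, mem_univ, true_and]⟩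
  have hτ : ∀ v, ∃ e : Sym2 V, v ∈ Y → ∃ j k, j ≠ k ∧ e = s(η j, η k) ∧
      G.Adj v (η j) ∧ G.Adj v (η k) ∧ ∀ h, G.Adj v (η h) → h = j ∨ h = k := fun v => by
    by_cases h : v ∈ Y
    · obtain ⟨j, k, h1, h2⟩ := ((hY v).1 h).2
      exact ⟨_, fun _ => ⟨j, k, h1, rfl, h2⟩⟩
    · exact ⟨s(v, v), fun k => absurd k h⟩
  choose τ hτ using hτ
  have c3 : num univ (fun v => ∃ p : Fin 5 × Fin 5 × Fin 5, p.1 ≠ p.2.1 ∧ p.1 ≠ p.2.2 ∧
      p.2.1 ≠ p.2.2 ∧ G.Adj v (η p.1) ∧ G.Adj v (η p.2.1) ∧ G.Adj v (η p.2.2)) ≤ 250 := by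
    refine (num_ex univ _ 2 fun p => ?_).trans (by simp)
    by_cases h : p.1 ≠ p.2.1 ∧ p.1 ≠ p.2.2 ∧ p.2.1 ≠ p.2.2
    · exact le_trans (num_mono fun v hv k => ⟨hv, k.2.2.2⟩)
        (two V G hG _ _ _ (hη.ne h.1) (hη.ne h.2.1) (hη.ne h.2.2))
    · rw [num_zero _ _ fun v hv => h ⟨hv.1, hv.2.1, hv.2.2.1⟩]
      omega
  have cW : num univ (fun v => v ∉ Set.range η ∧ v ∉ Y) ≤ 4 * 10 ^ 7 + 250 := by
    refine le_trans (num_mono fun v hv h => ⟨hv, ?_⟩)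
      ((num_or_le univ _ _).trans (add_le_add hM c3))
    by_cases h' : v ∈ XX G η
    · exact Or.inl h'
    obtain ⟨j, k, h1, h2, h3⟩ := not_not.1 fun k => h' ⟨h.1, k⟩
    obtain ⟨l, h4, h5⟩ : ∃ l, G.Adj v (η l) ∧ ¬ (l = j ∨ l = k) := by
      by_contra hc
      exact h.2 ((hY v).2 ⟨h.1, j, k, h1, h2, h3, fun l hl => by_contra fun e => hc ⟨l, hl, e⟩⟩)
    exact Or.inr ⟨(j, k, l), h1, fun e => h5 (Or.inl e.symm), fun e => h5 (Or.inr e.symm),
      h2, h3, h4⟩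
  have cd : ∀ u, u ∉ Set.range η → num univ (fun v => G.Adj u v ∧ True) ≤ 4 * 10 ^ 7 + 305 := by
    intro u hu
    have h1 := num_ex univ (fun (p : Fin 5 × Fin 5) v => p.1 ≠ p.2 ∧ G.Adj v (η p.1) ∧
      G.Adj v (η p.2) ∧ G.Adj v u) 2 fun p => by
        by_cases h : p.1 = p.2
        · rw [num_zero _ _ fun v hv => hv.1 h]
          omega
        · exact le_trans (num_mono fun v hv k => ⟨hv, k.2⟩)
            (two V G hG _ _ _ (hη.ne h) (fun e => hu ⟨_, e⟩) fun e => hu ⟨_, e⟩)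
    simp only [Fintype.card_prod, Fintype.card_fin] at h1
    have h2 := num_or_le univ (fun v => v ∉ Set.range η ∧ v ∉ Y) fun v =>
      ∃ p : Fin 5 × Fin 5, p.1 ≠ p.2 ∧ G.Adj v (η p.1) ∧ G.Adj v (η p.2) ∧ G.Adj v u
    have h3 := num_or_le univ (fun v => v ∈ Set.range η) fun v => (v ∉ Set.range η ∧ v ∉ Y) ∨
      ∃ p : Fin 5 × Fin 5, p.1 ≠ p.2 ∧ G.Adj v (η p.1) ∧ G.Adj v (η p.2) ∧ G.Adj v u
    have h4 := num_range (η := η)
    refine le_trans (num_mono fun v hv h => ⟨hv, ?_⟩) (h3.trans (by omega))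
    by_cases k1 : v ∈ Set.range η
    · exact Or.inl k1
    by_cases k2 : v ∈ Y
    · obtain ⟨j, k, a1, -, a2, a3, -⟩ := hτ v k2
      exact Or.inr (Or.inr ⟨(j, k), a1, a2, a3, h.1.symm⟩)
    · exact Or.inr (Or.inl ⟨k1, k2⟩)
  obtain ⟨B, hB⟩ : ∃ B : V → Prop, ∀ u, B u ↔ (u ∉ Set.range η ∧ u ∉ Y) ∨
      ∃ p : Fin 5 × Fin 5, p.1 ≠ p.2 ∧ u ∈ YY G η p.1 p.2 ∧ u ∉ PP G η p.1 p.2 0 ∧
        ∃ x ∈ AA G η p.1 p.2 0, G.Adj x u := ⟨_, fun _ => Iff.rfl⟩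
  have cB : num univ B ≤ 4 * 10 ^ 7 + 500 := by
    have h1 := num_ex univ (fun (p : Fin 5 × Fin 5) u => p.1 ≠ p.2 ∧ u ∈ YY G η p.1 p.2 ∧
      u ∉ PP G η p.1 p.2 0 ∧ ∃ x ∈ AA G η p.1 p.2 0, G.Adj x u) 10 fun p => by
        by_cases h : p.1 = p.2
        · rw [num_zero _ _ fun v hv => hv.1 h]
          omega
        · exact le_trans (num_mono fun v hv k => ⟨hv, k.2⟩) (new_le hG hη h 0)
    simp only [Fintype.card_prod, Fintype.card_fin] at h1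
    rw [num_congr fun v _ => hB v]
    exact (num_or_le univ _ _).trans (by omega)
  have cE : cnt G (fun u _ => B u ∧ True) ≤ (4 * 10 ^ 7 + 500) * (4 * 10 ^ 7 + 305) :=
    (cnt_le_mul G B (fun _ _ => True) _ fun u hu => cd u (by
      rcases (hB u).1 hu with h | ⟨p, -, h, -⟩
      exacts [h.1, h.2.2])).trans (Nat.mul_le_mul_right _ cB)
  have cH : cnt G (fun u v => u ∈ Set.range η ∧ v ∈ Set.range η) ≤ 5 * 5 :=
    (cnt_le_mul G _ _ 5 fun u _ => le_trans (num_mono fun v hv k => ⟨hv, k.2⟩) num_range).trans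
      (Nat.mul_le_mul_right _ num_range)
  have hub : ∀ u ∈ Y, ∀ v ∈ Set.range η, G.Adj u v → v ∈ τ u := by
    rintro u hu _ ⟨h, rfl⟩ huv
    obtain ⟨j, k, -, a1, -, -, a2⟩ := hτ u hu
    rw [a1]
    rcases a2 h huv with rfl | rfl <;> simp
  refine ⟨Y, τ, ⟨fun y hy h => ?_, ?_, fun y hy a ha => ?_, fun y hy => ?_, ?_⟩,
    fun y hy a ha => ?_⟩
  · obtain ⟨k, -, hk⟩ := mem_image.1 h
    exact ((hY y).1 hy).1 ⟨k, hk⟩
  · have h1 := num_add_not univ (· ∈ Y)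
    have h2 : num univ (· ∈ Y) ≤ Y.card :=
      le_trans (num_mono (Q := fun _ => True) fun v _ h => ⟨h, trivial⟩) (num_le_card _ _)
    have h3 := num_split univ (fun v => ¬ v ∈ Y) (· ∈ Set.range η)
    have h4 : num univ (fun v => ¬ v ∈ Y ∧ v ∈ Set.range η) ≤ 5 :=
      le_trans (num_mono fun v hv h => ⟨hv, h.2⟩) num_range
    have h5 : num univ (fun v => ¬ v ∈ Y ∧ ¬ v ∈ Set.range η) ≤ 4 * 10 ^ 7 + 250 :=
      le_trans (num_mono fun v hv h => ⟨hv, h.2, h.1⟩) cW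
    rw [card_univ] at h1
    omega
  · obtain ⟨j, k, -, a1, -⟩ := hτ y hy
    rw [a1, Sym2.mem_iff] at ha
    rcases ha with rfl | rfl <;> exact mem_image_of_mem _ (mem_univ _)
  · obtain ⟨j, k, a0, a1, -⟩ := hτ y hy
    rw [a1, Sym2.mk_isDiag_iff]
    exact hη.ne a0
  · have h1 := cnt_or_le G (fun u _ => B u ∧ True) fun u v => (B v ∧ True) ∨
      (u ∈ Set.range η ∧ v ∈ Set.range η)
    have h2 := cnt_or_le G (fun _ v => B v ∧ True) fun u v => u ∈ Set.range η ∧ v ∈ Set.range η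
    have h3 := cnt_swap G fun u _ => B u ∧ True
    refine le_trans (cnt_mono fun u v huv hn => ?_) (h1.trans (by omega))
    rw [not_or, not_or] at hn
    by_cases u1 : u ∈ Y <;> by_cases v1 : v ∈ Y
    · obtain ⟨j, k, a0, a1, a2, a3, -⟩ := hτ u u1
      obtain ⟨j', k', b0, b1, b2, b3, b4⟩ := hτ v v1
      have hne : ¬ ((j = j' ∧ k = k') ∨ (j = k' ∧ k = j')) := by
        rintro (⟨rfl, rfl⟩ | ⟨rfl, rfl⟩)
        · exact hn.1 ⟨u1, v1, a1.trans b1.symm⟩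
        · exact hn.1 ⟨u1, v1, a1.trans (Sym2.eq_swap.trans b1.symm)⟩
      have hv0 := ((hY v).1 v1).1
      have hvy : v ∉ YY G η j k := fun h => by
        have e1 := b4 j h.1
        have e2 := b4 k h.2.1
        omega
      have hvp : v ∈ PP G η j k 0 := ⟨fun e => hv0 ⟨j, e.symm⟩, fun e => hv0 ⟨k, e.symm⟩, hvy⟩
      have hva : v ∈ AA G η j k 0 := by
        by_cases h : j' ≠ j ∧ j' ≠ k
        · exact aa_step (aa_hub h.1 h.2 0) b2.symm hvp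
        · exact aa_step (aa_hub (h := k') (by omega) (by omega) 0) b3.symm hvp
      have huy : u ∈ YY G η j k := ⟨a2, a3, ((hY u).1 u1).1⟩
      exact Or.inl ⟨(hB u).2 (Or.inr ⟨(j, k), a0, huy, fun h => h.2.2 huy, v, hva, huv.symm⟩),
        trivial⟩
    · exact Or.inr (Or.inl ⟨(hB v).2 (Or.inl
        ⟨fun h => hn.2.1 ⟨u1, hub u u1 v h huv⟩, v1⟩), trivial⟩)
    · exact Or.inl ⟨(hB u).2 (Or.inl ⟨fun h => hn.2.2 ⟨v1, hub v v1 u h huv.symm⟩, u1⟩), trivial⟩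
    · by_cases u2 : u ∈ Set.range η
      · by_cases v2 : v ∈ Set.range η
        · exact Or.inr (Or.inr ⟨u2, v2⟩)
        · exact Or.inr (Or.inl ⟨(hB v).2 (Or.inl ⟨v2, v1⟩), trivial⟩)
      · exact Or.inl ⟨(hB u).2 (Or.inl ⟨u2, u1⟩), trivial⟩
  · obtain ⟨j, k, -, a1, a2, a3, -⟩ := hτ y hy
    rw [a1, Sym2.mem_iff] at ha
    rcases ha with rfl | rfl
    exacts [a2, a3]

end Lev

theorem lowerNat : ∃ n0 : ℕ, ∀ (V : Type) [Fintype V] (G : SimpleGraph V),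
    n0 ≤ Fintype.card V → IsPlanar G → PathPairable G →
    ∃ v, 4 * Fintype.card V ≤ 9 * dg G v + 3 * 10 ^ 9 * (Nat.sqrt (Fintype.card V) + 1) := by
  obtain ⟨n0, h0⟩ := five
  refine ⟨n0 + 10 ^ 32, fun V _ G hn hp hpp => ?_⟩
  classical
  have : Nonempty V := Fintype.card_pos_iff.1 (by omega)
  obtain ⟨v, -, hv⟩ := exists_max_image univ (dg G) univ_nonempty
  refine ⟨v, ?_⟩
  by_cases hD : 4 * Fintype.card V ≤ 9 * dg G v
  · omega
  have hD' : ∀ w, 9 * dg G w ≤ 4 * Fintype.card V := fun w => by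
    have := hv w (mem_univ _)
    omega
  obtain ⟨η, hη, h1⟩ := h0 V G (by omega) hp hpp hD'
  have hM := Lev.stab hp hpp hη hD' (by omega)
    (le_trans (Nat.mul_le_mul_left _ (num_mono fun x hx h => ⟨hx, h.2⟩)) h1)
  obtain ⟨Y, τ, hcs, hadj⟩ := Lev.cs2 hp hη hM
  obtain ⟨m', hm⟩ : ∃ m', m' = Nat.sqrt (Fintype.card V) + 1 := ⟨_, rfl⟩
  have s1 : Fintype.card V < m' * m' := hm ▸ Nat.lt_succ_sqrt _
  have s2 : m' * m' ≤ Fintype.card V + 2 * m' := by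
    have := Nat.sqrt_le (Fintype.card V)
    rw [hm]
    nlinarith
  have s3 : 10 ^ 16 ≤ m' := by
    by_contra hc
    have a1 : m' * m' ≤ 10 ^ 16 * 10 ^ 16 := Nat.mul_le_mul (not_le.1 hc).le (not_le.1 hc).le
    norm_num at a1
    omega
  rw [← hm]
  obtain ⟨S, A, hmod, hin⟩ := modl2 (sparse mader) two (order mader two) V G _ Y τ _ 0 5 (32 * m')
    hp hcs (card_image_le.trans (by simp))
    (not_lt.1 fun h => by
      obtain ⟨y, hy, a, ha, h⟩ := num_pos.1 h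
      exact h (hadj y hy a ha)) (by omega)
  have e1 : S.card * (32 * m') ≤ Fintype.card V := by
    have e0 : num (S ×ˢ range (32 * m')) (fun _ => True) = S.card * (32 * m') := by
      rw [num_eq]
      simp
    rw [← e0]
    refine le_trans (num_le_of_injOn (S' := univ) (Q := fun _ => True) (fun x => A x.1 x.2)
      (fun x _ _ => ⟨mem_univ _, trivial⟩) ?_) (num_le_card _ _)
    intro x hx _ y hy _ h
    obtain ⟨hx1, hx2⟩ := mem_product.1 hx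
    obtain ⟨hy1, hy2⟩ := mem_product.1 hy
    obtain ⟨a1, a2⟩ := hmod.inj _ hx1 _ hy1 _ (mem_range.1 hx2) _ (mem_range.1 hy2) h
    exact Prod.ext a1 a2
  have hm0 : 0 < m' := by omega
  have e2 : S.card ≤ m' := by
    refine Nat.le_of_mul_le_mul_right ?_ hm0
    nlinarith
  have e3 := hmod.cover
  have e4 : m' ≤ 32 * S.card + 12805 := by
    refine Nat.le_of_mul_le_mul_right ?_ hm0
    nlinarith
  obtain ⟨g1, -, g3⟩ := gamma V _ G S _ A _ _ hp hmod (by omega)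
  have hML := ml pathSys walkl total gadget V _ G S m' A _ _ 320075 hpp hmod hm0 (by omega)
  obtain ⟨i, j, hij, hno⟩ : ∃ i j, i ≠ j ∧ ∀ k ∈ S, k.1 ≠ s(η i, η j) := by
    by_contra hc
    push Not at hc
    exact g1 ⟨η, hc⟩
  obtain ⟨σ, σ0, σ1⟩ : ∃ σ : Equiv.Perm (Fin 5), σ 0 = i ∧ σ 1 = j := by
    refine ⟨Equiv.swap (Equiv.swap 0 i 1) j * Equiv.swap 0 i, ?_, ?_⟩
    · rw [Equiv.Perm.mul_apply, Equiv.swap_apply_left]
      refine Equiv.swap_apply_of_ne_of_ne (fun e => ?_) hij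
      have := (Equiv.swap 0 i).injective ((Equiv.swap_apply_left 0 i).trans e)
      exact absurd this (by decide)
    · rw [Equiv.Perm.mul_apply, Equiv.swap_apply_left]
  have e5 := Nat.div_mul_le_self (dg G v) (32 * m')
  have e6 : 40000 * m' ≤ S.card * m' := Nat.mul_le_mul_right _ (by omega)
  have fin := bip mlx (plan multi) V _ S Prod.fst 320075 (dg G v / (32 * m')) (η ∘ σ) hML
    (hη.comp σ.injective) hmod.nd
    (fun k hk a ha => by
      obtain ⟨l, -, rfl⟩ := mem_image.1 (hin k hk a ha)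
      exact ⟨σ.symm l, by simp⟩)
    (fun k hk => by simpa [σ0, σ1] using hno k hk)
    (fun u => (Nat.le_div_iff_mul_le (by omega)).2
      (by rw [mul_comm]; exact (g3 u).trans (hv u (mem_univ _))))
    (by
      refine Nat.le_of_mul_le_mul_right ?_ (show 0 < 32 * m' by omega)
      nlinarith)
    (by omega)
  have e7 := Nat.mul_le_mul_right (32 * m') fin
  nlinarith

end Pool.Agent.Lib.MP_453ac3_co.LB
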