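import Pool.Agent.Lib.MP_453ac3_co.Eff.LBf

/-! The strip model: positions along strips, classes of positions, free links inside a class. -/

namespace Pool.Agent.Lib.MP_453ac3_co.LB

open Finset

namespace LC

/-- the next position of a strip -/
def nxt {ι : Type} (x : ι × ℕ) : ι × ℕ := (x.1, x.2 + 1)

/-- the next position exists and has the same class -/
def Lk {ι Λ : Type} (T : Finset (ι × ℕ)) (cl : ι × ℕ → Λ) (x : ι × ℕ) : Prop :=
  nxt x ∈ T ∧ cl (nxt x) = cl x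

/-- `u` sits at a position and `v` is one of its hubs or the linked next vertex -/
def Rg {V ι Λ : Type} (T : Finset (ι × ℕ)) (B : ι × ℕ → V) (τ : ι × ℕ → Sym2 V)
    (cl : ι × ℕ → Λ) (u v : V) : Prop :=
  ∃ x ∈ T, u = B x ∧ (v ∈ τ x ∨ (Lk T cl x ∧ v = B (nxt x)))

/-- strip model -/
structure VM {V ι Λ : Type} [Fintype V] (G : SimpleGraph V) (T : Finset (ι × ℕ))
    (B : ι × ℕ → V) (τ : ι × ℕ → Sym2 V) (cl : ι × ℕ → Λ) (l : ι × ℕ → V → ℕ) (X : ℕ) :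
    Prop where
  inj : ∀ x ∈ T, ∀ y ∈ T, B x = B y → x = y
  nothub : ∀ x ∈ T, ∀ y ∈ T, B x ∉ τ y
  nd : ∀ x ∈ T, ¬ (τ x).IsDiag
  same : ∀ x ∈ T, ∀ y ∈ T, cl x = cl y → τ x = τ y ∧ ∀ a ∈ τ x, l x a = l y a
  exc : cnt G (fun u v => ¬ (Rg T B τ cl u v ∨ Rg T B τ cl v u)) ≤ X

open Classical in
/-- edge weights -/
noncomputable def w2 {V ι Λ : Type} [Fintype V] (T : Finset (ι × ℕ)) (B : ι × ℕ → V)
    (τ : ι × ℕ → Sym2 V) (cl : ι × ℕ → Λ) (l : ι × ℕ → V → ℕ) (e : Sym2 V) : ℕ :=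
  (if ∃ u v, e = s(u, v) ∧ ¬ (Rg T B τ cl u v ∨ Rg T B τ cl v u) then 24 else 0) +
    ∑ x ∈ T, ∑ a : V, if a ∈ τ x ∧ e = s(B x, a) then l x a else 0

theorem nxt_inj {ι : Type} {x y : ι × ℕ} (h : nxt x = nxt y) : x = y := by
  obtain ⟨h1, h2⟩ := Prod.mk.inj h
  exact Prod.ext h1 (by omega)

variable {V ι Λ : Type} [Fintype V] {G : SimpleGraph V} {T : Finset (ι × ℕ)} {B : ι × ℕ → V}
  {τ : ι × ℕ → Sym2 V} {cl : ι × ℕ → Λ} {l : ι × ℕ → V → ℕ} {X : ℕ} {ρ : V → V → ℕ}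
  {σ : ι × ℕ → ℕ}

theorem w_hub {x : ι × ℕ} (hx : x ∈ T) {a : V} (ha : a ∈ τ x) :
    l x a ≤ w2 T B τ cl l s(B x, a) := by
  classical
  unfold w2
  refine le_trans ?_ (Nat.le_add_left _ _)
  refine le_trans ?_ (single_le_sum (fun _ _ => Nat.zero_le _) hx)
  refine le_trans ?_ (single_le_sum (fun _ _ => Nat.zero_le _) (mem_univ a))
  rw [if_pos ⟨ha, rfl⟩]

theorem w_exc {x y : V} (h : ¬ (Rg T B τ cl x y ∨ Rg T B τ cl y x)) :
    24 ≤ w2 T B τ cl l s(x, y) := by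
  unfold w2
  refine le_trans ?_ (Nat.le_add_right _ _)
  rw [if_pos ⟨x, y, rfl, h⟩]

theorem pot (hM : VM G T B τ cl l X) (hρ : Met ρ) (hl : ∀ x ∈ T, Adm ρ (τ x) (l x) (σ x))
    (D : V → ℕ) (Z : Λ → Prop) (d1 : ∀ b b', D b ≤ D b' + ρ b' b) (d2 : ∀ b, D b ≤ 16)
    (d3 : ∀ j ∈ T, Z (cl j) → ∀ b ∈ τ j, D b ≤ l j b) :
    ∃ φ : V → ℕ, (∀ j ∈ T, ∀ h ∈ τ j, φ h = D h) ∧ (∀ j ∈ T, Z (cl j) → φ (B j) = 0) ∧
      (∀ j ∈ T, ¬ Z (cl j) → ∃ b ∈ τ j, φ (B j) = D b + l j b) ∧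
      ∀ u v (P : G.Walk u v), φ v ≤ φ u + (P.edges.map (w2 T B τ cl l)).sum := by
  classical
  obtain ⟨val, hval⟩ : ∃ val : ι × ℕ → ℕ, ∀ j, val j =
      if Z (cl j) then 0 else sInf {n | ∃ b ∈ τ j, n = D b + l j b} := ⟨_, fun _ => rfl⟩
  have v1 : ∀ j, Z (cl j) → val j = 0 := fun j h => by rw [hval, if_pos h]
  have v2 : ∀ j, ¬ Z (cl j) → ∃ b ∈ τ j, val j = D b + l j b := fun j h => by
    rw [hval, if_neg h]
    exact Nat.sInf_mem (s := {n | ∃ b ∈ τ j, n = D b + l j b}) ⟨_, _, Sym2.out_fst_mem _, rfl⟩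
  have v3 : ∀ j, ∀ b ∈ τ j, val j ≤ D b + l j b := fun j b hb => by
    rw [hval]
    split_ifs
    · exact Nat.zero_le _
    · exact Nat.sInf_le ⟨b, hb, rfl⟩
  have v5 : ∀ i ∈ T, ∀ j ∈ T, cl i = cl j → val i ≤ val j := fun i hi j hj e => by
    by_cases hz : Z (cl j)
    · rw [v1 i (e ▸ hz)]
      exact Nat.zero_le _
    · obtain ⟨b, hb, e1⟩ := v2 j hz
      obtain ⟨e2, e3⟩ := hM.same i hi j hj e
      have := v3 i b (e2 ▸ hb)
      rw [e3 b (e2 ▸ hb)] at this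
      omega
  have hφ : ∀ v, ∃ n, (∀ j ∈ T, v = B j → n = val j) ∧
      ((¬ ∃ j ∈ T, v = B j) → n = D v) := fun v => by
    by_cases h : ∃ j ∈ T, v = B j
    · obtain ⟨j, hj, e⟩ := h
      refine ⟨val j, fun j' hj' e' => ?_, fun h => absurd ⟨j, hj, e⟩ h⟩
      rw [hM.inj j hj j' hj' (e.symm.trans e')]
    · exact ⟨D v, fun j hj e => absurd ⟨j, hj, e⟩ h, fun _ => rfl⟩
  choose φ f1 f2 using hφ
  have g1 : ∀ j ∈ T, φ (B j) = val j := fun j hj => f1 _ j hj rfl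
  have g2 : ∀ j ∈ T, ∀ h ∈ τ j, φ h = D h := fun j hj h hh => f2 h (by
    rintro ⟨i, hi, rfl⟩
    exact hM.nothub i hi j hj hh)
  have g3 : ∀ v, φ v ≤ 24 := fun v => by
    by_cases h : ∃ j ∈ T, v = B j
    · obtain ⟨j, hj, rfl⟩ := h
      have a1 := v3 j _ (Sym2.out_fst_mem _)
      have a2 := d2 (τ j).out.1
      have a3 := (hl j hj).1 (τ j).out.1
      rw [g1 j hj]
      omega
    · have := d2 v
      rw [f2 v h]
      omega
  refine ⟨φ, g2, fun j hj hz => (g1 j hj).trans (v1 j hz),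
    fun j hj hz => g1 j hj ▸ v2 j hz, fun u v P => Walk.along φ _ (fun x y _ => ?_) P⟩
  by_cases h : Rg T B τ cl x y ∨ Rg T B τ cl y x
  swap
  · have a1 := w_exc (l := l) h
    have a2 := g3 y
    omega
  rcases h with ⟨j, hj, rfl, h | ⟨hp', rfl⟩⟩ | ⟨j, hj, rfl, h | ⟨hp', rfl⟩⟩
  · have a1 := w_hub (B := B) (cl := cl) (l := l) hj h
    rw [g2 j hj y h, g1 j hj]
    by_cases hz : Z (cl j)
    · have := d3 j hj hz y h
      omega
    · obtain ⟨b, hb, e⟩ := v2 j hz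
      have a2 := d1 y b
      have a3 := Walk.adm_le hρ (hl j hj) hb h
      omega
  · have := v5 _ hp'.1 j hj hp'.2
    rw [g1 j hj, g1 _ hp'.1]
    omega
  · have a1 := w_hub (B := B) (cl := cl) (l := l) hj h
    have a2 := v3 j x h
    rw [g2 j hj x h, g1 j hj, Sym2.eq_swap]
    omega
  · have := v5 j hj _ hp'.1 hp'.2.symm
    rw [g1 j hj, g1 _ hp'.1]
    omega

theorem fromHub (hM : VM G T B τ cl l X) (hρ : Met ρ) (hl : ∀ x ∈ T, Adm ρ (τ x) (l x) (σ x))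
    {i : ι × ℕ} (hi : i ∈ T) {a : V} (ha : a ∈ τ i) :
    (∀ j ∈ T, ∀ b ∈ τ j, ∀ P : G.Walk a b, ρ a b ≤ (P.edges.map (w2 T B τ cl l)).sum) ∧
    ∀ j ∈ T, ∀ P : G.Walk a (B j),
      ∃ b ∈ τ j, l j b ≤ (P.edges.map (w2 T B τ cl l)).sum := by
  obtain ⟨φ, f1, -, f3, f4⟩ := pot hM hρ hl (ρ a) (fun _ => False) (fun b b' => hρ.tri a b' b)
    (fun b => (hρ.bd a b).trans (by norm_num)) fun _ _ h => h.elim
  have e : φ a = 0 := (f1 i hi a ha).trans (hρ.refl a)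
  refine ⟨fun j hj b hb P => ?_, fun j hj P => ?_⟩
  · have := f4 _ _ P
    rw [e, f1 j hj b hb] at this
    omega
  · obtain ⟨b, hb, e'⟩ := f3 j hj not_false
    have := f4 _ _ P
    exact ⟨b, hb, by omega⟩

theorem fromAtom (hM : VM G T B τ cl l X) (hρ : Met ρ) (hl : ∀ x ∈ T, Adm ρ (τ x) (l x) (σ x))
    {i : ι × ℕ} (hi : i ∈ T) :
    (∀ j ∈ T, ∀ b ∈ τ j, ∀ P : G.Walk (B i) b,
      ∃ a ∈ τ i, l i a ≤ (P.edges.map (w2 T B τ cl l)).sum) ∧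
    ∀ j ∈ T, cl i ≠ cl j → ∀ P : G.Walk (B i) (B j),
      ∃ a ∈ τ i, ∃ b ∈ τ j, l i a + ρ a b + l j b ≤ (P.edges.map (w2 T B τ cl l)).sum := by
  have hD : ∀ h, ∃ n, (∃ a ∈ τ i, n = l i a + ρ a h) ∧ ∀ a ∈ τ i, n ≤ l i a + ρ a h := fun h =>
    ⟨sInf {n | ∃ a ∈ τ i, n = l i a + ρ a h},
      Nat.sInf_mem (s := {n | ∃ a ∈ τ i, n = l i a + ρ a h}) ⟨_, _, Sym2.out_fst_mem _, rfl⟩,
      fun a ha => Nat.sInf_le ⟨a, ha, rfl⟩⟩
  choose D D1 D2 using hD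
  obtain ⟨φ, f1, f2, f3, f4⟩ := pot hM hρ hl D (fun c => c = cl i)
    (fun b b' => by
      obtain ⟨a, ha, e⟩ := D1 b'
      have a1 := D2 b a ha
      have a2 := hρ.tri a b' b
      omega)
    (fun b => by
      obtain ⟨a, ha, e⟩ := D1 b
      have a1 := (hl i hi).1 a
      have a2 := hρ.bd a b
      omega)
    (fun j hj e b hb => by
      obtain ⟨e1, e2⟩ := hM.same j hj i hi e
      have a1 := D2 b b (e1 ▸ hb)
      rw [hρ.refl] at a1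
      rw [e2 b hb]
      exact a1)
  have e : φ (B i) = 0 := f2 i hi rfl
  refine ⟨fun j hj b hb P => ?_, fun j hj hij P => ?_⟩
  · obtain ⟨a, ha, e'⟩ := D1 b
    have := f4 _ _ P
    rw [e, f1 j hj b hb] at this
    exact ⟨a, ha, by omega⟩
  · obtain ⟨b, hb, e1⟩ := f3 j hj hij.symm
    obtain ⟨a, ha, e2⟩ := D1 b
    have := f4 _ _ P
    exact ⟨a, ha, b, hb, by omega⟩

theorem three (hM : VM G T B τ cl l X) (hρ : Met ρ) (hl : ∀ x ∈ T, Adm ρ (τ x) (l x) (σ x))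
    {i i' : ι × ℕ} (hi : i ∈ T) (hi' : i' ∈ T) {a b : V}
    (ha : a ∈ τ i) (hb : b ∈ τ i) (h1 : ∀ x ∈ τ i, l i x = 1) (h2 : ∀ x ∈ τ i', l i' x = 1)
    (h3 : 2 ≤ ρ a b) (P1 : G.Walk (B i) a) (P2 : G.Walk a b) (P3 : G.Walk b (B i')) :
    4 ≤ (P1.edges.map (w2 T B τ cl l)).sum + (P2.edges.map (w2 T B τ cl l)).sum +
      (P3.edges.map (w2 T B τ cl l)).sum := by
  obtain ⟨x, hx, a1⟩ := (fromAtom hM hρ hl hi).1 i hi a ha P1
  have a2 := (fromHub hM hρ hl hi ha).1 i hi b hb P2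
  obtain ⟨y, hy, a3⟩ := (fromHub hM hρ hl hi hb).2 i' hi' P3
  rw [h1 x hx] at a1
  rw [h2 y hy] at a3
  omega

theorem walk4 (hM : VM G T B τ cl l X) (hρ : Met ρ) (hl : ∀ x ∈ T, Adm ρ (τ x) (l x) (σ x))
    {i i' : ι × ℕ} (hi : i ∈ T) (hi' : i' ∈ T) (P : G.Walk (B i) (B i')) {a b : V}
    (e : τ i = s(a, b)) (h1 : ∀ x ∈ τ i, l i x = 1) (h2 : ∀ x ∈ τ i', l i' x = 1)
    (r1 : 2 ≤ ρ a b) (r2 : 2 ≤ ρ b a) (ha : a ∈ P.support) (hb : b ∈ P.support) :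
    4 ≤ (P.edges.map (w2 T B τ cl l)).sum := by
  have ma : a ∈ τ i := e ▸ Sym2.mem_mk_left a b
  have mb : b ∈ τ i := e ▸ Sym2.mem_mk_right a b
  obtain ⟨P1, P2, rfl⟩ := SimpleGraph.Walk.mem_support_iff_exists_append.1 ha
  rcases (SimpleGraph.Walk.mem_support_append_iff P1 P2).1 hb with h | h
  · obtain ⟨Q1, Q2, rfl⟩ := SimpleGraph.Walk.mem_support_iff_exists_append.1 h
    have := three hM hρ hl hi hi' mb ma h1 h2 r2 Q1 Q2 P2
    simp only [SimpleGraph.Walk.edges_append, List.map_append, List.sum_append]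
    omega
  · obtain ⟨Q1, Q2, rfl⟩ := SimpleGraph.Walk.mem_support_iff_exists_append.1 h
    have := three hM hρ hl hi hi' ma mb h1 h2 r1 P1 Q1 Q2
    simp only [SimpleGraph.Walk.edges_append, List.map_append, List.sum_append]
    omega

theorem total (hM : VM G T B τ cl l X) (hl : ∀ x ∈ T, Adm ρ (τ x) (l x) (σ x))
    (U : Finset (Sym2 V)) (hU : ∀ e ∈ U, e ∈ G.edgeSet) :
    ∑ e ∈ U, w2 T B τ cl l e + num T (fun x => ∃ a ∈ τ x, 1 ≤ l x a ∧ s(B x, a) ∉ U) ≤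
      24 * X + ∑ x ∈ T, σ x := by
  classical
  have a1 : num U (fun e => ∃ u v, e = s(u, v) ∧ ¬ (Rg T B τ cl u v ∨ Rg T B τ cl v u)) ≤ X := by
    refine le_trans ?_ hM.exc
    unfold cnt
    rw [num_eq, num_eq]
    refine le_trans (card_le_card ?_) (card_image_le (f := fun p : V × V => s(p.1, p.2)))
    intro e he
    obtain ⟨h1, u, v, rfl, h2⟩ := mem_filter.1 he
    exact mem_image.2 ⟨(u, v), mem_filter.2 ⟨mem_univ _, hU _ h1, h2⟩, rfl⟩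
  have a2 : ∑ e ∈ U, (if ∃ u v, e = s(u, v) ∧ ¬ (Rg T B τ cl u v ∨ Rg T B τ cl v u) then 24
      else 0) ≤ 24 * X := by
    refine le_trans (le_of_eq ?_) (Nat.mul_le_mul_left 24 a1)
    rw [num_eq_sum, mul_sum]
    exact sum_congr rfl fun e _ => by split_ifs <;> rfl
  have a3 : ∑ e ∈ U, ∑ x ∈ T, ∑ a : V, (if a ∈ τ x ∧ e = s(B x, a) then l x a else 0) =
      ∑ x ∈ T, ∑ a : V, if a ∈ τ x ∧ s(B x, a) ∈ U then l x a else 0 := by
    rw [sum_comm]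
    refine sum_congr rfl fun i _ => ?_
    rw [sum_comm]
    refine sum_congr rfl fun a _ => ?_
    by_cases h : a ∈ τ i <;> simp [h]
  have a4 : (∑ x ∈ T, ∑ a : V, if a ∈ τ x ∧ s(B x, a) ∈ U then l x a else 0) +
      num T (fun x => ∃ a ∈ τ x, 1 ≤ l x a ∧ s(B x, a) ∉ U) ≤ ∑ x ∈ T, σ x := by
    rw [num_eq_sum, ← sum_add_distrib]
    refine sum_le_sum fun x hx => ?_
    refine le_trans (le_of_eq ?_) (Walk.slot (hl x hx) fun a => s(B x, a) ∈ U)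
    congr!
  unfold w2
  rw [sum_add_distrib]
  have a5 := Nat.add_le_add a2 a4
  rw [← a3, ← add_assoc] at a5
  convert a5

theorem nbr (hM : VM G T B τ cl l X) {i : ι × ℕ} (hi : i ∈ T) {v : V}
    (h : Rg T B τ cl (B i) v ∨ Rg T B τ cl v (B i)) :
    v ∈ τ i ∨ (Lk T cl i ∧ v = B (nxt i)) ∨ ∃ y ∈ T, Lk T cl y ∧ i = nxt y ∧ v = B y := by
  rcases h with ⟨j, hj, h1, h2⟩ | ⟨j, hj, h1, h2 | ⟨h2, h3⟩⟩
  · obtain rfl := hM.inj i hi j hj h1
    exact h2.imp_right Or.inl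
  · exact absurd h2 (hM.nothub i hi j hj)
  · exact Or.inr (Or.inr ⟨j, hj, h2, hM.inj i hi _ h2.1 h3, h1⟩)

theorem parity (hM : VM G T B τ cl l X) {U : Finset (Sym2 V)} {i : ι × ℕ} (hi : i ∈ T)
    {a b : V} (hab : τ i = s(a, b))
    (hN : ∀ v, s(B i, v) ∈ U →
      v ∈ τ i ∨ (Lk T cl i ∧ v = B (nxt i)) ∨ ∃ y ∈ T, Lk T cl y ∧ i = nxt y ∧ v = B y)
    (ha : s(B i, a) ∈ U) (hb : s(B i, b) ∈ U) (hodd : Odd (num univ fun w => s(B i, w) ∈ U)) :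
    (Lk T cl i ∧ s(B i, B (nxt i)) ∈ U) ↔
      ¬ ∃ y ∈ T, Lk T cl y ∧ i = nxt y ∧ s(B i, B y) ∈ U := by
  classical
  rw [num_eq] at hodd
  have hne : a ≠ b := fun h => hM.nd i hi (by rw [hab, h]; exact Sym2.mk_isDiag_iff.2 rfl)
  have hA : ∀ y ∈ T, a ≠ B y ∧ b ≠ B y := fun y hy => by
    have h := hM.nothub y hy i hi
    rw [hab, Sym2.mem_iff, not_or] at h
    exact ⟨Ne.symm h.1, Ne.symm h.2⟩
  rw [hab] at hN
  simp only [Sym2.mem_iff] at hN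
  constructor
  · rintro ⟨h1, h2⟩ ⟨y, hy, h0, e, h3⟩
    have h4 : (univ.filter fun w => s(B i, w) ∈ U) = {a, b, B (nxt i), B y} := by
      ext w
      simp only [mem_filter, mem_univ, true_and, mem_insert, mem_singleton]
      constructor
      · intro hw
        rcases hN w hw with (h | h) | ⟨-, h⟩ | ⟨p, hp, -, e', h⟩
        · exact Or.inl h
        · exact Or.inr (Or.inl h)
        · exact Or.inr (Or.inr (Or.inl h))
        · obtain rfl : y = p := nxt_inj (e.symm.trans e')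
          exact Or.inr (Or.inr (Or.inr h))
      · rintro (rfl | rfl | rfl | rfl)
        exacts [ha, hb, h2, h3]
    have h5 : B (nxt i) ≠ B y := fun h => by
      have := congrArg Prod.snd (hM.inj _ h1.1 y hy h)
      rw [e] at this
      simp only [nxt] at this
      omega
    have h6 := hA _ h1.1
    have h7 := hA y hy
    rw [h4, card_insert_of_notMem (by simp [hne, h6.1, h7.1]),
      card_insert_of_notMem (by simp [h6.2, h7.2]), card_pair h5] at hodd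
    exact absurd hodd (by decide)
  · intro h1
    by_contra h2
    have h4 : (univ.filter fun w => s(B i, w) ∈ U) = {a, b} := by
      ext w
      simp only [mem_filter, mem_univ, true_and, mem_insert, mem_singleton]
      constructor
      · intro hw
        rcases hN w hw with h | ⟨h3, h⟩ | ⟨p, hp, h3, e, h⟩
        · exact h
        · exact absurd ⟨h3, h ▸ hw⟩ h2
        · exact absurd ⟨p, hp, h3, e, h ▸ hw⟩ h1
      · rintro (rfl | rfl)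
        exacts [ha, hb]
    rw [h4, card_pair hne] at hodd
    exact absurd hodd (by decide)

theorem unclean (hM : VM G T B τ cl l X) :
    num T (fun x => ∃ v, G.Adj (B x) v ∧
      ¬ (Rg T B τ cl (B x) v ∨ Rg T B τ cl v (B x))) ≤ X := by
  have h : ∀ x : ι × ℕ, ∃ v : V, (∃ v, G.Adj (B x) v ∧
      ¬ (Rg T B τ cl (B x) v ∨ Rg T B τ cl v (B x))) → G.Adj (B x) v ∧
      ¬ (Rg T B τ cl (B x) v ∨ Rg T B τ cl v (B x)) := fun x => by
    by_cases h : ∃ v, G.Adj (B x) v ∧ ¬ (Rg T B τ cl (B x) v ∨ Rg T B τ cl v (B x))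
    · obtain ⟨v, hv⟩ := h
      exact ⟨v, fun _ => hv⟩
    · exact ⟨B x, fun h' => absurd h' h⟩
  choose c hc using h
  refine le_trans (num_le_of_injOn (fun x => (B x, c x)) (fun x _ hx => ?_)
    fun x hx _ y hy _ e => ?_) hM.exc
  · exact ⟨mem_univ _, hc x hx⟩
  · exact hM.inj _ hx _ hy (Prod.mk.inj e).1

end LC

end Pool.Agent.Lib.MP_453ac3_co.LB
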