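import Pool.Agent.Lib.MP_453ac3_co.Eff.LC1

/-! The length inequality in the strip model. -/

namespace Pool.Agent.Lib.MP_453ac3_co.LB

open Finset MLa

namespace LC

/-- position `p` of the window starting at `x` -/
def sh {ι : Type} (x : ι × ℕ) (p : ℕ) : ι × ℕ := (x.1, x.2 + p)

theorem nxt_sh {ι : Type} (x : ι × ℕ) (p : ℕ) : nxt (sh x p) = sh x (p + 1) := rfl

variable {V ι Λ : Type} [Fintype V] {G : SimpleGraph V} {T : Finset (ι × ℕ)} {B : ι × ℕ → V}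
  {τ : ι × ℕ → Sym2 V} {cl : ι × ℕ → Λ} {l : ι × ℕ → V → ℕ} {X : ℕ} {ρ : V → V → ℕ}
  {σ : ι × ℕ → ℕ}

theorem vml (hPP : PathPairable G) (hM : VM G T B τ cl l X) (hρ : Met ρ)
    (hAdm : ∀ x ∈ T, Adm ρ (τ x) (l x) (σ x)) {ω : Type} (m' : ℕ) (bs : ω → ι × ℕ) (S : Finset ω)
    (τ0 : ω → Sym2 V) (l0 : ω → V → ℕ) (c0 : ω → Λ)
    (hw : ∀ w ∈ S, ∀ p < 32 * m', sh (bs w) p ∈ T ∧ cl (sh (bs w) p) = c0 w ∧
      τ (sh (bs w) p) = τ0 w ∧ l (sh (bs w) p) = l0 w)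
    (hdis : ∀ w ∈ S, ∀ w' ∈ S, ∀ p < 32 * m', ∀ p' < 32 * m',
      sh (bs w) p = sh (bs w') p' → w = w' ∧ p = p')
    {J K : Type} [Fintype J] [Fintype K] (f g : J → ω) (u : K × Fin 3 → ω) (cost : J → ℕ)
    (hinj : Function.Injective (Sum.elim (Sum.elim f g) u))
    (hf : ∀ j, f j ∈ S) (hg : ∀ j, g j ∈ S) (hu : ∀ k, u k ∈ S)
    (hfg : ∀ j, c0 (f j) ≠ c0 (g j)) (huu : ∀ k r, c0 (u (k, r)) ≠ c0 (u (k, r + 1)))
    (hcost : ∀ j, ∀ a ∈ τ0 (f j), ∀ b ∈ τ0 (g j), cost j ≤ l0 (f j) a + ρ a b + l0 (g j) b)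
    (htri : ∀ k r, τ0 (u (k, r)) = τ0 (u (k, 0)) ∧ (∀ a ∈ τ0 (u (k, r)), l0 (u (k, r)) a = 1) ∧
      ∀ a b, τ0 (u (k, r)) = s(a, b) → 2 ≤ ρ a b) :
    m' * (32 * ∑ j, cost j + 97 * Fintype.card K) ≤ ∑ x ∈ T, σ x + 25 * X := by
  classical
  obtain ⟨ps, hbij, hgad⟩ := gadget
  have hends := ends_inj (m' := m') (fun r => (hbij r).1) hinj
  have hfa : ∀ j : JJ J K m', (fa ps f u j).1 ∈ S ∧ (fa ps f u j).2 < 32 * m' := by
    rintro (x | y)
    · exact ⟨hf _, x.2.2⟩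
    · exact ⟨hu _, lt_win _ _⟩
  have hga : ∀ j : JJ J K m', (ga ps g u j).1 ∈ S ∧ (ga ps g u j).2 < 32 * m' := by
    rintro (x | y)
    · exact ⟨hg _, x.2.2⟩
    · exact ⟨hu _, lt_win _ _⟩
  have hel : ∀ z : JJ J K m' ⊕ JJ J K m', (Sum.elim (fa ps f u) (ga ps g u) z).1 ∈ S ∧
      (Sum.elim (fa ps f u) (ga ps g u) z).2 < 32 * m' := by
    rintro (j | j)
    exacts [hfa j, hga j]
  obtain ⟨P, U, hU, hsum, hodd, htwo⟩ := pathSys V (JJ J K m') G
    (fun j => B (sh (bs (fa ps f u j).1) (fa ps f u j).2))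
    (fun j => B (sh (bs (ga ps g u j).1) (ga ps g u j).2)) hPP
    (fun z z' e => hends (by
      have e' : B (sh (bs (Sum.elim (fa ps f u) (ga ps g u) z).1)
            (Sum.elim (fa ps f u) (ga ps g u) z).2) =
          B (sh (bs (Sum.elim (fa ps f u) (ga ps g u) z').1)
            (Sum.elim (fa ps f u) (ga ps g u) z').2) := by
        rcases z with j | j <;> rcases z' with j' | j' <;> exact e
      obtain ⟨e1, e2⟩ := hdis _ (hel z).1 _ (hel z').1 _ (hel z).2 _ (hel z').2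
        (hM.inj _ (hw _ (hel z).1 _ (hel z).2).1 _ (hw _ (hel z').1 _ (hel z').2).1 e')
      exact Prod.ext e1 e2))
  have hUG : ∀ e ∈ U, e ∈ G.edgeSet := fun e he => by
    obtain ⟨j, hj⟩ := (hU e).1 he
    exact (P j).edges_subset_edgeSet hj
  have htot := total hM hAdm U hUG
  rw [← hsum] at htot
  set W : JJ J K m' → ℕ := fun j => ((P j).edges.map (w2 T B τ cl l)).sum with hW
  have hF := fun j : JJ J K m' => hw _ (hfa j).1 _ (hfa j).2
  have hG := fun j : JJ J K m' => hw _ (hga j).1 _ (hga j).2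
  have hne : ∀ j : JJ J K m', c0 (fa ps f u j).1 ≠ c0 (ga ps g u j).1 := by
    rintro (x | y)
    · exact hfg x.1
    · exact huu y.1.1 y.2.1
  have hwalk : ∀ j : JJ J K m', ∃ a ∈ τ0 (fa ps f u j).1, ∃ b ∈ τ0 (ga ps g u j).1,
      l0 (fa ps f u j).1 a + ρ a b + l0 (ga ps g u j).1 b ≤ W j := fun j => by
    have := (fromAtom hM hρ hAdm (hF j).1).2 _ (hG j).1
      (by rw [(hF j).2.1, (hG j).2.1]; exact hne j) (P j)
    rwa [(hF j).2.2.1, (hF j).2.2.2, (hG j).2.2.1, (hG j).2.2.2] at this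
  have hW1 : ∀ x : J × Fin (32 * m'), cost x.1 ≤ W (.inl x) := fun x => by
    obtain ⟨a, ha, b, hb, h⟩ := hwalk (.inl x)
    exact (hcost x.1 a ha b hb).trans h
  have hW2 : ∀ y : (K × Fin m') × (Fin 3 × Fin 8 × Bool), 2 ≤ W (.inr y) := fun y => by
    obtain ⟨a, ha, b, hb, h⟩ := hwalk (.inr y)
    have e1 := (htri y.1.1 y.2.1).2.1 a ha
    have e2 := (htri y.1.1 (y.2.1 + 1)).2.1 b hb
    change l0 (u (y.1.1, y.2.1)) a + ρ a b + l0 (u (y.1.1, y.2.1 + 1)) b ≤ _ at h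
    omega
  have hW3 : ∀ (y : (K × Fin m') × (Fin 3 × Fin 8 × Bool)) (a b : V),
      τ0 (u (y.1.1, 0)) = s(a, b) → a ∈ (P (.inr y)).support → b ∈ (P (.inr y)).support →
      4 ≤ W (.inr y) := fun y a b hab ha hb => by
    have e1 : τ0 (u (y.1.1, y.2.1)) = s(a, b) := (htri _ _).1.trans hab
    refine walk4 hM hρ hAdm (hF (.inr y)).1 (hG (.inr y)).1 (P (.inr y))
      ((hF (.inr y)).2.2.1.trans e1) ?_ ?_ ((htri _ _).2.2 a b e1)
      ((htri _ _).2.2 b a (e1.trans Sym2.eq_swap)) ha hb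
    · rw [(hF (.inr y)).2.2.1, (hF (.inr y)).2.2.2]
      exact (htri _ _).2.1
    · rw [(hG (.inr y)).2.2.1, (hG (.inr y)).2.2.2]
      exact (htri _ _).2.1
  set D : ι × ℕ → Prop := fun x => (∃ v, G.Adj (B x) v ∧
      ¬ (Rg T B τ cl (B x) v ∨ Rg T B τ cl v (B x))) ∨
    ∃ a ∈ τ x, 1 ≤ l x a ∧ s(B x, a) ∉ U with hD
  have hwin : ∀ x : K × Fin m', (∀ t, W (.inr (x, t)) < 4) →
      ∃ (r : Fin 3) (p : Fin 32), D (sh (bs (u (x.1, r))) (32 * x.2.1 + p.1)) := by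
    rintro ⟨k, w⟩ hx
    by_contra hc
    push Not at hc
    obtain ⟨a, b, hab⟩ : ∃ a b, τ0 (u (k, 0)) = s(a, b) := by
      induction τ0 (u (k, 0)) using Sym2.ind with
      | _ a b => exact ⟨a, b, rfl⟩
    obtain ⟨z, hz⟩ : ∃ z : Fin 3 → ℕ → ι × ℕ, ∀ r p, z r p = sh (bs (u (k, r))) (32 * w.1 + p) :=
      ⟨_, fun _ _ => rfl⟩
    have hzn : ∀ r p, nxt (z r p) = z r (p + 1) := fun r p => by rw [hz, hz]; rfl
    have hq : ∀ (r : Fin 3) (p : Fin 32), z r p.1 ∈ T ∧ τ (z r p.1) = s(a, b) ∧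
        ∀ c ∈ s(a, b), l (z r p.1) c = 1 := fun r p => by
      obtain ⟨k1, -, k3, k4⟩ := hw _ (hu (k, r)) _ (lt_win w p)
      have e := (htri k r).1.trans hab
      rw [hz, k3, k4]
      exact ⟨k1, e, e ▸ (htri k r).2.1⟩
    simp only [← hz] at hc
    have hN : ∀ (r : Fin 3) (p : Fin 32) (v : V), s(B (z r p.1), v) ∈ U →
        v ∈ τ (z r p.1) ∨ (Lk T cl (z r p.1) ∧ v = B (nxt (z r p.1))) ∨
          ∃ y ∈ T, Lk T cl y ∧ z r p.1 = nxt y ∧ v = B y := fun r p v hv => by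
      refine nbr hM (hq r p).1 ?_
      by_contra h5
      exact hc r p (Or.inl ⟨v, hUG _ hv, h5⟩)
    have hub : ∀ (r : Fin 3) (p : Fin 32), ∀ c ∈ s(a, b), s(B (z r p.1), c) ∈ U :=
      fun r p c h5 => by
        by_contra h6
        exact hc r p (Or.inr ⟨c, (hq r p).2.1 ▸ h5, ((hq r p).2.2 c h5).ge, h6⟩)
    have ha := Sym2.mem_mk_left a b
    have hb := Sym2.mem_mk_right a b
    have hpar : ∀ (r : Fin 3) (p : Fin 32),
        (Lk T cl (z r p.1) ∧ s(B (z r p.1), B (nxt (z r p.1))) ∈ U) ↔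
        ¬ ∃ y ∈ T, Lk T cl y ∧ z r p.1 = nxt y ∧ s(B (z r p.1), B y) ∈ U := fun r p => by
      refine parity hM (hq r p).1 (hq r p).2.1 (hN r p) (hub r p a ha) (hub r p b hb) ?_
      obtain ⟨⟨s, e, d⟩, rfl⟩ := (hbij r).2 p
      rw [hz]
      cases d
      · obtain ⟨r', rfl⟩ : ∃ r', r = r' + 1 := ⟨r - 1, (sub_add_cancel r 1).symm⟩
        exact hodd (.inr ((k, w), r', s, e)) _ (Or.inr rfl)
      · exact hodd (.inr ((k, w), r, s, e)) _ (Or.inl rfl)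
    obtain ⟨r, s, e, g1, ⟨g2, g3⟩, g4⟩ := hgad
      (fun r p => Lk T cl (z r p) ∧ s(B (z r p), B (nxt (z r p))) ∈ U)
      (fun r s e => a ∈ (P (.inr ((k, w), r, s, e))).support) (fun r p hp => by
        refine (hpar r ⟨p + 1, hp⟩).trans (not_congr ⟨?_, fun h5 =>
          ⟨z r p, (hq r ⟨p, by omega⟩).1, h5.1, (hzn r p).symm, ?_⟩⟩)
        · rintro ⟨y, -, h4, h5, h6⟩
          obtain rfl : z r p = y := nxt_inj ((hzn r p).trans h5)
          refine ⟨h4, ?_⟩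
          rw [hzn, Sym2.eq_swap]
          exact h6
        · have := h5.2
          rw [hzn, Sym2.eq_swap] at this
          exact this)
    have hjj : (Sum.inr ((k, w), r, s, e) : JJ J K m') ≠ .inr ((k, w), r + 1, s, e) := fun h5 => by
      have h6 : ∀ r : Fin 3, r ≠ r + 1 := by decide
      simp only [Sum.inr.injEq, Prod.mk.injEq, true_and, and_true] at h5
      exact h6 r h5
    have hp1 : nxt (z (r + 1) (ps (r + 1) s e false).1) = z (r + 1) (ps (r + 1) s e true).1 := by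
      rw [hzn, g1]
    have hv : ∀ v, s(B (z (r + 1) (ps (r + 1) s e false).1), v) ∈ U →
        (v = a ∨ v = b) ∨ v = B (z (r + 1) (ps (r + 1) s e true).1) := by
      intro v h5
      rcases hN _ _ v h5 with h6 | ⟨-, h6⟩ | ⟨y, h6, h7, h8, h9⟩
      · exact Or.inl (by simpa [(hq _ _).2.1] using h6)
      · exact Or.inr (hp1 ▸ h6)
      · exact absurd ⟨y, h6, h7, h8, h9 ▸ h5⟩ ((hpar _ _).1 ⟨g2, g3⟩)
    have hv' : ∀ v, s(B (z (r + 1) (ps (r + 1) s e true).1), v) ∈ U →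
        (v = a ∨ v = b) ∨ v = B (z (r + 1) (ps (r + 1) s e false).1) := by
      intro v h5
      rcases hN _ _ v h5 with h6 | ⟨h6, h7⟩ | ⟨y, h6, h7, h8, h9⟩
      · exact Or.inl (by simpa [(hq _ _).2.1] using h6)
      · refine absurd ⟨_, (hq _ _).1, g2, hp1.symm, ?_⟩ ((hpar _ _).1 ⟨h6, h7 ▸ h5⟩)
        rw [← hp1, Sym2.eq_swap]
        exact g3
      · obtain rfl : z (r + 1) (ps (r + 1) s e false).1 = y := nxt_inj (hp1.trans h8)
        exact Or.inr h9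
    have j1 : B (z (r + 1) (ps (r + 1) s e false).1) =
        B (sh (bs (ga ps g u (.inr ((k, w), r, s, e) : JJ J K m')).1)
          (ga ps g u (.inr ((k, w), r, s, e) : JJ J K m')).2) := by rw [hz]; rfl
    have j2 : B (z (r + 1) (ps (r + 1) s e true).1) =
        B (sh (bs (fa ps f u (.inr ((k, w), r + 1, s, e) : JJ J K m')).1)
          (fa ps f u (.inr ((k, w), r + 1, s, e) : JJ J K m')).2) := by rw [hz]; rfl
    have k1 := htwo _ _ _ _ a b hjj (Or.inr j1) (Or.inl j2) (fun v h5 => or_assoc.1 (hv v h5))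
      (fun v h5 => or_assoc.1 (hv' v h5)) (hub _ _ b hb) (hub _ _ b hb)
    have k2 := htwo _ _ _ _ b a hjj (Or.inr j1) (Or.inl j2)
      (fun v h5 => or_assoc.1 ((hv v h5).imp_left Or.symm))
      (fun v h5 => or_assoc.1 ((hv' v h5).imp_left Or.symm)) (hub _ _ a ha) (hub _ _ a ha)
    rcases k1 with k1 | k1
    · exact absurd (hW3 ((k, w), r, s, e) a b hab (k2.elim id g4.2) k1) (not_le.2 (hx _))
    · exact absurd (hW3 ((k, w), r + 1, s, e) a b hab (k2.elim g4.1 id) k1) (not_le.2 (hx _))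
  have hbad : num univ (fun x : K × Fin m' => ∀ t, W (.inr (x, t)) < 4) ≤ num T D := by
    have h5 : ∀ x : K × Fin m', ∃ z : Fin 3 × Fin 32, (∀ t, W (.inr (x, t)) < 4) →
        D (sh (bs (u (x.1, z.1))) (32 * x.2.1 + z.2.1)) := fun x => by
      by_cases h6 : ∀ t, W (.inr (x, t)) < 4
      · obtain ⟨r, p, h7⟩ := hwin x h6
        exact ⟨(r, p), fun _ => h7⟩
      · exact ⟨(0, 0), fun h7 => absurd h7 h6⟩
    choose c hc using h5
    refine num_le_of_injOn (fun x => sh (bs (u (x.1, (c x).1))) (32 * x.2.1 + (c x).2.1))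
      (fun x _ hx => ⟨(hw _ (hu _) _ (lt_win _ _)).1, hc x hx⟩) fun x _ _ y _ _ e => ?_
    obtain ⟨e1, e2⟩ := hdis _ (hu _) _ (hu _) _ (lt_win _ _) _ (lt_win _ _) e
    have e3 : (x.1, (c x).1) = (y.1, (c y).1) := by
      simpa using hinj (a₁ := .inr (x.1, (c x).1)) (a₂ := .inr (y.1, (c y).1)) e1
    have e4 := (c x).2.2
    have e5 := (c y).2.2
    exact Prod.ext (Prod.mk.inj e3).1 (Fin.ext (by omega))
  have hD2 := (num_or_le T _ _).trans' hbad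
  have hD3 := unclean hM
  have hs1 : 32 * m' * ∑ j, cost j ≤ ∑ x : J × Fin (32 * m'), W (.inl x) := by
    refine le_trans (le_of_eq ?_) (sum_le_sum fun x _ => hW1 x)
    rw [Fintype.sum_prod_type, mul_sum]
    simp
  have hs2 : 97 * (Fintype.card K * m') ≤
      ∑ y : (K × Fin m') × (Fin 3 × Fin 8 × Bool), W (.inr y) +
        num univ (fun x : K × Fin m' => ∀ t, W (.inr (x, t)) < 4) := by
    rw [Fintype.sum_prod_type, num_eq_sum, ← sum_add_distrib]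
    refine le_trans (le_of_eq ?_) (sum_le_sum fun x _ => sum_ge fun t => hW2 (x, t))
    simp [mul_comm]
  have hs3 := Fintype.sum_sum_type W
  change ∑ j, W j + _ ≤ _ at htot
  have h5 : m' * (32 * ∑ j, cost j + 97 * Fintype.card K) =
      32 * m' * ∑ j, cost j + 97 * (Fintype.card K * m') := by ring
  rw [h5]
  linarith

end LC

end Pool.Agent.Lib.MP_453ac3_co.LB
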