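import Pool.Agent.Lib.MP_453ac3_co.LB.Main

/-! Levels of common neighbours of two hubs, and cheap cuts. -/

namespace Pool.Agent.Lib.MP_453ac3_co.LB

open Finset

namespace Lev

theorem num_ex {α ι : Type} [Fintype ι] (S : Finset α) (P : ι → α → Prop) (k : ℕ)
    (h : ∀ i, num S (P i) ≤ k) : num S (fun v => ∃ i, P i v) ≤ Fintype.card ι * k := by
  classical
  rw [num_eq]
  refine le_trans (card_le_card (t := univ.biUnion fun i => S.filter (P i)) fun v hv => ?_)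
    ((card_biUnion_le_card_mul _ _ k fun i _ => by rw [← num_eq]; exact h i).trans (by simp))
  obtain ⟨h1, i, h2⟩ := mem_filter.1 hv
  exact mem_biUnion.2 ⟨i, mem_univ _, mem_filter.2 ⟨h1, h2⟩⟩

theorem num_zero {α : Type} (S : Finset α) (P : α → Prop) (h : ∀ a, ¬ P a) : num S P = 0 := by
  by_contra hc
  obtain ⟨a, -, ha⟩ := num_pos.1 (Nat.pos_of_ne_zero hc)
  exact h a ha

variable {V : Type}

theorem cnt_le_mul [Fintype V] (G : SimpleGraph V) (Z : V → Prop) (P : V → V → Prop) (k : ℕ)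
    (h : ∀ u, Z u → num univ (fun v => G.Adj u v ∧ P u v) ≤ k) :
    cnt G (fun u v => Z u ∧ P u v) ≤ num univ Z * k := by
  classical
  rw [cnt_eq_sum, num_eq_sum, sum_mul]
  refine sum_le_sum fun u _ => ?_
  split_ifs with hu
  · rw [one_mul]
    exact le_trans (num_mono fun v hv hp => ⟨hv, hp.1, hp.2.2⟩) (h u hu)
  · rw [num_zero _ _ fun v hv => hu hv.2.1, zero_mul]

/-- reached from `s` through vertices of `P` -/
def Rc (G : SimpleGraph V) (P : Set V) (s v : V) : Prop :=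
  Relation.ReflTransGen (fun x y => G.Adj x y ∧ y ∈ P) s v

theorem rc_conn (G : SimpleGraph V) (P : Set V) (s : V) :
    (G.induce {v | Rc G P s v}).Connected := by
  refine (SimpleGraph.connected_iff_exists_forall_reachable _).2
    ⟨⟨s, Relation.ReflTransGen.refl⟩, ?_⟩
  rintro ⟨v, hv⟩
  induction hv with
  | refl => exact SimpleGraph.Reachable.refl _
  | tail h1 h2 ih => exact ih.trans (SimpleGraph.Adj.reachable (show G.Adj _ _ from h2.1))

theorem rc_mem {G : SimpleGraph V} {P : Set V} {s v : V} (h : Rc G P s v) : v = s ∨ v ∈ P := by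
  induction h with
  | refl => exact Or.inl rfl
  | tail _ h2 _ => exact Or.inr h2.2

variable (G : SimpleGraph V) (η : Fin 5 → V) (b c : Fin 5)

/-- common neighbours of the hubs `b` and `c` -/
def YY : Set V := {y | G.Adj y (η b) ∧ G.Adj y (η c) ∧ y ∉ Set.range η}

/-- vertices that are no hubs and see at most one hub -/
def XX : Set V := {v | v ∉ Set.range η ∧ ¬ ∃ j k, j ≠ k ∧ G.Adj v (η j) ∧ G.Adj v (η k)}

/-- reached from a third hub -/
def Ar (P : Set V) : Set V := {v | ∃ h, h ≠ b ∧ h ≠ c ∧ Rc G P (η h) v}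

/-- the allowed vertices -/
def PP : ℕ → Set V
  | 0 => {v | v ≠ η b ∧ v ≠ η c ∧ v ∉ YY G η b c}
  | i + 1 => PP i ∪ {y | y ∈ YY G η b c ∧ ∃ x ∈ Ar G η b c (PP i), G.Adj x y}

/-- the levels -/
def AA (i : ℕ) : Set V := Ar G η b c (PP G η b c i)

variable {G η b c}

theorem pp_mono : Monotone (PP G η b c) :=
  monotone_nat_of_le_succ fun _ => Set.subset_union_left

theorem aa_mono : Monotone (AA G η b c) := by
  rintro i j hij v ⟨h, h1, h2, h3⟩
  refine ⟨h, h1, h2, ?_⟩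
  induction h3 with
  | refl => exact Relation.ReflTransGen.refl
  | tail _ k ih => exact ih.tail ⟨k.1, pp_mono hij k.2⟩

theorem aa_hub {h : Fin 5} (h1 : h ≠ b) (h2 : h ≠ c) (i : ℕ) : η h ∈ AA G η b c i :=
  ⟨h, h1, h2, Relation.ReflTransGen.refl⟩

theorem aa_step {i : ℕ} {x y : V} (hx : x ∈ AA G η b c i) (hxy : G.Adj x y)
    (hy : y ∈ PP G η b c i) : y ∈ AA G η b c i := by
  obtain ⟨h, h1, h2, h3⟩ := hx
  exact ⟨h, h1, h2, h3.tail ⟨hxy, hy⟩⟩

theorem pp_ne {i : ℕ} {v : V} (hv : v ∈ PP G η b c i) : v ≠ η b ∧ v ≠ η c := by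
  induction i with
  | zero => exact ⟨hv.1, hv.2.1⟩
  | succ i ih =>
    rcases hv with hv | hv
    · exact ih hv
    · exact ⟨fun e => hv.1.2.2 ⟨b, e.symm⟩, fun e => hv.1.2.2 ⟨c, e.symm⟩⟩

theorem aa_ne (hη : Function.Injective η) {i : ℕ} {v : V} (hv : v ∈ AA G η b c i) :
    v ≠ η b ∧ v ≠ η c := by
  obtain ⟨h, h1, h2, h3⟩ := hv
  rcases rc_mem h3 with rfl | h4
  · exact ⟨hη.ne h1, hη.ne h2⟩
  · exact pp_ne h4

theorem pp_zero {v : V} (h1 : v ≠ η b) (h2 : v ≠ η c) (h3 : v ∉ YY G η b c) (i : ℕ) :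
    v ∈ PP G η b c i := pp_mono (Nat.zero_le i) ⟨h1, h2, h3⟩

theorem pp_succ {i : ℕ} {x y : V} (hx : x ∈ AA G η b c i) (hxy : G.Adj x y)
    (hy : y ∈ YY G η b c) : y ∈ PP G η b c (i + 1) := Or.inr ⟨hy, x, hx, hxy⟩

theorem yy_aa {i : ℕ} {y : V} (hy : y ∈ YY G η b c) (hp : y ∈ PP G η b c i) :
    y ∈ AA G η b c i := by
  induction i with
  | zero => exact absurd hy hp.2.2
  | succ i ih =>
    rcases id hp with h | ⟨-, x, hx, hxy⟩
    · exact aa_mono i.le_succ (ih h)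
    · exact aa_step (aa_mono i.le_succ hx) hxy hp

variable [Fintype V]

/-- at most ten new common neighbours on each level -/
theorem new_le (hG : IsPlanar G) (hη : Function.Injective η) (hbc : b ≠ c) (i : ℕ) :
    num univ (fun y => y ∈ YY G η b c ∧ y ∉ PP G η b c i ∧
      ∃ x ∈ AA G η b c i, G.Adj x y) ≤ 10 := by
  classical
  have key : ∀ h : Fin 5, num univ (fun y => h ≠ b ∧ h ≠ c ∧ y ∈ YY G η b c ∧
      y ∉ PP G η b c i ∧ ∃ x, Rc G (PP G η b c i) (η h) x ∧ G.Adj x y) ≤ 2 := by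
    intro h
    by_contra hlt
    rw [num_eq, not_le] at hlt
    obtain ⟨y₀, y₁, y₂, h0, h1, h2, h01, h02, h12⟩ := two_lt_card_iff.1 hlt
    rw [mem_filter] at h0 h1 h2
    have hb := h0.2.1
    have hc := h0.2.2.1
    have hy : ∀ j : Fin 3, ![y₀, y₁, y₂] j ∈ YY G η b c ∧ ![y₀, y₁, y₂] j ∉ PP G η b c i ∧
        ∃ x, Rc G (PP G η b c i) (η h) x ∧ G.Adj x (![y₀, y₁, y₂] j) := by
      intro j
      fin_cases j
      exacts [h0.2.2.2, h1.2.2.2, h2.2.2.2]
    have iy := Sparse.inj3 h01 h02 h12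
    generalize ![y₀, y₁, y₂] = y at hy iy
    have hR : ∀ v, Rc G (PP G η b c i) (η h) v → v ≠ η b ∧ v ≠ η c := fun v hv =>
      aa_ne hη (i := i) ⟨h, hb, hc, hv⟩
    have hRy : ∀ j, ¬ Rc G (PP G η b c i) (η h) (y j) := fun j hv => by
      rcases rc_mem hv with e | e
      · exact (hy j).1.2.2 ⟨h, e.symm⟩
      · exact (hy j).2.1 e
    have hyb : ∀ j, y j ≠ η b := fun j => (hy j).1.1.ne
    have hyc : ∀ j, y j ≠ η c := fun j => (hy j).1.2.1.ne
    have dl : ∀ j (k : Fin 3), Disjoint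
        (![{η b}, {η c}, {v | Rc G (PP G η b c i) (η h) v}] k : Set V) {y j} := by
      intro j k
      rw [Set.disjoint_singleton_right]
      fin_cases k
      exacts [hyb j, hyc j, hRy j]
    refine hG.2 ⟨Sum.elim ![{η b}, {η c}, {v | Rc G (PP G η b c i) (η h) v}] fun j => {y j},
      ?_, ?_, fun k j => ?_⟩
    · rintro (k | j)
      · fin_cases k
        exacts [Sparse.conn_one G _, Sparse.conn_one G _, rc_conn G _ _]
      · exact Sparse.conn_one G _
    · rintro (k | k) (j | j) hij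
      · have d1 : Disjoint ({η b} : Set V) {η c} := Set.disjoint_singleton.2 (hη.ne hbc)
        have d2 : Disjoint ({η b} : Set V) {v | Rc G (PP G η b c i) (η h) v} :=
          Set.disjoint_singleton_left.2 fun hv => (hR _ hv).1 rfl
        have d3 : Disjoint ({η c} : Set V) {v | Rc G (PP G η b c i) (η h) v} :=
          Set.disjoint_singleton_left.2 fun hv => (hR _ hv).2 rfl
        fin_cases k <;> fin_cases j
        exacts [absurd rfl hij, d1, d2, d1.symm, absurd rfl hij, d3, d2.symm, d3.symm,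
          absurd rfl hij]
      · exact dl j k
      · exact (dl k j).symm
      · exact Set.disjoint_singleton.2 fun e => hij (congrArg _ (iy e))
    · fin_cases k
      · exact ⟨_, rfl, _, rfl, (hy j).1.1.symm⟩
      · exact ⟨_, rfl, _, rfl, (hy j).1.2.1.symm⟩
      · obtain ⟨x, hx, hxy⟩ := (hy j).2.2
        exact ⟨x, hx, _, rfl, hxy⟩
  refine le_trans (num_mono ?_) ((num_ex univ _ 2 key).trans (by simp))
  rintro y hy ⟨h1, h2, x, ⟨h, h3, h4, h5⟩, h6⟩
  exact ⟨hy, h, h3, h4, h1, h2, x, h5, h6⟩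

theorem old_le (hG : IsPlanar G) (hη : Function.Injective η) (hbc : b ≠ c) (i : ℕ) :
    num univ (fun y => y ∈ YY G η b c ∧ y ∈ PP G η b c i) ≤ 10 * i := by
  induction i with
  | zero => rw [num_zero _ _ fun y hy => hy.2.2.2 hy.1]
  | succ i ih =>
    have h1 := new_le hG hη hbc i
    have h2 := num_or_le univ (fun y => y ∈ YY G η b c ∧ y ∈ PP G η b c i)
      fun y => y ∈ YY G η b c ∧ y ∉ PP G η b c i ∧ ∃ x ∈ AA G η b c i, G.Adj x y
    refine le_trans (num_mono fun y hy h => ⟨hy, ?_⟩) (h2.trans (by omega))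
    by_cases h3 : y ∈ PP G η b c i
    · exact Or.inl ⟨h.1, h3⟩
    · exact Or.inr ⟨h.1, h3, (h.2.resolve_left h3).2⟩

omit [Fintype V] in
theorem dd_sub (hη : Function.Injective η) {i : ℕ} {v : V} (h1 : v ∈ AA G η b c (i + 1))
    (h2 : v ∉ AA G η b c i) (h3 : v ∉ YY G η b c) : v ∈ XX G η := by
  obtain ⟨k1, k2⟩ := aa_ne hη h1
  have k3 : v ∉ Set.range η := by
    rintro ⟨h, rfl⟩
    exact h2 (aa_hub (fun e => k1 (congrArg η e)) (fun e => k2 (congrArg η e)) i)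
  have k4 : ∀ h, G.Adj v (η h) → h = b ∨ h = c := fun h hv => by
    by_contra hc
    rw [not_or] at hc
    exact h2 (aa_step (aa_hub hc.1 hc.2 i) hv.symm (pp_zero k1 k2 h3 i))
  refine ⟨k3, ?_⟩
  rintro ⟨j, k, hjk, hj, hk⟩
  rcases k4 j hj with rfl | rfl <;> rcases k4 k hk with rfl | rfl
  exacts [hjk rfl, h3 ⟨hj, hk, k3⟩, h3 ⟨hk, hj, k3⟩, hjk rfl]

/-- a cheap cut in the strip of `b` and `c` -/
theorem cutset (hG : IsPlanar G) (hη : Function.Injective η) (hbc : b ≠ c) (t : ℕ) (ht : 0 < t) :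
    ∃ Q : Set V, η b ∉ Q ∧ η c ∉ Q ∧ AA G η b c 1 ⊆ Q ∧
      num univ (fun v => v ∈ Q ∧ v ∈ YY G η b c) ≤ 10 * (t + 1) ∧
      cnt G (fun u v => u ∈ Q ∧ v ∉ Q ∧ v ≠ η b ∧ v ≠ η c) ≤
        10 * (2 + num univ (· ∈ XX G η) / t) := by
  obtain ⟨M, hM⟩ : ∃ M, M = num univ (· ∈ XX G η) := ⟨_, rfl⟩
  obtain ⟨d, hd⟩ : ∃ d : ℕ → ℕ, ∀ i, d i = num univ fun v =>
    v ∈ AA G η b c (i + 1) ∧ v ∉ AA G η b c i ∧ v ∉ YY G η b c := ⟨_, fun _ => rfl⟩
  obtain ⟨a, ha⟩ : ∃ a : ℕ → ℕ, ∀ i, a i = num univ fun v =>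
    v ∈ XX G η ∧ v ∈ AA G η b c i := ⟨_, fun _ => rfl⟩
  have h1 : ∀ i, a i + d i ≤ a (i + 1) := fun i => by
    rw [ha, ha, hd, num_split univ (fun v => v ∈ XX G η ∧ v ∈ AA G η b c (i + 1))
      (· ∈ AA G η b c i)]
    exact add_le_add (num_mono fun v hv h => ⟨hv, ⟨h.1, aa_mono i.le_succ h.2⟩, h.2⟩)
      (num_mono fun v hv h => ⟨hv, ⟨dd_sub hη h.1 h.2.1 h.2.2, h.1⟩, h.2.1⟩)
  have h2 : ∀ i, a i ≤ M := fun i => by
    rw [ha, hM]
    exact num_mono fun v hv h => ⟨hv, h.1⟩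
  obtain ⟨i, hi1, hi2, hi3⟩ : ∃ i, 1 ≤ i ∧ i ≤ t ∧ d i ≤ M / t := by
    by_contra hc
    push Not at hc
    have h3 : ∀ k ≤ t, k * (M / t + 1) ≤ a (k + 1) := by
      intro k
      induction k with
      | zero => simp
      | succ k ih =>
        intro hk
        have := ih (by omega)
        have := h1 (k + 1)
        have := hc (k + 1) (by omega) hk
        rw [add_mul]
        omega
    have := h3 t le_rfl
    have := h2 (t + 1)
    have := Nat.lt_mul_div_succ M ht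
    omega
  refine ⟨{v | v ∈ AA G η b c i ∨ (v ∈ YY G η b c ∧ v ∈ PP G η b c (i + 1))}, ?_, ?_,
    fun v hv => Or.inl (aa_mono hi1 hv), ?_, ?_⟩
  · rintro (h | h)
    exacts [(aa_ne hη h).1 rfl, (pp_ne h.2).1 rfl]
  · rintro (h | h)
    exacts [(aa_ne hη h).2 rfl, (pp_ne h.2).2 rfl]
  · refine le_trans (num_mono fun v hv h => ⟨hv, h.2, ?_⟩)
      ((old_le hG hη hbc (i + 1)).trans (by omega))
    rcases h.1 with ⟨k, -, -, h3⟩ | h3
    · rcases rc_mem h3 with e | e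
      · exact absurd ⟨k, e.symm⟩ h.2.2.2
      · exact pp_mono i.le_succ e
    · exact h3.2
  · rw [← hM]
    have h4 := cnt_le_mul G (fun y => y ∈ YY G η b c ∧ y ∉ PP G η b c i ∧
      ∃ x ∈ AA G η b c i, G.Adj x y) (fun u v => v ∈ YY G η b c ∨
        (v ∈ AA G η b c (i + 1) ∧ v ∉ AA G η b c i ∧ v ∉ YY G η b c)) (2 + M / t) fun u hu => by
      have h5 := two V G hG (η b) (η c) u (hη.ne hbc) hu.1.1.ne' hu.1.2.1.ne'
      have h6 := num_or_le univ (fun y => G.Adj y (η b) ∧ G.Adj y (η c) ∧ G.Adj y u) fun v =>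
        v ∈ AA G η b c (i + 1) ∧ v ∉ AA G η b c i ∧ v ∉ YY G η b c
      rw [← hd] at h6
      refine le_trans (num_mono fun v hv h => ⟨hv, ?_⟩) (h6.trans (by omega))
      exact h.2.imp (fun k => ⟨k.1, k.2.1, h.1.symm⟩) id
    refine le_trans (cnt_mono fun u v huv h => ?_)
      (h4.trans (Nat.mul_le_mul_right _ (new_le hG hη hbc i)))
    obtain ⟨hu, hv, hvb, hvc⟩ := h
    have k1 : v ∉ AA G η b c i := fun k => hv (Or.inl k)
    have k2 : u ∉ AA G η b c i := fun k => by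
      by_cases hy : v ∈ YY G η b c
      · exact hv (Or.inr ⟨hy, pp_succ k huv hy⟩)
      · exact k1 (aa_step k huv (pp_zero hvb hvc hy i))
    have k3 := hu.resolve_left k2
    have k4 : u ∉ PP G η b c i := fun k => k2 (yy_aa k3.1 k)
    refine ⟨⟨k3.1, k4, (k3.2.resolve_left k4).2⟩, ?_⟩
    by_cases hy : v ∈ YY G η b c
    · exact Or.inl hy
    · exact Or.inr ⟨aa_step (yy_aa k3.1 k3.2) huv (pp_zero hvb hvc hy _), k1, hy⟩

end Lev

end Pool.Agent.Lib.MP_453ac3_co.LB
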