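import Pool.Agent.Lib.MP_453ac3_co.Eff.Lev

/-! All but a bounded number of vertices see two of the five hubs. -/

namespace Pool.Agent.Lib.MP_453ac3_co.LB

open Finset

namespace Lev

variable {V : Type} {G : SimpleGraph V} {η : Fin 5 → V}

/-- on the first level for all pairs of hubs other than `a` -/
def Near (G : SimpleGraph V) (η : Fin 5 → V) (a : Fin 5) (x : V) : Prop :=
  ∀ b c, b ≠ c → b ≠ a → c ≠ a → x ∈ AA G η b c 1

theorem near_adj {a : Fin 5} {x : V} (hx : x ∉ Set.range η) (h : G.Adj x (η a)) :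
    Near G η a x := by
  intro b c _ hb hc
  refine aa_step (aa_hub hb.symm hc.symm 1) h.symm ?_
  by_cases hy : x ∈ YY G η b c
  · exact pp_succ (aa_hub hb.symm hc.symm 0) h.symm hy
  · exact pp_zero (fun e => hx ⟨b, e.symm⟩) (fun e => hx ⟨c, e.symm⟩) hy 1

theorem near_walk {x y : V} (p : G.Walk x y) (hy : y ∈ Set.range η) (hx : x ∉ Set.range η) :
    ∃ a, Near G η a x ∧ (x ∈ XX G η → ∀ k, k ≠ a → ¬ G.Adj x (η k)) := by
  induction p with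
  | nil => exact absurd hy hx
  | @cons x z y hxz p ih =>
    by_cases h : ∃ a, G.Adj x (η a)
    · obtain ⟨a, ha⟩ := h
      exact ⟨a, near_adj hx ha, fun hX k hk hxk => hX.2 ⟨k, a, hk, hxk, ha⟩⟩
    · have hz : z ∉ Set.range η := by
        rintro ⟨k, rfl⟩
        exact h ⟨k, hxz⟩
      obtain ⟨a, ha, -⟩ := ih hy hz
      refine ⟨a, fun b c h1 h2 h3 => aa_step (ha b c h1 h2 h3) hxz.symm ?_,
        fun _ k _ hk => h ⟨k, hk⟩⟩
      exact pp_zero (fun e => hx ⟨b, e.symm⟩) (fun e => hx ⟨c, e.symm⟩) (fun k => h ⟨b, k.1⟩) 1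

variable [Fintype V]

theorem num_single (a : V) : num univ (fun v => v = a) ≤ 1 := by
  classical
  rw [num_eq]
  exact card_le_one.2 fun x hx y hy => (mem_filter.1 hx).2.trans (mem_filter.1 hy).2.symm

theorem num_range : num univ (fun v => v ∈ Set.range η) ≤ 5 :=
  le_trans (num_mono fun _ hv ⟨k, hk⟩ => ⟨hv, k, hk.symm⟩)
    ((num_ex univ (fun k v => v = η k) 1 fun _ => num_single _).trans (by simp))

theorem pen_le (hG : IsPlanar G) (hP : PathPairable G) (hη : Function.Injective η)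
    (hD : ∀ v, 9 * dg G v ≤ 4 * Fintype.card V) (hn : 10 ^ 8 ≤ Fintype.card V)
    (hM : 1000 * num univ (· ∈ XX G η) ≤ Fintype.card V) (a : Fin 5) :
    num univ (fun x => Near G η a x ∧ ∀ k, k ≠ a → ¬ G.Adj x (η k)) ≤
      250 * (num univ (· ∈ XX G η) / 2500) + 3126755 := by
  classical
  have hQ : ∀ p : Fin 5 × Fin 5, ∃ Q : Set V, p.1 ≠ p.2 → η p.1 ∉ Q ∧ η p.2 ∉ Q ∧
      AA G η p.1 p.2 1 ⊆ Q ∧ num univ (fun v => v ∈ Q ∧ v ∈ YY G η p.1 p.2) ≤ 10 * (2500 + 1) ∧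
      cnt G (fun u v => u ∈ Q ∧ v ∉ Q ∧ v ≠ η p.1 ∧ v ≠ η p.2) ≤
        10 * (2 + num univ (· ∈ XX G η) / 2500) := fun p => by
    by_cases h : p.1 = p.2
    · exact ⟨∅, fun k => absurd h k⟩
    · obtain ⟨Q, hQ⟩ := cutset hG hη h 2500 (by omega)
      exact ⟨Q, fun _ => hQ⟩
  choose Q hQ using hQ
  generalize num univ (· ∈ XX G η) / 2500 = κ at hQ ⊢
  obtain ⟨Z, hZ⟩ : ∃ Z : Finset V, ∀ v, v ∈ Z ↔
      ∀ p : Fin 5 × Fin 5, p.1 ≠ p.2 → p.1 ≠ a → p.2 ≠ a → v ∈ Q p :=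
    ⟨univ.filter fun v => ∀ p : Fin 5 × Fin 5, p.1 ≠ p.2 → p.1 ≠ a → p.2 ≠ a → v ∈ Q p,
      fun v => by simp only [mem_filter, mem_univ, true_and]⟩
  obtain ⟨F, hF⟩ : ∃ F : V → Prop, ∀ v, F v ↔ v = η a ∨
      ∃ p : Fin 5 × Fin 5, p.1 ≠ p.2 ∧ v ∈ Q p ∧ v ∈ YY G η p.1 p.2 := ⟨_, fun _ => Iff.rfl⟩
  have cF : num univ F ≤ 625251 := by
    have h1 := num_ex univ (fun (p : Fin 5 × Fin 5) v => p.1 ≠ p.2 ∧ v ∈ Q p ∧
      v ∈ YY G η p.1 p.2) (10 * (2500 + 1)) fun p => by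
        by_cases h : p.1 = p.2
        · rw [num_zero _ _ fun v hv => hv.1 h]
          omega
        · exact le_trans (num_mono fun v hv k => ⟨hv, k.2⟩) (hQ p h).2.2.2.1
    have h2 := num_or_le univ (fun v => v = η a) fun v =>
      ∃ p : Fin 5 × Fin 5, p.1 ≠ p.2 ∧ v ∈ Q p ∧ v ∈ YY G η p.1 p.2
    have h3 := num_single (η a)
    rw [num_congr fun v _ => hF v]
    simp only [Fintype.card_prod, Fintype.card_fin] at h1
    omega
  have hub : ∀ v ∈ Z, v ∈ Set.range η → v = η a := by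
    rintro v hv ⟨h, rfl⟩
    by_contra hne
    have hha : h ≠ a := fun e => hne (congrArg η e)
    obtain ⟨c, h1, h2⟩ := (by decide : ∀ h a : Fin 5, ∃ c, h ≠ c ∧ c ≠ a) h a
    exact (hQ (h, c) h1).1 ((hZ _).1 hv (h, c) h1 hha h2)
  have two' : ∀ v ∈ Z, ∀ j k, j ≠ k → j ≠ a → k ≠ a → G.Adj v (η j) → G.Adj v (η k) → F v := by
    intro v hv j k h1 h2 h3 h4 h5
    rw [hF]
    by_cases h : v ∈ Set.range η
    · exact Or.inl (hub v hv h)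
    · exact Or.inr ⟨(j, k), h1, (hZ _).1 hv (j, k) h1 h2 h3, h4, h5, h⟩
  have cZ : 2 * Z.card ≤ Fintype.card V := by
    have h1 : Z.card ≤ num univ fun v => F v ∨ v ∈ XX G η ∨ G.Adj (η a) v := by
      rw [num_eq]
      refine card_le_card fun v hv => mem_filter.2 ⟨mem_univ _, ?_⟩
      by_cases h : v ∈ Set.range η
      · exact Or.inl ((hF v).2 (Or.inl (hub v hv h)))
      by_cases h' : v ∈ XX G η
      · exact Or.inr (Or.inl h')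
      obtain ⟨j, k, h1, h2, h3⟩ := not_not.1 fun k => h' ⟨h, k⟩
      by_cases hj : j = a
      · exact Or.inr (Or.inr (hj ▸ h2.symm))
      by_cases hk : k = a
      · exact Or.inr (Or.inr (hk ▸ h3.symm))
      exact Or.inl (two' v hv j k h1 hj hk h2 h3)
    have h2 := num_or_le univ F fun v => v ∈ XX G η ∨ G.Adj (η a) v
    have h3 := num_or_le univ (· ∈ XX G η) fun v => G.Adj (η a) v
    have h4 := hD (η a)
    unfold dg at h4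
    omega
  have hcut := cut V G hP Z cZ
  have c1 : cnt G (fun u v => ∃ p : Fin 5 × Fin 5, p.1 ≠ p.2 ∧ u ∈ Q p ∧ v ∉ Q p ∧
      v ≠ η p.1 ∧ v ≠ η p.2) ≤ 25 * (10 * (2 + κ)) := by
    have h1 := num_ex univ (fun (p : Fin 5 × Fin 5) (x : V × V) => G.Adj x.1 x.2 ∧ p.1 ≠ p.2 ∧
      x.1 ∈ Q p ∧ x.2 ∉ Q p ∧ x.2 ≠ η p.1 ∧ x.2 ≠ η p.2) (10 * (2 + κ)) fun p => by
        by_cases h : p.1 = p.2
        · rw [num_zero _ _ fun v hv => hv.2.1 h]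
          omega
        · exact le_trans (num_mono fun v hv k => ⟨hv, k.1, k.2.2⟩) (hQ p h).2.2.2.2
    simp only [Fintype.card_prod, Fintype.card_fin] at h1
    exact le_trans (num_mono fun x hx ⟨k, p, hp⟩ => ⟨hx, p, k, hp⟩) h1
  have c2 : cnt G (fun u v => F u ∧ v ∈ Set.range η) ≤ num univ F * 5 :=
    cnt_le_mul G F _ 5 fun u _ => le_trans (num_mono fun v hv k => ⟨hv, k.2⟩) num_range
  have c3 : cnt G (fun u v => (u ∈ Z ∧ ¬ F u ∧ ¬ ∀ k, k ≠ a → ¬ G.Adj u (η k)) ∧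
      ∃ k, k ≠ a ∧ v = η k) ≤
      num univ (fun u => u ∈ Z ∧ ¬ F u ∧ ¬ ∀ k, k ≠ a → ¬ G.Adj u (η k)) * 1 :=
    cnt_le_mul G _ _ 1 fun u hu => by
      rw [num_eq]
      refine card_le_one.2 fun x hx y hy => ?_
      obtain ⟨-, h1, j, h2, rfl⟩ := mem_filter.1 hx
      obtain ⟨-, h3, k, h4, rfl⟩ := mem_filter.1 hy
      by_contra hne
      exact hu.2.1 (two' u hu.1 j k (fun e => hne (congrArg η e)) h2 h4 h1 h3)
  have c4 : cnt G (fun u v => u ∈ Z ∧ v ∉ Z) ≤ cnt G fun u v =>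
      (∃ p : Fin 5 × Fin 5, p.1 ≠ p.2 ∧ u ∈ Q p ∧ v ∉ Q p ∧ v ≠ η p.1 ∧ v ≠ η p.2) ∨
      (F u ∧ v ∈ Set.range η) ∨
      ((u ∈ Z ∧ ¬ F u ∧ ¬ ∀ k, k ≠ a → ¬ G.Adj u (η k)) ∧ ∃ k, k ≠ a ∧ v = η k) := by
    refine cnt_mono fun u v huv ⟨hu, hv⟩ => ?_
    rw [hZ] at hv
    push Not at hv
    obtain ⟨p, h1, h2, h3, h4⟩ := hv
    by_cases h : ∃ k, k ≠ a ∧ v = η k
    · obtain ⟨k, hk, rfl⟩ := h
      by_cases hf : F u
      · exact Or.inr (Or.inl ⟨hf, k, rfl⟩)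
      · exact Or.inr (Or.inr ⟨⟨hu, hf, fun h5 => h5 k hk huv⟩, k, hk, rfl⟩)
    · exact Or.inl ⟨p, h1, (hZ _).1 hu p h1 h2 h3, h4, fun e => h ⟨_, h2, e⟩,
        fun e => h ⟨_, h3, e⟩⟩
  have c5 := cnt_or_le G
    (fun u v => ∃ p : Fin 5 × Fin 5, p.1 ≠ p.2 ∧ u ∈ Q p ∧ v ∉ Q p ∧ v ≠ η p.1 ∧ v ≠ η p.2)
    fun u v => (F u ∧ v ∈ Set.range η) ∨
      ((u ∈ Z ∧ ¬ F u ∧ ¬ ∀ k, k ≠ a → ¬ G.Adj u (η k)) ∧ ∃ k, k ≠ a ∧ v = η k)
  have c6 := cnt_or_le G (fun u v => F u ∧ v ∈ Set.range η)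
    fun u v => (u ∈ Z ∧ ¬ F u ∧ ¬ ∀ k, k ≠ a → ¬ G.Adj u (η k)) ∧ ∃ k, k ≠ a ∧ v = η k
  have c7 := num_add_not Z fun u => ∀ k, k ≠ a → ¬ G.Adj u (η k)
  have c8 : num univ (fun u => u ∈ Z ∧ ¬ F u ∧ ¬ ∀ k, k ≠ a → ¬ G.Adj u (η k)) ≤
      num Z fun u => ¬ ∀ k, k ≠ a → ¬ G.Adj u (η k) := num_mono fun u _ h => ⟨h.1, h.2.2⟩
  have c9 : num univ (fun x => Near G η a x ∧ ∀ k, k ≠ a → ¬ G.Adj x (η k)) ≤
      num Z fun u => ∀ k, k ≠ a → ¬ G.Adj u (η k) := num_mono fun u _ h =>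
    ⟨(hZ u).2 fun p h1 h2 h3 => (hQ p h1).2.2.1 (h.1 _ _ h1 h2 h3), h.2⟩
  omega

theorem stab (hG : IsPlanar G) (hP : PathPairable G) (hη : Function.Injective η)
    (hD : ∀ v, 9 * dg G v ≤ 4 * Fintype.card V) (hn : 10 ^ 8 ≤ Fintype.card V)
    (hM : 1000 * num univ (· ∈ XX G η) ≤ Fintype.card V) :
    num univ (· ∈ XX G η) ≤ 4 * 10 ^ 7 := by
  have h1 := num_ex univ (fun a x => Near G η a x ∧ ∀ k, k ≠ a → ¬ G.Adj x (η k)) _
    (pen_le hG hP hη hD hn hM)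
  have h2 : num univ (· ∈ XX G η) ≤
      num univ fun x => ∃ a, Near G η a x ∧ ∀ k, k ≠ a → ¬ G.Adj x (η k) := by
    refine num_mono fun x hx h => ⟨hx, ?_⟩
    obtain ⟨P, -⟩ := hP 1 (fun _ => x) (fun _ => η 0) (by
      rintro (i | i) (j | j) e
      · exact congrArg _ (Subsingleton.elim _ _)
      · exact absurd ⟨0, e.symm⟩ h.1
      · exact absurd ⟨0, e⟩ h.1
      · exact congrArg _ (Subsingleton.elim _ _))
    obtain ⟨a, h3, h4⟩ := near_walk (P 0) ⟨0, rfl⟩ h.1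
    exact ⟨a, h3, h4 h⟩
  rw [Fintype.card_fin] at h1
  omega

end Lev

end Pool.Agent.Lib.MP_453ac3_co.LB
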