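import Pool.Agent.Lib.MP_453ac3_co.Eff.UBa

/-! The upper bound with a power saving error term. -/

namespace Pool.Agent.Lib.MP_453ac3_co.UB

open Finset

theorem ubNat (q n : ℕ) (hq2 : 2 ≤ q) (hn : 10 ^ 44 * q ^ 8 ≤ n) :
    ∃ G : SimpleGraph (Fin n), IsPlanar G ∧ PathPairable G ∧
      ∀ v, 9 * q * (G.neighborSet v).ncard ≤ 4 * q * n + 2 * n + 225 * q := by
  have h1 : Reg1E := reg1E step (win cyc) bas (marg1E dcAll bas (adj bas ind)) (delta bas) (fin bas)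
  have h2 : Reg2E := reg2E step (win cyc) bas (marg2E dcAll bas)
  obtain ⟨m1, b1, r1⟩ := h1 q (by omega)
  obtain ⟨m2, b2, r2⟩ := h2 q (by omega)
  have hq8 : 1 ≤ q ^ 8 := Nat.one_le_pow _ _ (by omega)
  obtain ⟨m, R, hN, hm, h9, lo, hi⟩ := AsmJ.sizes q ((n - 5) / 2) (m1 + m2 + 10) hq2 (by omega)
  obtain ⟨e, he⟩ : ∃ e, e = R / 3 + 1 := ⟨_, rfl⟩
  have me : m ≤ R / 3 + 1 := by
    refine Nat.le_of_mul_le_mul_left (c := q) ?_ (by omega)
    nlinarith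
  have em : R / 3 + 1 ≤ 2 * m := by
    refine Nat.le_of_mul_le_mul_left (c := q) (hi.trans ?_) (by omega)
    have a1 : 2 * m ≤ q * m := Nat.mul_le_mul_right m hq2
    have a2 : q * 10 ≤ q * m := Nat.mul_le_mul_left q (by omega)
    nlinarith
  have hp : PathPairable (GG (Sigma.fst : AsmJ.B m R → Fin 9)) := by
    refine route col ext _ _ fun I hc hf => ?_
    have hok := AsmJ.ok m R me em I hc hf
    have : ∃ s, I.Good m s := by
      by_cases hF : ∀ l, I.Few ((R / 3 + 1 - m) / 200) l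
      · exact r1 _ I m _ hok (by omega) lo hF
      · exact r2 _ I m _ hok (by omega) lo (not_forall.1 hF)
    obtain ⟨s, hs⟩ := this
    exact ⟨s, hs.1, hubRed hub _ I m _ hok s hs⟩
  obtain ⟨G, a, b, c⟩ := AsmJ.graphs plan deg del trans m R me hp n (by omega)
  refine ⟨G, a, b, fun v => ?_⟩
  rw [← he] at c hi
  have c1 := Nat.mul_le_mul_left (9 * q) (c v)
  have c3 : 18 * m ≤ n := by omega
  have c4 := Nat.mul_le_mul_left q c3
  nlinarith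

theorem ubReal (n : ℕ) (hn : 10 ^ 47 ≤ n) :
    ∃ G : SimpleGraph (Fin n), IsPlanar G ∧ PathPairable G ∧
      ∀ v, ((G.neighborSet v).ncard : ℝ) ≤ 4 / 9 * n + 10 ^ 6 * (n : ℝ) ^ (7 / 8 : ℝ) := by
  classical
  have hex : ∃ q : ℕ, n < 10 ^ 44 * (q + 1) ^ 8 := ⟨n, by
    have : n + 1 ≤ (n + 1) ^ 8 := Nat.le_self_pow (by omega) _
    omega⟩
  obtain ⟨q, h1, h2⟩ : ∃ q : ℕ, n < 10 ^ 44 * (q + 1) ^ 8 ∧ 10 ^ 44 * q ^ 8 ≤ n := by
    refine ⟨Nat.find hex, Nat.find_spec hex, ?_⟩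
    rcases h : Nat.find hex with _ | k
    · simp
    · exact not_lt.1 (Nat.find_min hex (by omega : k < Nat.find hex))
  have hq2 : 2 ≤ q := by
    by_contra hc
    have : (q + 1) ^ 8 ≤ 2 ^ 8 := Nat.pow_le_pow_left (by omega) 8
    omega
  obtain ⟨G, a, b, c⟩ := ubNat q n hq2 h2
  refine ⟨G, a, b, fun v => ?_⟩
  have h3 : n ≤ (10 ^ 6 * q) ^ 8 := by
    have : (q + 1) ^ 8 ≤ (2 * q) ^ 8 := Nat.pow_le_pow_left (by omega) 8
    rw [mul_pow] at this ⊢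
    omega
  have hn0 : (0 : ℝ) < n := by exact_mod_cast (by omega : 0 < n)
  have hq0 : (0 : ℝ) < q := by exact_mod_cast (by omega : 0 < q)
  have h4 : (n : ℝ) ^ (1 / 8 : ℝ) ≤ 10 ^ 6 * q := by
    have h5 : (n : ℝ) ≤ (10 ^ 6 * q) ^ 8 := by exact_mod_cast h3
    refine (Real.rpow_le_rpow hn0.le h5 (by norm_num)).trans (le_of_eq ?_)
    rw [← Real.rpow_natCast, ← Real.rpow_mul (by positivity)]
    norm_num
  have h6 : (n : ℝ) = (n : ℝ) ^ (7 / 8 : ℝ) * (n : ℝ) ^ (1 / 8 : ℝ) := by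
    rw [← Real.rpow_add hn0]
    norm_num
  have h7 : (1 : ℝ) ≤ (n : ℝ) ^ (7 / 8 : ℝ) :=
    Real.one_le_rpow (by exact_mod_cast (by omega : 1 ≤ n)) (by norm_num)
  have h8 : (9 : ℝ) * q * (G.neighborSet v).ncard ≤ 4 * q * n + 2 * n + 225 * q := by
    exact_mod_cast c v
  generalize (n : ℝ) ^ (7 / 8 : ℝ) = s at *
  have h9 : (n : ℝ) ≤ s * (10 ^ 6 * q) := h6.le.trans (mul_le_mul_of_nonneg_left h4 (by linarith))
  refine le_of_mul_le_mul_left ?_ (show (0 : ℝ) < 9 * q by positivity)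
  nlinarith [mul_le_mul_of_nonneg_left h7 hq0.le]

end Pool.Agent.Lib.MP_453ac3_co.UB
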