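import Pool.Agent.Lib.MP_453ac3_co.Both
import Pool.Agent.Lib.MP_453ac3_co.Eff.LBf
import Pool.Agent.Lib.MP_453ac3_co.Eff.UBb

/-! Both bounds with power saving error terms. -/

namespace Pool.Agent.Lib.MP_453ac3_co

theorem power_saving : ∃ (C : ℝ) (n0 : ℕ), ∀ n ≥ n0,
    4 / 9 * (n : ℝ) - C * Real.sqrt n ≤ deltaMin n ∧
      (deltaMin n : ℝ) ≤ 4 / 9 * (n : ℝ) + C * (n : ℝ) ^ (7 / 8 : ℝ) := by
  classical
  obtain ⟨n0, h0⟩ := LB.lowerNat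
  refine ⟨10 ^ 9, n0 + 10 ^ 47, fun n hn => ?_⟩
  have : Nonempty (Fin n) := ⟨⟨0, by omega⟩⟩
  have deg : ∀ (G : SimpleGraph (Fin n)) (v : Fin n), (G.neighborSet v).ncard = G.degree v := by
    intro G v
    rw [← SimpleGraph.card_neighborFinset_eq_degree, ← Set.ncard_coe_finset]
    simp
  obtain ⟨G, hp, hpp, hd⟩ := UB.ubReal n (by omega)
  constructor
  · obtain ⟨G', hp', hpp', he⟩ := Nat.sInf_mem (s := {d : ℕ | ∃ G : SimpleGraph (Fin n),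
      IsPlanar G ∧ PathPairable G ∧ G.maxDegree = d}) ⟨_, G, hp, hpp, rfl⟩
    obtain ⟨v, hv⟩ := h0 (Fin n) G' (by simp; omega) hp' hpp'
    rw [LB.dg_eq_ncard, deg, Fintype.card_fin] at hv
    have h2 : G'.degree v ≤ deltaMin n := (G'.degree_le_maxDegree v).trans he.le
    have h3 : 4 * n ≤ 9 * deltaMin n + 3 * 10 ^ 9 * (Nat.sqrt n + 1) :=
      hv.trans (Nat.add_le_add_right (Nat.mul_le_mul_left 9 h2) _)
    have h4 : (4 : ℝ) * n ≤ 9 * deltaMin n + 3 * 10 ^ 9 * (Nat.sqrt n + 1) := by exact_mod_cast h3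
    have h5 : (Nat.sqrt n : ℝ) ≤ Real.sqrt n := Real.nat_sqrt_le_real_sqrt
    have h6 : (1 : ℝ) ≤ Real.sqrt n :=
      Real.one_le_sqrt.2 (by exact_mod_cast (by omega : 1 ≤ n))
    linarith
  · have h2 : deltaMin n ≤ G.maxDegree := Nat.sInf_le ⟨G, hp, hpp, rfl⟩
    obtain ⟨v, hv⟩ := G.exists_maximal_degree_vertex
    have h3 := hd v
    rw [deg, ← hv] at h3
    have h4 : (deltaMin n : ℝ) ≤ G.maxDegree := by exact_mod_cast h2
    have h5 : (0 : ℝ) ≤ (n : ℝ) ^ (7 / 8 : ℝ) := by positivity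
    linarith

end Pool.Agent.Lib.MP_453ac3_co
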