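import Pool.Agent.Lib.MP_453ac3_co.UB.Main

/-! The margins and the exchange step of the upper bound with explicit constants
(the proofs of `UB/Marg` and `UB/Reg`, with the constants kept in the statements). -/

namespace Pool.Agent.Lib.MP_453ac3_co.UB

open Finset

def Marg2E : Prop :=
  ∀ q : ℕ, 0 < q → ∃ g m0 : ℕ, 0 < g ∧ g = 2 * (400 * q) ^ 2 ∧ m0 = 2000 * q ∧
    ∀ (β : Type) [DecidableEq β] [Fintype β] (I : Inst β) (m e : ℕ), I.Ok m e → m0 ≤ m →
      (q + 1) * m ≤ q * e → ∀ L : Finset (Fin 3), L.Nonempty →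
      (∀ l, l ∉ L ↔ I.Few ((e - m) / 200) l) →
      ∀ lam : Fin 9 → ℤ, (∀ i, 0 ≤ lam i) → (∀ l ∉ L, lam (tc l) = 0) → ∀ j,
        ∃ s, I.Adm L s ∧ g * m * six lam + m * lam j ≤ g * ∑ i, lam i * I.y s i

def Marg1E : Prop :=
  ∀ q : ℕ, 0 < q → ∃ g m0 : ℕ, 0 < g ∧ g = 2 * (400 * q) ^ 2 ∧ m0 = 2000 * q ∧
    ∀ (β : Type) [DecidableEq β] [Fintype β] (I : Inst β) (m e : ℕ), I.Ok m e → m0 ≤ m →
      (q + 1) * m ≤ q * e → (∀ l, I.Few ((e - m) / 200) l) →
      ∀ (lam : Fin 9 → ℤ) (al : Bool × Fin 3 × Bool → ℤ), (∀ i, 0 ≤ lam i) → (∀ t, 0 ≤ al t) →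
        (∀ l, lam (tc l) = 0) → (∀ X, ∃ l, lam (spk X l) = 0) →
        ∀ Λ, ((∃ j, Λ = lam j) ∨ ∃ t, Λ = al t) → ∃ s, I.Adm ∅ s ∧
          g * m * six lam + m * Λ ≤ g * (∑ i, lam i * I.y s i + ∑ t, al t * I.z s t)

def Reg2E : Prop :=
  ∀ q : ℕ, 0 < q → ∃ m0 : ℕ, m0 ≤ 10 ^ 42 * q ^ 8 ∧
    ∀ (β : Type) [DecidableEq β] [Fintype β] (I : Inst β) (m e : ℕ), I.Ok m e → m0 ≤ m →
      (q + 1) * m ≤ q * e → (∃ l, ¬ I.Few ((e - m) / 200) l) → ∃ s, I.Good m s

def Reg1E : Prop :=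
  ∀ q : ℕ, 0 < q → ∃ m0 : ℕ, m0 ≤ 10 ^ 42 * q ^ 8 ∧
    ∀ (β : Type) [DecidableEq β] [Fintype β] (I : Inst β) (m e : ℕ), I.Ok m e → m0 ≤ m →
      (q + 1) * m ≤ q * e → (∀ l, I.Few ((e - m) / 200) l) → ∃ s, I.Good m s

open MargJ in
theorem marg2E (h1 : DCStmt) (h2 : BasStmt) : Marg2E := by
  intro q hq
  refine ⟨2 * (400 * q) ^ 2, 2000 * q, by positivity, rfl, rfl, ?_⟩
  intro β _ _ I m e hI hm hqe L hL hF lam h0 hz j
  obtain ⟨n1, n2, n3⟩ := nums hq hm hqe hI.me hI.em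
  obtain ⟨j₀, -, hj⟩ := exists_max_image univ lam ⟨j, mem_univ j⟩
  have hq' : (1 : ℤ) ≤ q := by exact_mod_cast hq
  have hm0 : (0 : ℤ) ≤ m := Int.natCast_nonneg m
  suffices H : ∃ s, I.Adm L s ∧ 2 * (400 * q : ℤ) ^ 2 * m * six lam + m * lam j₀ ≤
      2 * (400 * q : ℤ) ^ 2 * ∑ i, lam i * I.y s i by
    obtain ⟨s, a1, a2⟩ := H
    refine ⟨s, a1, ?_⟩
    have := mul_le_mul_of_nonneg_left (hj j (mem_univ j)) hm0
    push_cast
    linarith
  obtain ⟨μ, μ0, μ1, μ2⟩ : ∃ μ : Bool → ℤ, (∀ X, 0 ≤ μ X) ∧ (∀ X l, μ X ≤ lam (spk X l)) ∧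
      ∀ X, ∃ l, lam (spk X l) = μ X := by
    have : ∀ X, ∃ l, ∀ l', lam (spk X l) ≤ lam (spk X l') := fun X => by
      obtain ⟨l, -, hl⟩ := exists_min_image univ (fun l => lam (spk X l)) univ_nonempty
      exact ⟨l, fun l' => hl l' (mem_univ _)⟩
    choose l hl using this
    exact ⟨fun X => lam (spk X (l X)), fun X => h0 _, hl, fun X => ⟨l X, rfl⟩⟩
  set lam' : Fin 9 → ℤ :=
    fun i => lam i - if i.val < 3 then μ false else if i.val < 6 then μ true else 0 with hl'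
  have e1 : ∀ X l, lam' (spk X l) = lam (spk X l) - μ X := by
    intro X l
    cases X <;> fin_cases l <;> rfl
  have e2 : ∀ l, lam' (tc l) = lam (tc l) := by
    intro l
    fin_cases l <;> exact sub_zero _
  have hcase : ∀ i : Fin 9, (∃ X l, i = spk X l) ∨ ∃ l, i = tc l := by decide
  have h0' : ∀ i, 0 ≤ lam' i := by
    intro i
    rcases hcase i with ⟨X, l, rfl⟩ | ⟨l, rfl⟩
    · rw [e1]
      linarith [μ1 X l]
    · rw [e2]
      exact h0 _
  have e3 : six lam = six lam' + 3 * (μ false + μ true) := by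
    simp only [six, hl']
    norm_num
    ring
  have e4 : ∀ s, ∑ i, lam i * I.y s i = ∑ i, lam' i * I.y s i +
      (μ false * ∑ l, I.y s (spk false l) + μ true * ∑ l, I.y s (spk true l)) := by
    intro s
    rw [sum9, sum9, Fin.sum_univ_three, Fin.sum_univ_three]
    change _ = _ + (_ * (I.y s 0 + I.y s 1 + I.y s 2) + _ * (I.y s 3 + I.y s 4 + I.y s 5))
    simp only [hl']
    norm_num
    ring
  have hS : 0 ≤ six lam' := by
    unfold six
    linarith [h0' 0, h0' 1, h0' 2, h0' 3, h0' 4, h0' 5]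
  have t3 : ∀ s X, μ X * (3 * m) ≤ μ X * ∑ l, I.y s (spk X l) := fun s X =>
    mul_le_mul_of_nonneg_left (h2.three β I m e hI s X) (μ0 X)
  set h : ℕ := (e - m) / 200 with hh
  have hh0 : (0 : ℤ) ≤ h := Int.natCast_nonneg h
  have hg : (0 : ℤ) ≤ 2 * (400 * q : ℤ) ^ 2 := by positivity
  suffices H : ∃ s, I.Adm L s ∧ ∃ r : ℤ,
      2 * (400 * q : ℤ) ^ 2 * m * six lam' + m * lam j₀ ≤ 2 * (400 * q : ℤ) ^ 2 * r ∧
        r + 3 * m * (μ false + μ true) ≤ ∑ i, lam i * I.y s i by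
    obtain ⟨s, a1, r, a2, a3⟩ := H
    refine ⟨s, a1, ?_⟩
    have := mul_le_mul_of_nonneg_left a3 hg
    rw [e3]
    linarith
  rcases le_total (h * lam j₀) (2 * m * six lam') with hA | hB
  · obtain ⟨s, a1, a2⟩ := MargJ.dc h1 hI n3 L lam' h0'
      (fun X => (μ2 X).imp fun l hl => by rw [e1, hl, sub_self]) fun l hl => (hF l).1 hl
    refine ⟨s, a1, m * six lam' + h * six lam', ?_, ?_⟩
    · have := ar1 (Q := 400 * q) (by linarith) n1 hS (h0 j₀) hA
      linarith
    · rw [e4]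
      linarith [t3 s false, t3 s true]
  have hst : ∀ l ∈ L, ∃ s, I.Adm ∅ s ∧ (h : ℤ) ≤ I.y s (tc l) := by
    intro l hl
    by_contra hc
    refine (hF l).2 (fun s hs => ?_) hl
    by_contra hc'
    exact hc ⟨s, hs, (not_le.1 hc').le⟩
  have hpos : ∀ s, I.Adm ∅ s → ∀ i, lam' i * I.y s i ≤ ∑ i, lam' i * I.y s i := fun s hs i =>
    single_le_sum (f := fun i => lam' i * I.y s i)
      (fun i _ => mul_nonneg (h0' i) (y_nonneg h2 hs i)) (mem_univ i)
  rcases hcase j₀ with ⟨X, l₀, rfl⟩ | ⟨l, rfl⟩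
  · obtain ⟨l, hl⟩ := hL
    obtain ⟨s, a1, a2⟩ := hst l hl
    obtain ⟨s', b1, b2⟩ := h2.redec β I s a1 X
    have b3 : lam' (spk X l₀) ≤ six lam' := by
      have := h0' 0
      have := h0' 1
      have := h0' 2
      have := h0' 3
      have := h0' 4
      have := h0' 5
      unfold six
      cases X <;> fin_cases l₀ <;> simp only [spk] <;> norm_num <;> linarith
    rw [e1] at b3
    refine ⟨s', adm_mono b1, h * μ X,
      ar2 (by linarith) n1 hh0 n2 hS (h0 _) hB (by linarith), ?_⟩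
    have b4 : 3 * m + h ≤ ∑ l, I.y s' (spk X l) := by
      rw [sum_congr rfl fun l _ => b2 l, sum_add_distrib]
      have := single_le_sum (f := fun l => I.y s (tc l)) (fun l _ => y_nonneg h2 a1 _) (mem_univ l)
      linarith [h2.three β I m e hI s X]
    have b5 := mul_le_mul_of_nonneg_left b4 (μ0 X)
    have b6 := (mul_nonneg (h0' 0) (y_nonneg h2 b1 0)).trans (hpos s' b1 0)
    rw [e4]
    cases X
    · linarith [t3 s' true]
    · linarith [t3 s' false]
  · obtain ⟨s, a1, a2⟩ : ∃ s, I.Adm ∅ s ∧ h * lam (tc l) ≤ lam (tc l) * I.y s (tc l) := by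
      by_cases hl : l ∈ L
      · obtain ⟨s, a1, a2⟩ := hst l hl
        exact ⟨s, a1, by rw [mul_comm]; exact mul_le_mul_of_nonneg_left a2 (h0 _)⟩
      · obtain ⟨l', hl'⟩ := hL
        obtain ⟨s, a1, -⟩ := hst l' hl'
        exact ⟨s, a1, by simp [hz l hl]⟩
    refine ⟨s, adm_mono a1, h * lam (tc l),
      ar2 (by linarith) n1 hh0 n2 hS (h0 _) hB (by linarith), ?_⟩
    have b6 := hpos s a1 (tc l)
    rw [e2] at b6
    rw [e4]
    linarith [t3 s true, t3 s false]

open MargJ in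
theorem marg1E (h1 : DCStmt) (h2 : BasStmt) (h3 : AdjStmt) : Marg1E := by
  intro q hq
  refine ⟨2 * (400 * q) ^ 2, 2000 * q, by positivity, rfl, rfl, ?_⟩
  intro β _ _ I m e hI hm hqe hF lam al h0 ha hz hz' Λ hΛ
  obtain ⟨n1, n2, n3⟩ := nums hq hm hqe hI.me hI.em
  have hq' : (1 : ℤ) ≤ q := by exact_mod_cast hq
  have hm0 : (0 : ℤ) ≤ m := Int.natCast_nonneg m
  have hS : 0 ≤ six lam := by
    unfold six
    linarith [h0 0, h0 1, h0 2, h0 3, h0 4, h0 5]
  have hΛ0 : 0 ≤ Λ := by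
    rcases hΛ with ⟨j, rfl⟩ | ⟨t, rfl⟩
    exacts [h0 j, ha t]
  set h : ℕ := (e - m) / 200 with hh
  have hh0 : (0 : ℤ) ≤ h := Int.natCast_nonneg h
  have hg : (0 : ℤ) ≤ 2 * (400 * q : ℤ) ^ 2 := by positivity
  push_cast
  rcases le_total (h * Λ) (2 * m * six lam) with hA | hB
  · obtain ⟨s, a1, a2⟩ := MargJ.dc h1 hI n3 ∅ lam h0 hz' fun l _ => hF l
    refine ⟨s, a1, ?_⟩
    have a3 := ar1 (Q := 400 * q) (by linarith) n1 hS hΛ0 hA
    have a4 : 0 ≤ ∑ t, al t * I.z s t := sum_nonneg fun t _ => mul_nonneg (ha t) (z_nonneg s t)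
    have a5 := mul_le_mul_of_nonneg_left (a2.trans (le_add_of_nonneg_right a4)) hg
    linarith
  have key : ∀ t : Bool × Fin 3 × Bool, ∃ s, I.Adm ∅ s ∧ (h : ℤ) ≤ I.z s t := by
    intro t
    have hfx : ∀ b, (I.c b).val < 6 → b ∉ I.fx := fun b hb hc => by
      have := hI.fxE b hc
      omega
    refine ⟨fun b => (if b ∈ I.fx then I.o0 b else if (I.c b).val < 6 then true else t.2.2, 0, 0),
      h2.dir β I _ true (fun b hb => if_pos hb) fun b hb => by simp [hfx b hb, hb], ?_⟩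
    have a1 := h3 β I m e h hI hF t.1 t.2.1
    have a2 : (h : ℤ) ≤ ((univ.filter fun b => I.IsAdj t.1 t.2.1 b).card : ℕ) := by omega
    refine a2.trans (le_of_eq ?_)
    rw [card_filter]
    push_cast
    refine sum_congr rfl fun b _ => ?_
    unfold Inst.rdy
    by_cases hb : I.IsAdj t.1 t.2.1 b
    · obtain ⟨b1, -, b2, b3, b4⟩ := id hb
      have c1 : ¬ (I.c (I.σ b)).val < 6 := by
        rw [b2]
        generalize t.2.1 = a
        revert a
        decide
      have c2 : (I.c (I.σ (I.σ b))).val < 6 := by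
        rw [b4]
        generalize t.1 = X
        generalize t.2.1 = a
        revert X a
        decide
      simp [hb, hfx b b1, b1, b3, c1, hfx _ c2, c2]
    · simp [hb]
  have fin : ∀ s, I.Adm ∅ s → h * Λ ≤ ∑ t, al t * I.z s t →
      2 * (400 * q : ℤ) ^ 2 * m * six lam + m * Λ ≤
        2 * (400 * q : ℤ) ^ 2 * (∑ i, lam i * I.y s i + ∑ t, al t * I.z s t) := by
    intro s a1 a2
    have a3 := ar2 (Q := 400 * q) (μ := Λ) (by linarith) n1 hh0 n2 hS hΛ0 hB (by linarith)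
    have a4 : 0 ≤ ∑ i, lam i * I.y s i :=
      sum_nonneg fun i _ => mul_nonneg (h0 i) (y_nonneg h2 a1 i)
    exact a3.trans (mul_le_mul_of_nonneg_left (by linarith) hg)
  rcases hΛ with ⟨j, rfl⟩ | ⟨t, rfl⟩
  · have b1 : lam j ≤ six lam := by
      have := h0 0
      have := h0 1
      have := h0 2
      have := h0 3
      have := h0 4
      have := h0 5
      have b6 : lam 6 = 0 := hz 0
      have b7 : lam 7 = 0 := hz 1
      have b8 : lam 8 = 0 := hz 2
      have := single_le_sum (f := lam) (fun i _ => h0 i) (mem_univ j)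
      rw [sum9] at this
      unfold six
      linarith
    have b2 : lam j = 0 := by
      have b3 : (10 : ℤ) ≤ h := by omega
      nlinarith
    obtain ⟨s, a1, -⟩ := key (true, 0, true)
    refine ⟨s, a1, fin s a1 ?_⟩
    rw [b2, mul_zero]
    exact sum_nonneg fun t _ => mul_nonneg (ha t) (z_nonneg s t)
  · obtain ⟨s, a1, a2⟩ := key t
    refine ⟨s, a1, fin s a1 (le_trans ?_ (single_le_sum (f := fun t => al t * I.z s t)
      (fun t _ => mul_nonneg (ha t) (z_nonneg s t)) (mem_univ t)))⟩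
    rw [mul_comm]
    exact mul_le_mul_of_nonneg_left a2 (ha t)

open RegJ in
theorem reg2E (h1 : StepStmt) (h2 : WinStmt) (h3 : BasStmt) (h4 : Marg2E) : Reg2E := by
  classical
  intro q hq
  obtain ⟨g, m0, hg, hge, hme, h4⟩ := h4 q hq
  obtain ⟨K, hK⟩ : ∃ K, K = 900 * (26 * g) := ⟨_, rfl⟩
  obtain ⟨D, hD⟩ : ∃ D, D = 26 * g * 9 * (4 * K) ^ 2 := ⟨_, rfl⟩
  refine ⟨m0 + 3 + 26 * g * (9 * D), by
    have e : 26 * g * (9 * D) = 5030177677089177600000000000000000000 * q ^ 8 := by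
      rw [hD, hK, hge]
      ring
    have e1 : q ≤ q ^ 8 := Nat.le_self_pow (by omega) q
    rw [e]
    omega, fun β _ _ I m e hok hm hqe hL => ?_⟩
  obtain ⟨L, hLd⟩ : ∃ L : Finset (Fin 3), ∀ l, l ∉ L ↔ I.Few ((e - m) / 200) l :=
    ⟨univ.filter fun l => ¬ I.Few ((e - m) / 200) l, fun l => by simp⟩
  obtain ⟨l0, hl0⟩ := hL
  have h0 : l0 ∈ L := by_contra fun h => hl0 ((hLd l0).1 h)
  have hc := h3.card β I m e hok
  have : Nonempty β := Fintype.card_pos_iff.1 (by omega)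
  obtain ⟨win, -, hw2, hw3⟩ := h2 β I.σ (fun _ => True) K (by omega)
  let T : Fin 9 → ℤ := fun i => if i.val < 6 then m + D else if ∃ l ∈ L, tc l = i then D else 0
  have hy : ∀ s ∈ AA I L, ∀ l ∉ L, 0 ≤ I.y s (tc l) := fun s hs l hl =>
    Finset.sum_nonneg fun b _ => h3.eqt β I L s (adm_of I hs) l hl b
  have hT0 : ∀ l ∉ L, T (tc l) = 0 := fun l hl => by
    have : ¬ ∃ l' ∈ L, tc l' = tc l := by
      rintro ⟨l', h, h'⟩
      exact hl (tc_inj _ _ h' ▸ h)
    simp only [T, if_neg (tc_ge l), if_neg this]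
  have hTle : ∀ i, T i ≤ (if i.val < 6 then (m : ℤ) else 0) + D := fun i => by
    simp only [T]
    split_ifs <;> omega
  obtain ⟨s, hs, hfin⟩ := h1 β Dc (Fin 9) I.σ (fun b x x' _ => I.sup b x x') (AA I L) T win
    (26 * g) K (4 * K) (fun b x x' _ i => h3.bound β I b x x' i)
    ⟨fun b => (I.o0 b, 0, l0), fun _ _ => rfl, fun _ _ => h0⟩ (by omega)
    (by rw [Fintype.card_fin]; omega) hw3
    (fun s hs s' hs' w => ⟨⟨fun b hb => by
        unfold mix
        split_ifs
        exacts [hs'.1 b hb, hs.1 b hb], fun b hb => by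
        unfold mix
        split_ifs
        exacts [hs'.2 b hb, hs.2 b hb]⟩,
      RegJ.delta I (h3.bound β I) win K w (by simpa using hw2 w) s s'⟩)
    (fun s hs j => by
      obtain ⟨lam, hlam⟩ : ∃ lam : Fin 9 → ℤ, ∀ i, lam i = max (T i - I.y s i) 0 :=
        ⟨_, fun _ => rfl⟩
      have hl0 : ∀ i, 0 ≤ lam i := fun i => by rw [hlam]; exact le_max_right _ _
      obtain ⟨j0, hj0⟩ := Finite.exists_max lam
      obtain ⟨s1, hs1, hm1⟩ := h4 β I m e hok (by omega) hqe L ⟨l0, h0⟩ hLd lam hl0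
        (fun l hl => by
          rw [hlam, hT0 l hl]
          have := hy s hs l hl
          omega) j0
      obtain ⟨s2, hs2, he⟩ := of_adm I h0 hs1
      refine ⟨s2, hs2, ?_⟩
      have hST : ∑ i, lam i * T i ≤ m * six lam + 9 * D * lam j0 := by
        have h5 : ∀ i, lam i * T i ≤ lam i * (if i.val < 6 then (m : ℤ) else 0) + D * lam j0 :=
          fun i => by
            have h6 := mul_le_mul_of_nonneg_left (hTle i) (hl0 i)
            have h7 := mul_le_mul_of_nonneg_left (hj0 i) (Int.natCast_nonneg D)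
            linarith
        refine (Finset.sum_le_sum fun i _ => h5 i).trans ?_
        rw [Finset.sum_add_distrib, sum_six]
        simp
        linarith
      have hc2 : 26 * (g : ℤ) * (9 * D) ≤ 13 * m := by
        have : 26 * g * (9 * D) ≤ 13 * m := by omega
        exact_mod_cast this
      have := arith g m (Fintype.card β) (9 * D) (six lam) (lam j0) (lam j) _ _
        (Int.natCast_nonneg g) (hl0 j0) (hj0 j) (Int.natCast_nonneg _) (by omega) hc2 hST hm1
      have ht : ∀ s' i, tot I.σ (fun b x x' _ => I.sup b x x') s' i = I.y s' i := fun _ _ => rfl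
      simp only [ht, ← hlam, he]
      push_cast
      exact this)
  refine ⟨s, hs.1, fun i => ?_⟩
  have h5 : T i - I.y s i ≤ D := by
    have h6 := hfin i
    rw [Fintype.card_fin] at h6
    rw [hD]
    exact_mod_cast h6
  by_cases hi : i.val < 6
  · simp only [T, if_pos hi] at h5 ⊢
    linarith
  · rw [if_neg hi]
    obtain ⟨l, rfl⟩ := tc_surj i hi
    by_cases hl : l ∈ L
    · have : ∃ l' ∈ L, tc l' = tc l := ⟨l, hl, rfl⟩
      simp only [T, if_neg hi, if_pos this] at h5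
      linarith
    · exact hy s hs l hl

open RegJ in
theorem reg1E (h1 : StepStmt) (h2 : WinStmt) (h3 : BasStmt) (h4 : Marg1E) (h5 : DeltaStmt)
    (h6 : FinStmt) : Reg1E := by
  classical
  intro q hq
  obtain ⟨g, m0, hg, hge, hme, h4⟩ := h4 q hq
  obtain ⟨K, hK⟩ : ∃ K, K = 2100 * (26 * g) := ⟨_, rfl⟩
  obtain ⟨D, hD⟩ : ∃ D, D = 26 * g * 21 * (100 * K) ^ 2 := ⟨_, rfl⟩
  refine ⟨m0 + 3 + 26 * g * (84 * D), by
    have e : 26 * g * (84 * D) = 372761006255898624000000000000000000000000 * q ^ 8 := by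
      rw [hD, hK, hge]
      ring
    have e1 : q ≤ q ^ 8 := Nat.le_self_pow (by omega) q
    rw [e]
    omega, fun β _ _ I m e hok hm hqe hF => ?_⟩
  have hc := h3.card β I m e hok
  have : Nonempty β := Fintype.card_pos_iff.1 (by omega)
  obtain ⟨win, hw1, hw2, hw3⟩ := h2 β I.σ (fun b => ¬ hard (I.c b) (I.c (I.σ b))) K (by omega)
  have hcard : Fintype.card (Fin 9 ⊕ (Bool × Fin 3 × Bool)) = 21 := by simp
  let f : β → Dc → Dc → Dc → Fin 9 ⊕ (Bool × Fin 3 × Bool) → ℤ :=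
    fun b x x' x'' => Sum.elim (I.sup b x x') (I.rdy b x x' x'')
  let T : Fin 9 ⊕ (Bool × Fin 3 × Bool) → ℤ :=
    Sum.elim (fun i => if i.val < 6 then m else 0) fun _ => 7 * D
  have ht1 : ∀ s i, tot I.σ f s (Sum.inl i) = I.y s i := fun _ _ => rfl
  have ht2 : ∀ s t, tot I.σ f s (Sum.inr t) = I.z s t := fun _ _ => rfl
  have hT1 : ∀ i, T (Sum.inl i) = if i.val < 6 then (m : ℤ) else 0 := fun _ => rfl
  have hT2 : ∀ t, T (Sum.inr t) = 7 * D := fun _ => rfl
  obtain ⟨s, hs, hfin⟩ := h1 β Dc _ I.σ f {s | I.Adm ∅ s} T win (26 * g) K (100 * K)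
    (fun b x x' x'' i => by
      rcases i with i | t
      · exact h3.bound β I b x x' i
      · show |I.rdy b x x' x'' t| ≤ 1
        unfold Inst.rdy
        split_ifs <;> simp)
    ⟨fun b => (if b ∈ I.fx then I.o0 b else false, 0, 0), h3.dir β I _ false
      (fun b hb => if_pos hb) fun b hb => if_neg fun h => by have := hok.fxE b h; omega⟩
    (by omega) (by rw [hcard]; omega) hw3
    (fun s hs s' hs' w => by
      obtain ⟨a1, a2, a3⟩ := h5 β I win K hw1 hw2 s s' hs hs' w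
      refine ⟨a1, fun i => ?_⟩
      push_cast
      rcases i with i | t
      exacts [a2 i, a3 t])
    (fun s hs j => by
      obtain ⟨La, hLa⟩ : ∃ La : Fin 9 ⊕ (Bool × Fin 3 × Bool) → ℤ,
        ∀ i, La i = max (T i - tot I.σ f s i) 0 := ⟨_, fun _ => rfl⟩
      have hl0 : ∀ i, 0 ≤ La i := fun i => by rw [hLa]; exact le_max_right _ _
      obtain ⟨j0, hj0⟩ := Finite.exists_max La
      obtain ⟨s1, hs1, hm1⟩ := h4 β I m e hok (by omega) hqe hF (fun i => La (Sum.inl i))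
        (fun t => La (Sum.inr t)) (fun _ => hl0 _) (fun _ => hl0 _)
        (fun l => by
          have : 0 ≤ I.y s (tc l) :=
            Finset.sum_nonneg fun b _ => h3.eqt β I ∅ s hs l (by simp) b
          rw [hLa, hT1, ht1, if_neg (tc_ge l)]
          omega)
        (fun X => by
          have a1 := h3.three β I m e hok s X
          rw [Fin.sum_univ_three] at a1
          have a2 : ∃ l, (m : ℤ) ≤ I.y s (spk X l) := by
            by_contra hn
            have b0 := not_le.1 fun h => hn ⟨0, h⟩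
            have b1 := not_le.1 fun h => hn ⟨1, h⟩
            have b2 := not_le.1 fun h => hn ⟨2, h⟩
            linarith
          obtain ⟨l, hl⟩ := a2
          refine ⟨l, ?_⟩
          rw [hLa, hT1, ht1, if_pos (spk_lt X l)]
          omega)
        (La j0) (by
          rcases j0 with i | t
          exacts [Or.inl ⟨i, rfl⟩, Or.inr ⟨t, rfl⟩])
      refine ⟨s1, hs1, ?_⟩
      have hST : ∑ i, La i * T i ≤ m * six (fun i => La (Sum.inl i)) + 84 * D * La j0 := by
        rw [Fintype.sum_sum_type]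
        simp only [hT1, hT2]
        rw [sum_six fun i => La (Sum.inl i)]
        have a1 : ∑ t, La (Sum.inr t) * (7 * (D : ℤ)) ≤
            ∑ _t : Bool × Fin 3 × Bool, La j0 * (7 * (D : ℤ)) :=
          Finset.sum_le_sum fun t _ => mul_le_mul_of_nonneg_right (hj0 _) (by positivity)
        rw [Finset.sum_const, Finset.card_univ] at a1
        have a2 : Fintype.card (Bool × Fin 3 × Bool) = 12 := by simp
        rw [a2, nsmul_eq_mul] at a1
        push_cast at a1
        linarith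
      have hc2 : 26 * (g : ℤ) * (84 * D) ≤ 13 * m := by
        have : 26 * g * (84 * D) ≤ 13 * m := by omega
        exact_mod_cast this
      have := arith g m (Fintype.card β) (84 * D) _ (La j0) (La j) _ _
        (Int.natCast_nonneg g) (hl0 j0) (hj0 j) (Int.natCast_nonneg _) (by omega) hc2 hST hm1
      simp only [← hLa]
      rw [Fintype.sum_sum_type fun i => La i * tot I.σ f s1 i]
      push_cast
      exact this)
  have hle : ∀ i, T i - tot I.σ f s i ≤ D := fun i => by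
    have a1 := hfin i
    rw [hcard] at a1
    rw [hD]
    exact_mod_cast a1
  refine h6 β I m e hok s hs fun t => ?_
  have a0 : ∀ i : Fin 9, i.val < 6 → max (m - I.y s i) 0 ≤ (D : ℤ) := fun i hi => by
    have a1 := hle (Sum.inl i)
    rw [hT1, ht1, if_pos hi] at a1
    omega
  have a1 := hle (Sum.inr t)
  rw [hT2, ht2] at a1
  have b0 := a0 0 (by decide)
  have b1 := a0 1 (by decide)
  have b2 := a0 2 (by decide)
  have b3 := a0 3 (by decide)
  have b4 := a0 4 (by decide)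
  have b5 := a0 5 (by decide)
  unfold six
  linarith

end Pool.Agent.Lib.MP_453ac3_co.UB
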